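import Pool.Agent.TH847.LG.Fin

set_option autoImplicit false

/-!
# Torsion in the class group of a field with many small primes that are norms
-/

namespace Pool.Agent.TH869.EVF

open NumberField Pool.Agent.TH847.LG Pool.Agent.TH847.LS

theorem log_pow_bound (n : ℕ) (hn : 1 ≤ n) (ε : ℝ) (hε : 0 < ε) (D : ℝ) (hD : 3 ≤ D) (m : ℝ)
    (hm0 : 0 ≤ m) (hm : m ≤ D) :
    (Real.log (m + 2)) ^ n ≤ (2 * (n / ε)) ^ n * D ^ ε := by
  have hnr : (1 : ℝ) ≤ n := by exact_mod_cast hn
  have h1 : Real.log (m + 2) ≤ 2 * (n / ε) * D ^ (ε / n) := by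
    have h2 : Real.log (m + 2) ≤ Real.log (D ^ 2) := by
      apply Real.log_le_log (by linarith)
      nlinarith
    rw [Real.log_pow] at h2
    have h3 := Real.log_le_rpow_div (show 0 ≤ D by linarith) (show 0 < ε / n by positivity)
    have e : D ^ (ε / n) / (ε / n) = (n / ε) * D ^ (ε / n) := by
      field_simp
    rw [e] at h3
    push_cast at h2
    linarith
  have h0 : 0 ≤ Real.log (m + 2) := Real.log_nonneg (by linarith)
  calc (Real.log (m + 2)) ^ n ≤ (2 * (n / ε) * D ^ (ε / n)) ^ n := by gcongr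
    _ = (2 * (n / ε)) ^ n * D ^ ε := by
      rw [mul_pow]
      congr 1
      rw [← Real.rpow_natCast, ← Real.rpow_mul (by linarith)]
      congr 1
      field_simp

/-- many small primes that are norms give a power saving -/
theorem tor_bound (n : ℕ) (hn2 : 2 ≤ n) (ε : ℝ) (hε : 0 < ε) : ∃ C : ℝ, 0 < C ∧ ∀ l : ℕ, 1 ≤ l →
    ∀ (K : Type) [Field K] [NumberField K], Module.finrank ℚ K = n → ∀ G : Finset ℕ,
    (∀ p ∈ G, p.Prime ∧ (2 * (150 * p) ^ l) ^ (n * (n - 1)) < (discr K).natAbs ∧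
      ¬ p ∣ (discr K).natAbs ∧ ∃ P : Ideal (𝓞 K), Ideal.absNorm P = p) →
    (Nat.card {c : ClassGroup (𝓞 K) // c ^ l = 1} : ℝ) * ((G.card : ℝ) + 1) ≤
      C * l ^ n * ((discr K).natAbs : ℝ) ^ (1 / 2 + ε) := by
  obtain ⟨C, hC0, hC⟩ := main_n n hn2
  set c1 : ℝ := (2 * (n / (ε / 2))) ^ n with hc1
  have hc10 : 0 < c1 := by
    have : (0 : ℝ) < n := by exact_mod_cast (by omega : 0 < n)
    positivity
  refine ⟨C * c1 * c1, by positivity, ?_⟩
  intro l hl K _ _ hn G hG
  set D := (discr K).natAbs with hD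
  have hD2 : 2 < D := by
    have := abs_discr_gt_two (K := K) (by rw [hn]; omega)
    rw [Int.abs_eq_natAbs] at this
    exact_mod_cast this
  have hDr : (3 : ℝ) ≤ D := by exact_mod_cast hD2
  have hD0 : D ≠ 0 := by omega
  have h3 := hC l hl K hn D.primeFactors (fun p hp => Nat.prime_of_mem_primeFactors hp) (by
      intro p _ q hqB hp hq hpq Q R J hQ hQR hJ z hz
      refine gen_top_unram z Q R J hq hp hpq hl hQ hQR ?_ hJ hz
      intro hdvd
      have h5 := dvd_discr_of_dvd hq hQ hQR hdvd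
      exact hqB (Nat.mem_primeFactors.mpr ⟨hq, h5, hD0⟩))
  rw [← hD] at h3
  have hsub : G ⊆ GG K n l D D.primeFactors := by
    intro p hp
    obtain ⟨h4, h5, h6, h7⟩ := hG p hp
    rw [GG, Finset.mem_filter, mem_TT, Nat.mem_primeFactors]
    refine ⟨⟨⟨?_, h4⟩, h7⟩, h5, fun h => h6 h.2.1⟩
    have := le_Phi hn2 hl p
    unfold Phi at this
    omega
  have hk := Finset.card_le_card hsub
  set k := (GG K n l D D.primeFactors).card with hkdef
  have hkD : k ≤ D := by
    have h4 : GG K n l D D.primeFactors ⊆ Finset.Icc 1 D := by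
      intro p hp
      rw [GG, Finset.mem_filter, mem_TT] at hp
      rw [Finset.mem_Icc]
      exact ⟨hp.1.1.2.one_lt.le, hp.1.1.1⟩
    have h5 := Finset.card_le_card h4
    rw [Nat.card_Icc] at h5
    omega
  have hbD : D.primeFactors.card ≤ D := by
    have h4 : D.primeFactors ⊆ Finset.Icc 1 D := by
      intro p hp
      rw [Nat.mem_primeFactors] at hp
      rw [Finset.mem_Icc]
      exact ⟨hp.1.one_lt.le, Nat.le_of_dvd (by omega) hp.2.1⟩
    have h5 := Finset.card_le_card h4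
    rw [Nat.card_Icc] at h5
    omega
  have hlog : 1 ≤ Real.log (D : ℝ) := by
    rw [Real.le_log_iff_exp_le (by linarith)]
    have := Real.exp_one_lt_d9
    linarith
  have hb1 := log_pow_bound n (by omega) (ε / 2) (by positivity) D hDr k (by positivity)
    (by exact_mod_cast hkD)
  have hb2 := log_pow_bound n (by omega) (ε / 2) (by positivity) D hDr D.primeFactors.card
    (by positivity) (by exact_mod_cast hbD)
  rw [← hc1] at hb1 hb2
  have hkr : (G.card : ℝ) ≤ k := by exact_mod_cast hk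
  set T : ℝ := (Nat.card {c : ClassGroup (𝓞 K) // c ^ l = 1} : ℝ) with hT
  have hT0 : 0 ≤ T := by positivity
  have hk0 : (0 : ℝ) ≤ k := by positivity
  have hlk : 0 ≤ Real.log ((k : ℝ) + 2) := Real.log_nonneg (by linarith)
  have hlb : 0 ≤ Real.log ((D.primeFactors.card : ℝ) + 2) :=
    Real.log_nonneg (by have : (0 : ℝ) ≤ D.primeFactors.card := by positivity
                        linarith)
  have hDpos : (0 : ℝ) < D := by linarith
  calc T * ((G.card : ℝ) + 1) ≤ T * (k + 1) := by gcongr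
    _ ≤ T * (k + 1) * Real.log (D : ℝ) := le_mul_of_one_le_right (by positivity) hlog
    _ ≤ C * l ^ n * (Real.log (k + 2)) ^ n * (Real.log (D.primeFactors.card + 2)) ^ n *
          √(D : ℝ) := h3
    _ ≤ C * l ^ n * (c1 * (D : ℝ) ^ (ε / 2)) * (c1 * (D : ℝ) ^ (ε / 2)) * √(D : ℝ) := by
        gcongr
    _ = C * c1 * c1 * l ^ n * (((D : ℝ) ^ (ε / 2) * (D : ℝ) ^ (ε / 2)) * √(D : ℝ)) := by ring
    _ = C * c1 * c1 * l ^ n * (D : ℝ) ^ (1 / 2 + ε) := by
        rw [Real.sqrt_eq_rpow, ← Real.rpow_add hDpos, ← Real.rpow_add hDpos]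
        congr 2
        ring

end Pool.Agent.TH869.EVF
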