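import Pool.Agent.TH869.EVF.Gen
import Pool.Agent.TH869.EVF.AP
import Pool.Agent.TH869.EVF.Tor

set_option autoImplicit false

/-!
# Class group torsion of the fields generated by roots of Dickson polynomials
-/

namespace Pool.Agent.TH869.EVF

open Polynomial NumberField Finset

theorem card_primeFactors_le (N : ℕ) (hN : N ≠ 0) :
    (N.primeFactors.card : ℝ) ≤ 2 * Real.log N := by
  have h5 : 2 ^ N.primeFactors.card ≤ N := by
    calc 2 ^ N.primeFactors.card ≤ ∏ p ∈ N.primeFactors, p := by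
          refine Finset.pow_card_le_prod _ _ _ fun p hp => ?_
          exact (Nat.prime_of_mem_primeFactors hp).two_le
      _ ≤ N := Nat.le_of_dvd (by omega) (Nat.prod_primeFactors_dvd N)
  have h6 : (2 : ℝ) ^ N.primeFactors.card ≤ N := by exact_mod_cast h5
  have h7 := Real.log_le_log (by positivity) h6
  rw [Real.log_pow] at h7
  have h8 := Real.log_two_gt_d9
  have h9 : (0 : ℝ) ≤ N.primeFactors.card := by positivity
  nlinarith

/-- the size condition -/
theorem phi_lt (n l p D : ℕ) (hn : 3 ≤ n) (hl : 1 ≤ l) (hD : 3 ≤ D)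
    (hp : (p : ℝ) ≤ (D : ℝ) ^ (1 / (l * n * (n - 1)) : ℝ) / 301) :
    (2 * (150 * p) ^ l) ^ (n * (n - 1)) < D := by
  have h1 : (2 * (150 * p) ^ l) ^ (n * (n - 1)) ≤ (300 * p) ^ (l * (n * (n - 1))) := by
    rw [pow_mul (300 * p)]
    apply Nat.pow_le_pow_left
    calc 2 * (150 * p) ^ l ≤ 2 ^ l * (150 * p) ^ l := by
          gcongr
          exact Nat.le_self_pow (by omega) 2
      _ = (300 * p) ^ l := by rw [← mul_pow]; ring
  refine lt_of_le_of_lt h1 ?_
  have hDr : (0 : ℝ) < D := by exact_mod_cast (by omega : 0 < D)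
  set θ : ℝ := 1 / (l * n * (n - 1)) with hθ
  have hDθ : 0 < (D : ℝ) ^ θ := Real.rpow_pos_of_pos hDr θ
  have h2 : (300 * p : ℝ) < (D : ℝ) ^ θ := by
    rw [le_div_iff₀ (by norm_num)] at hp
    by_cases hp0 : (p : ℝ) = 0
    · rw [hp0]; simpa using hDθ
    · have : (0 : ℝ) < p := lt_of_le_of_ne (by positivity) (Ne.symm hp0)
      linarith
  have hk : (l * (n * (n - 1)) : ℕ) ≠ 0 := by
    have : 0 < n - 1 := by omega
    positivity
  have h3 : (300 * p : ℝ) ^ (l * (n * (n - 1))) < ((D : ℝ) ^ θ) ^ (l * (n * (n - 1))) :=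
    pow_lt_pow_left₀ h2 (by positivity) hk
  have h4 : ((D : ℝ) ^ θ) ^ (l * (n * (n - 1))) = D := by
    rw [← Real.rpow_natCast, ← Real.rpow_mul hDr.le]
    have : θ * ((l * (n * (n - 1)) : ℕ) : ℝ) = 1 := by
      have hlr : (0 : ℝ) < l := by exact_mod_cast hl
      have hnr : (3 : ℝ) ≤ n := by exact_mod_cast hn
      rw [hθ]
      push_cast [Nat.cast_sub (show 1 ≤ n by omega)]
      have : (n : ℝ) - 1 ≠ 0 := by linarith
      field_simp
    rw [this, Real.rpow_one]
  rw [h4] at h3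
  exact_mod_cast h3

/-- **Torsion in the class groups of pure fields and of Dickson fields.** -/
theorem dickson_torsion (n : ℕ) (hn : 3 ≤ n) (hodd : Odd n) (ε : ℝ) (hε : 0 < ε) :
    ∃ C : ℝ, 0 < C ∧ ∀ l : ℕ, 1 ≤ l → ∀ a b : ℤ, (a = 0 ∨ ¬ 3 ∣ n) → b ^ 2 ≠ 4 * a ^ n →
    ∀ (K : Type) [Field K] [NumberField K], Module.finrank ℚ K = n → ∀ α : K,
    IntermediateField.adjoin ℚ {α} = ⊤ → (dickson 1 (a : K) n).eval α = b →
    (Nat.card {c : ClassGroup (𝓞 K) // c ^ l = 1} : ℝ) ≤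
      C * l ^ n * Real.log (|(a : ℝ)| + |(b : ℝ)| + 2) *
        |(discr K : ℝ)| ^ (1 / 2 - 1 / (l * n * (n - 1)) + ε : ℝ) := by
  set δ : ℝ := min ε 1 / 4 with hδ
  have hδ0 : 0 < δ := by
    have : 0 < min ε 1 := lt_min hε one_pos
    positivity
  have hδε : 4 * δ ≤ ε := by
    rw [hδ]; have := min_le_left ε 1; linarith
  have hδ1 : 4 * δ ≤ 1 := by
    rw [hδ]; have := min_le_right ε 1; linarith
  obtain ⟨C1, hC10, hC1⟩ := tor_bound n (by omega) δ hδ0
  obtain ⟨c, C0, hc0, hC00, hPA⟩ := PA_lower n 2 (by omega)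
    ((Nat.coprime_two_left).mpr hodd) δ hδ0 (by linarith)
  have hlogn : 0 ≤ Real.log n := Real.log_natCast_nonneg n
  set C2 : ℝ := 2 * C0 + 2 * (2 * Real.log n + (n + 4) + 2 / δ) with hC2
  have hC20 : 0 < C2 := by positivity
  refine ⟨C1 * (1204 / c + 602 * C2 / c), by positivity, ?_⟩
  intro l hl a b h3 hab K _ _ hK α hα h0
  set D := (discr K).natAbs with hD
  have hDK : |(discr K : ℝ)| = (D : ℝ) := by
    rw [hD, Nat.cast_natAbs]
    push_cast
    rfl
  rw [hDK]
  have hD2 : 2 < D := by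
    have := abs_discr_gt_two (K := K) (by rw [hK]; omega)
    rw [Int.abs_eq_natAbs] at this
    exact_mod_cast this
  have hDr : (3 : ℝ) ≤ D := by exact_mod_cast hD2
  have hDpos : (0 : ℝ) < D := by linarith
  set T : ℝ := (Nat.card {c : ClassGroup (𝓞 K) // c ^ l = 1} : ℝ) with hT
  have hT0 : 0 ≤ T := by positivity
  set L : ℝ := Real.log (|(a : ℝ)| + |(b : ℝ)| + 2) with hL
  have hS2 : (2 : ℝ) ≤ |(a : ℝ)| + |(b : ℝ)| + 2 := by
    have := abs_nonneg (a : ℝ); have := abs_nonneg (b : ℝ); linarith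
  have hL2 : 1 ≤ 2 * L := by
    have h1 : Real.log 2 ≤ L := Real.log_le_log (by norm_num) hS2
    have := Real.log_two_gt_d9
    linarith
  have hL0 : 0 < L := by linarith
  set θ : ℝ := 1 / (l * n * (n - 1)) with hθ
  have hlr : (1 : ℝ) ≤ l := by exact_mod_cast hl
  have hnr : (3 : ℝ) ≤ n := by exact_mod_cast hn
  have hθ0 : 0 < θ := by
    have : (0 : ℝ) < (n : ℝ) - 1 := by linarith
    positivity
  have hθ1 : θ ≤ 1 := by
    rw [hθ, div_le_one (by have : (0 : ℝ) < (n : ℝ) - 1 := by linarith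
                           positivity)]
    have h1 : (1 : ℝ) ≤ l * n := by nlinarith
    have h2 : (1 : ℝ) ≤ (n : ℝ) - 1 := by linarith
    nlinarith
  set y : ℝ := (D : ℝ) ^ θ / 301 with hy
  have hDθ : 0 < (D : ℝ) ^ θ := Real.rpow_pos_of_pos hDpos θ
  have hy0 : 0 < y := by positivity
  set M := (Mab n a b).natAbs with hM
  have hM0 : M ≠ 0 := Int.natAbs_ne_zero.mpr (Mab_ne n (by omega) a b hab)
  set N0 : ℕ := n * M * D with hN0
  have hN00 : N0 ≠ 0 := by
    have : D ≠ 0 := by omega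
    have : n ≠ 0 := by omega
    positivity
  set G := (PA n 2 y).filter (fun p => ¬ p ∣ N0) with hG
  have hmain := hC1 l hl K hK G (by
    intro p hp
    rw [hG, mem_filter, PA, mem_filter, mem_Icc] at hp
    obtain ⟨⟨⟨-, hpy⟩, hpp, hpc⟩, hpN⟩ := hp
    have hpn : ¬ p ∣ n := fun h => hpN (by rw [hN0, mul_assoc]; exact h.mul_right _)
    have hpM : ¬ p ∣ M := fun h => hpN (by rw [hN0]; exact (h.mul_left n).mul_right _)
    have hpD : ¬ p ∣ D := fun h => hpN (by rw [hN0]; exact h.mul_left _)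
    refine ⟨hpp, ?_, hpD, dickson_norm hn h3 hK α hα h0 hpp hpc hpn hpM⟩
    refine phi_lt n l p D hn hl (by omega) ?_
    exact (Nat.cast_le.mpr hpy).trans (Nat.floor_le hy0.le))
  rw [← hT, ← hD] at hmain
  -- lower bound for the number of primes
  have hcard : ((PA n 2 y).card : ℝ) ≤ G.card + N0.primeFactors.card := by
    have h1 : PA n 2 y ⊆ G ∪ N0.primeFactors := by
      intro p hp
      rw [mem_union, hG, mem_filter]
      by_cases h : p ∣ N0
      · right
        rw [PA, mem_filter] at hp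
        exact Nat.mem_primeFactors.mpr ⟨hp.2.1, h, hN00⟩
      · left; exact ⟨hp, h⟩
    have h2 := (card_le_card h1).trans (card_union_le _ _)
    exact_mod_cast h2
  have hDδ : 1 ≤ (D : ℝ) ^ δ := Real.one_le_rpow (by linarith) hδ0.le
  have hlogD : Real.log D ≤ (D : ℝ) ^ δ / δ := Real.log_le_rpow_div hDpos.le hδ0
  have hlogN : Real.log (N0 : ℝ) ≤ Real.log n + (n + 4) * L + Real.log D := by
    have hnpos : (0 : ℝ) < n := by linarith
    have hMpos : (0 : ℝ) < M := by exact_mod_cast Nat.pos_of_ne_zero hM0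
    rw [hN0]
    push_cast
    rw [Real.log_mul (by positivity) (by positivity), Real.log_mul (by positivity) (by positivity)]
    have h1 : (M : ℝ) ≤ (|(a : ℝ)| + |(b : ℝ)| + 2) ^ (n + 4) := by
      have h2 := Mab_le n (by omega) a b
      rw [hM, Nat.cast_natAbs]
      push_cast
      exact h2
    have h2 := Real.log_le_log hMpos h1
    rw [Real.log_pow] at h2
    push_cast at h2
    linarith
  have hbad : C0 + (N0.primeFactors.card : ℝ) ≤ C2 * (L * (D : ℝ) ^ δ) := by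
    have h1 := card_primeFactors_le N0 hN00
    set E : ℝ := (D : ℝ) ^ δ with hE
    have hLE : 1 ≤ 2 * (L * E) := by nlinarith
    have hLE0 : 0 ≤ L * E := by positivity
    have e1 : C0 ≤ 2 * C0 * (L * E) := by nlinarith
    have e2 : Real.log n ≤ 2 * Real.log n * (L * E) := by nlinarith
    have e3 : (n + 4) * L ≤ (n + 4) * (L * E) := by
      have : L ≤ L * E := le_mul_of_one_le_right hL0.le hDδ
      nlinarith
    have e4 : Real.log D ≤ 2 / δ * (L * E) := by
      have h5 : E ≤ 2 * (L * E) := by nlinarith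
      calc Real.log D ≤ E / δ := hlogD
        _ ≤ (2 * (L * E)) / δ := by gcongr
        _ = 2 / δ * (L * E) := by ring
    calc C0 + (N0.primeFactors.card : ℝ)
        ≤ C0 + 2 * (Real.log n + (n + 4) * L + Real.log D) := by linarith
      _ ≤ 2 * C0 * (L * E) + 2 * (2 * Real.log n * (L * E) + (n + 4) * (L * E) +
            2 / δ * (L * E)) := by linarith
      _ = C2 * (L * E) := by rw [hC2]; ring
  have hypow : (D : ℝ) ^ (θ - δ) / 301 ≤ y ^ (1 - δ) := by
    rw [hy, Real.div_rpow hDθ.le (by norm_num), ← Real.rpow_mul hDpos.le]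
    have h1 : (301 : ℝ) ^ (1 - δ) ≤ 301 := by
      calc (301 : ℝ) ^ (1 - δ) ≤ 301 ^ (1 : ℝ) :=
            Real.rpow_le_rpow_of_exponent_le (by norm_num) (by linarith)
        _ = 301 := Real.rpow_one _
    have h2 : (D : ℝ) ^ (θ - δ) ≤ (D : ℝ) ^ (θ * (1 - δ)) := by
      apply Real.rpow_le_rpow_of_exponent_le (by linarith)
      nlinarith
    have h3 : (0 : ℝ) < 301 ^ (1 - δ) := Real.rpow_pos_of_pos (by norm_num) _
    gcongr
  have hg := hPA y hy0
  set g : ℝ := (G.card : ℝ) with hgdef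
  have hg0 : 0 ≤ g := by positivity
  set A : ℝ := (D : ℝ) ^ (θ - δ) with hA
  have hA0 : 0 < A := Real.rpow_pos_of_pos hDpos _
  have hgA : c / 301 * A - C2 * (L * (D : ℝ) ^ δ) ≤ g := by
    have h1 : c * (A / 301) ≤ c * y ^ (1 - δ) := by gcongr
    have e : c / 301 * A = c * (A / 301) := by ring
    rw [e]
    linarith
  have hln : (0 : ℝ) < (l : ℝ) ^ n := by positivity
  have hDe : ∀ u : ℝ, u ≤ 1 / 2 - θ + ε → (D : ℝ) ^ u ≤ (D : ℝ) ^ (1 / 2 - θ + ε) := fun u hu =>
    Real.rpow_le_rpow_of_exponent_le (by linarith) hu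
  set Z : ℝ := (D : ℝ) ^ (1 / 2 - θ + ε) with hZ
  have hZ0 : 0 < Z := Real.rpow_pos_of_pos hDpos _
  rcases le_or_gt (C2 * (L * (D : ℝ) ^ δ)) (c / 602 * A) with hcase | hcase
  · have h1 : c / 602 * A ≤ g := by
      have e : c / 301 * A = c / 602 * A + c / 602 * A := by ring
      rw [e] at hgA
      linarith
    have h2 : T * (c / 602 * A) ≤ C1 * l ^ n * (D : ℝ) ^ (1 / 2 + δ) := by
      refine le_trans ?_ hmain
      exact mul_le_mul_of_nonneg_left (by linarith) hT0
    have h3 : (D : ℝ) ^ (1 / 2 + δ) = (D : ℝ) ^ (1 / 2 - θ + 2 * δ) * A := by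
      rw [hA, ← Real.rpow_add hDpos]; congr 1; ring
    have h4 : T * (c / 602) ≤ C1 * l ^ n * (D : ℝ) ^ (1 / 2 - θ + 2 * δ) := by
      refine le_of_mul_le_mul_right ?_ hA0
      calc T * (c / 602) * A = T * (c / 602 * A) := by ring
        _ ≤ C1 * l ^ n * (D : ℝ) ^ (1 / 2 + δ) := h2
        _ = _ := by rw [h3]; ring
    have h5 : T * (c / 602) ≤ C1 * l ^ n * Z :=
      h4.trans (by have := hDe (1 / 2 - θ + 2 * δ) (by linarith); gcongr)
    have h6 : T ≤ 602 / c * (C1 * l ^ n * Z) := by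
      rw [div_mul_eq_mul_div, le_div_iff₀ hc0]
      linarith
    calc T ≤ 602 / c * (C1 * l ^ n * Z) := h6
      _ ≤ 602 / c * (C1 * l ^ n * Z) * (2 * L) := le_mul_of_one_le_right (by positivity) hL2
      _ = C1 * (1204 / c) * l ^ n * L * Z := by ring
      _ ≤ C1 * (1204 / c + 602 * C2 / c) * l ^ n * L * Z := by
          have : 0 ≤ 602 * C2 / c := by positivity
          gcongr
          linarith
  · have h1 : T ≤ C1 * l ^ n * (D : ℝ) ^ (1 / 2 + δ) := by
      refine le_trans ?_ hmain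
      exact le_mul_of_one_le_right hT0 (by linarith)
    have h2 : (D : ℝ) ^ (1 / 2 + δ) = (D : ℝ) ^ (1 / 2 - θ + 2 * δ) * A := by
      rw [hA, ← Real.rpow_add hDpos]; congr 1; ring
    have h3 : A ≤ 602 * C2 / c * (L * (D : ℝ) ^ δ) := by
      have e : A = 602 / c * (c / 602 * A) := by field_simp
      rw [e]
      calc 602 / c * (c / 602 * A) ≤ 602 / c * (C2 * (L * (D : ℝ) ^ δ)) := by gcongr
        _ = _ := by ring
    have h4 : (D : ℝ) ^ (1 / 2 - θ + 2 * δ) * (D : ℝ) ^ δ ≤ Z := by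
      rw [← Real.rpow_add hDpos]
      exact hDe _ (by linarith)
    calc T ≤ C1 * l ^ n * (D : ℝ) ^ (1 / 2 + δ) := h1
      _ = C1 * l ^ n * ((D : ℝ) ^ (1 / 2 - θ + 2 * δ) * A) := by rw [h2]
      _ ≤ C1 * l ^ n * ((D : ℝ) ^ (1 / 2 - θ + 2 * δ) * (602 * C2 / c * (L * (D : ℝ) ^ δ))) := by
          gcongr
      _ = C1 * (602 * C2 / c) * l ^ n * L * ((D : ℝ) ^ (1 / 2 - θ + 2 * δ) * (D : ℝ) ^ δ) := by
          ring
      _ ≤ C1 * (602 * C2 / c) * l ^ n * L * Z := by gcongr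
      _ ≤ C1 * (1204 / c + 602 * C2 / c) * l ^ n * L * Z := by
          have : 0 ≤ 1204 / c := by positivity
          gcongr
          linarith

end Pool.Agent.TH869.EVF
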