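import Pool.Agent.TH869.EVF.Quad
import Pool.Agent.TH869.EVF.Fin1

set_option autoImplicit false

/-!
# Few arguments at which the symbols of a polynomial are unbalanced; all primes up to `y`
-/

namespace Pool.Agent.TH869.EVF

open Polynomial NumberField Finset Filter Topology

theorem bad_count (f : ℤ[X]) (K : ℝ) (hK : 0 ≤ K) (P : Finset ℕ) (y0 : ℝ) (y : ℕ) (hy0 : 0 < y0)
    (hy : 1 ≤ y) (hP : P.Nonempty)
    (hprime : ∀ p ∈ P, p.Prime ∧ y0 ≤ p ∧ p ≤ y)
    (hsum : ∀ p ∈ P, |∑ n ∈ range p, js f p n| ≤ K * √p) (N : ℕ) :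
    (((range N).filter (fun n => (P.card : ℝ) / 4 ≤ |∑ p ∈ P, js f p n|)).card : ℝ) ≤
      16 * (N * (1 / P.card + K ^ 2 / y0) + (y : ℝ) ^ 2) := by
  have hb := block (ι := Unit) (js f) K y0 y P.card hK hy0 hy (fun _ => P) {()}
    (fun _ _ => hprime) (fun _ _ => le_rfl)
    (fun i _ j _ h => absurd (Subsingleton.elim i j) h) (fun _ _ p _ => js_per f p)
    (js_abs f) (fun _ _ => hsum) N 1 (fun _ => 1) one_pos (fun _ => rfl) (fun _ => by simp)
    (fun _ _ _ _ => Nat.coprime_one_left _)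
  simp only [prod_singleton, card_singleton, pow_one, one_mul, range_one, sum_singleton,
    abs_one, Nat.cast_one, div_one, mul_one] at hb
  set b : ℝ := (P.card : ℝ) with hbdef
  have hb0 : 0 < b := by rw [hbdef]; exact_mod_cast hP.card_pos
  set E := (range N).filter (fun n => b / 4 ≤ |∑ p ∈ P, js f p n|) with hE
  have h1 : (E.card : ℝ) * (b / 4) ^ 2 ≤ ∑ n ∈ range N, (∑ p ∈ P, js f p n) ^ 2 := by
    calc (E.card : ℝ) * (b / 4) ^ 2 = ∑ n ∈ E, (b / 4) ^ 2 := by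
          rw [sum_const, nsmul_eq_mul]
      _ ≤ ∑ n ∈ E, (∑ p ∈ P, js f p n) ^ 2 := by
          refine sum_le_sum fun n hn => ?_
          rw [hE, mem_filter] at hn
          rw [← sq_abs (∑ p ∈ P, js f p n)]
          exact pow_le_pow_left₀ (by positivity) hn.2 2
      _ ≤ _ := sum_le_sum_of_subset_of_nonneg (filter_subset _ _) fun n _ _ => sq_nonneg _
  have h2 := h1.trans ((le_abs_self _).trans hb)
  have h3 : (E.card : ℝ) * b ^ 2 ≤ 16 * (N * (1 / b + K ^ 2 / y0) + (y : ℝ) ^ 2) * b ^ 2 := by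
    calc (E.card : ℝ) * b ^ 2 = 16 * ((E.card : ℝ) * (b / 4) ^ 2) := by ring
      _ ≤ 16 * ((N : ℝ) * (b + b ^ 2 * (K ^ 2 / y0)) + b ^ 2 * (y : ℝ) ^ 2) := by gcongr
      _ = _ := by field_simp
  exact le_of_mul_le_mul_right h3 (by positivity)

/-- the primes between `y ^ (1 - δ)` and `y` -/
noncomputable def PP (δ y : ℝ) : Finset ℕ := (PA 1 1 y).filter (fun p : ℕ => y ^ (1 - δ) ≤ p)

theorem mem_PP {δ y : ℝ} (hy : 0 ≤ y) {p : ℕ} (hp : p ∈ PP δ y) :
    p.Prime ∧ y ^ (1 - δ) ≤ p ∧ (p : ℝ) ≤ y := by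
  rw [PP, mem_filter, PA, mem_filter, mem_Icc] at hp
  exact ⟨hp.1.2.1, hp.2, (Nat.cast_le.mpr hp.1.1.2).trans (Nat.floor_le hy)⟩

theorem PP_lower (δ : ℝ) (hδ : 0 < δ) (hδ1 : δ ≤ 1 / 2) :
    ∃ Y0 : ℝ, 1 ≤ Y0 ∧ ∀ y : ℝ, Y0 ≤ y → y ^ (1 - δ) ≤ (PP δ y).card := by
  obtain ⟨c, C0, hc, hC0, h⟩ := PA_lower 1 1 one_pos (Nat.coprime_one_left 1) (δ / 2)
    (by positivity) (by linarith)
  have h1 : ∀ᶠ y : ℝ in atTop, (C0 + 3) / c ≤ y ^ (δ / 2) :=
    (tendsto_rpow_atTop (by positivity)).eventually_ge_atTop _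
  obtain ⟨Y, hY⟩ := eventually_atTop.mp h1
  refine ⟨max Y 1, le_max_right _ _, ?_⟩
  intro y hy
  have hy1 : 1 ≤ y := (le_max_right _ _).trans hy
  have hy0 : 0 < y := by linarith
  have h2 := hY y ((le_max_left _ _).trans hy)
  have h3 := h y hy0
  set u : ℝ := y ^ (1 - δ) with hu
  have hu1 : 1 ≤ u := Real.one_le_rpow hy1 (by linarith)
  have h4 : y ^ (1 - δ / 2) = u * y ^ (δ / 2) := by
    rw [hu, ← Real.rpow_add hy0]; congr 1; ring
  have h5 : (C0 + 3) * u ≤ c * y ^ (1 - δ / 2) := by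
    rw [h4]
    rw [div_le_iff₀ hc] at h2
    nlinarith
  have h6 : ((PA 1 1 y).card : ℝ) ≤ (PP δ y).card + (u + 1) := by
    have h7 : PA 1 1 y ⊆ PP δ y ∪ range (⌊u⌋₊ + 1) := by
      intro p hp
      rw [mem_union]
      by_cases h8 : u ≤ p
      · left; rw [PP, mem_filter]; exact ⟨hp, h8⟩
      · right
        rw [mem_range]
        push Not at h8
        have := Nat.le_floor h8.le
        omega
    have h8 := (card_le_card h7).trans (card_union_le _ _)
    rw [card_range] at h8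
    have h9 : ((PA 1 1 y).card : ℝ) ≤ (PP δ y).card + (⌊u⌋₊ + 1 : ℕ) := by exact_mod_cast h8
    push_cast at h9
    have := Nat.floor_le (show 0 ≤ u by linarith)
    linarith
  have hd : y ^ (1 - δ / 2) = y ^ (1 - δ / 2) := rfl
  nlinarith

/-- size of the values of a polynomial -/
theorem poly_bound (f : ℤ[X]) : ∃ C : ℝ, 1 ≤ C ∧ ∀ n : ℕ, 1 ≤ n →
    |((f.eval (n : ℤ) : ℤ) : ℝ)| ≤ C * (n : ℝ) ^ f.natDegree := by
  refine ⟨1 + ∑ i ∈ range (f.natDegree + 1), |(f.coeff i : ℝ)|, ?_, ?_⟩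
  · have : 0 ≤ ∑ i ∈ range (f.natDegree + 1), |(f.coeff i : ℝ)| :=
      sum_nonneg fun _ _ => abs_nonneg _
    linarith
  · intro n hn
    have hnr : (1 : ℝ) ≤ n := by exact_mod_cast hn
    rw [eval_eq_sum_range]
    push_cast
    refine (abs_sum_le_sum_abs _ _).trans ?_
    rw [add_mul, sum_mul]
    have h0 : 0 ≤ 1 * (n : ℝ) ^ f.natDegree := by positivity
    refine le_trans ?_ (le_add_of_nonneg_left h0)
    refine sum_le_sum fun i hi => ?_
    rw [mem_range] at hi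
    rw [abs_mul, abs_pow, Nat.abs_cast]
    have : (n : ℝ) ^ i ≤ (n : ℝ) ^ f.natDegree := pow_le_pow_right₀ hnr (by omega)
    gcongr

/-- the size condition, degree two -/
theorem phi_lt_two (l p D : ℕ) (hl : 1 ≤ l) (hD : 3 ≤ D)
    (hp : (p : ℝ) ≤ (D : ℝ) ^ (1 / (2 * l) : ℝ) / 301) :
    (2 * (150 * p) ^ l) ^ (2 * (2 - 1)) < D := by
  have h1 : (2 * (150 * p) ^ l) ^ (2 * (2 - 1)) ≤ (300 * p) ^ (l * 2) := by
    rw [pow_mul (300 * p), show 2 * (2 - 1) = 2 from rfl]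
    apply Nat.pow_le_pow_left
    calc 2 * (150 * p) ^ l ≤ 2 ^ l * (150 * p) ^ l := by
          gcongr
          exact Nat.le_self_pow (by omega) 2
      _ = (300 * p) ^ l := by rw [← mul_pow]; ring
  refine lt_of_le_of_lt h1 ?_
  have hDr : (0 : ℝ) < D := by exact_mod_cast (by omega : 0 < D)
  set θ : ℝ := 1 / (2 * l) with hθ
  have hDθ : 0 < (D : ℝ) ^ θ := Real.rpow_pos_of_pos hDr θ
  have h2 : (300 * p : ℝ) < (D : ℝ) ^ θ := by
    rw [le_div_iff₀ (by norm_num)] at hp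
    by_cases hp0 : (p : ℝ) = 0
    · rw [hp0]; simpa using hDθ
    · have : (0 : ℝ) < p := lt_of_le_of_ne (by positivity) (Ne.symm hp0)
      linarith
  have h3 : (300 * p : ℝ) ^ (l * 2) < ((D : ℝ) ^ θ) ^ (l * 2) :=
    pow_lt_pow_left₀ h2 (by positivity) (by omega)
  have h4 : ((D : ℝ) ^ θ) ^ (l * 2) = D := by
    rw [← Real.rpow_natCast, ← Real.rpow_mul hDr.le]
    have : θ * ((l * 2 : ℕ) : ℝ) = 1 := by
      have hlr : (0 : ℝ) < l := by exact_mod_cast hl
      rw [hθ]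
      push_cast
      field_simp
    rw [this, Real.rpow_one]
  rw [h4] at h3
  exact_mod_cast h3

/-- many symbols are `1` when the sum of the symbols is not very negative -/
theorem many_one (f : ℤ[X]) (n : ℕ) (P : Finset ℕ) (hP : ∀ p ∈ P, p.Prime)
    (hf : f.eval (n : ℤ) ≠ 0) (h : |∑ p ∈ P, js f p n| < (P.card : ℝ) / 4)
    (hsmall : 2 * Real.log |((f.eval (n : ℤ) : ℤ) : ℝ)| ≤ (P.card : ℝ) / 4) :
    (P.card : ℝ) / 4 ≤ (P.filter (fun p => jacobiSym (f.eval (n : ℤ)) p = 1)).card := by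
  classical
  set m := f.eval (n : ℤ) with hm
  set A := P.filter (fun p => jacobiSym m p = 1) with hA
  set Z := P.filter (fun p => jacobiSym m p = 0) with hZ
  have hZc : (Z.card : ℝ) ≤ (P.card : ℝ) / 4 := by
    have h1 : Z ⊆ m.natAbs.primeFactors := by
      intro p hp
      rw [hZ, mem_filter] at hp
      have hpp := hP p hp.1
      have h2 := jacobiSym.eq_zero_iff.mp hp.2
      rw [Nat.mem_primeFactors]
      refine ⟨hpp, ?_, Int.natAbs_ne_zero.mpr hf⟩
      by_contra h3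
      apply h2.2
      rw [Int.gcd_comm, Int.gcd_eq_natAbs]
      simp only [Int.natAbs_natCast]
      exact (Nat.Prime.coprime_iff_not_dvd hpp).mpr h3
    have h4 := card_le_card h1
    have h5 := card_primeFactors_le m.natAbs (Int.natAbs_ne_zero.mpr hf)
    have h6 : ((m.natAbs : ℕ) : ℝ) = |(m : ℝ)| := by rw [Nat.cast_natAbs]; push_cast; rfl
    rw [h6] at h5
    have h7 : (Z.card : ℝ) ≤ m.natAbs.primeFactors.card := by exact_mod_cast h4
    linarith
  have h1 : ∀ p ∈ P, js f p n ≤ 2 * (if jacobiSym m p = 1 then (1 : ℝ) else 0) +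
      (if jacobiSym m p = 0 then (1 : ℝ) else 0) - 1 := by
    intro p _
    unfold js
    rw [← hm]
    rcases jacobiSym.trichotomy m p with h | h | h <;> rw [h] <;> norm_num
  have h2 : ∀ p ∈ P, 2 * (if jacobiSym m p = 1 then (1 : ℝ) else 0) +
      (if jacobiSym m p = 0 then (1 : ℝ) else 0) - 1 ≤ js f p n := by
    intro p _
    unfold js
    rw [← hm]
    rcases jacobiSym.trichotomy m p with h | h | h <;> rw [h] <;> norm_num
  have h3 : ∑ p ∈ P, (2 * (if jacobiSym m p = 1 then (1 : ℝ) else 0) +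
      (if jacobiSym m p = 0 then (1 : ℝ) else 0) - 1) = 2 * A.card + Z.card - P.card := by
    rw [sum_sub_distrib, sum_add_distrib, ← mul_sum, ← sum_filter, ← sum_filter]
    simp [hA, hZ]
  have h4 : ∑ p ∈ P, js f p n ≤ 2 * A.card + Z.card - P.card := by
    rw [← h3]; exact sum_le_sum h1
  have h5 := (abs_lt.mp h).1
  linarith

end Pool.Agent.TH869.EVF
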