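import Mathlib

set_option autoImplicit false

/-!
# Mean values of products of squares of block sums of periodic functions
-/

namespace Pool.Agent.TH869.EVF

open Finset

/-- `G` has period `M` -/
def Per (G : ℕ → ℝ) (M : ℕ) : Prop := ∀ n, G (n + M) = G n

theorem Per.shift {G : ℕ → ℝ} {M : ℕ} (h : Per G M) (q n : ℕ) : G (n + q * M) = G n := by
  induction q with
  | zero => simp
  | succ q ih => rw [add_mul, one_mul, ← add_assoc, h, ih]

theorem Per.mod {G : ℕ → ℝ} {M : ℕ} (h : Per G M) (n : ℕ) : G (n % M) = G n := by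
  conv_rhs => rw [← Nat.mod_add_div n M]
  rw [mul_comm M, h.shift]

theorem Per.of_modEq {G : ℕ → ℝ} {M : ℕ} (h : Per G M) {m n : ℕ} (hmn : m ≡ n [MOD M]) :
    G m = G n := by
  rw [← h.mod m, ← h.mod n, hmn]

theorem Per.of_dvd {G : ℕ → ℝ} {M M' : ℕ} (h : Per G M) (hd : M ∣ M') : Per G M' := by
  intro n
  obtain ⟨k, rfl⟩ := hd
  rw [mul_comm]
  exact h.shift k n

theorem Per.mul {F G : ℕ → ℝ} {M : ℕ} (h : Per F M) (h' : Per G M) : Per (fun n => F n * G n) M := by
  intro n
  simp only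
  rw [h n, h' n]

/-- complete sums are multiplicative -/
theorem sum_mul_per {F G : ℕ → ℝ} {a b : ℕ} (ha : 0 < a) (hb : 0 < b) (hab : Nat.Coprime a b)
    (hF : Per F a) (hG : Per G b) :
    ∑ n ∈ range (a * b), F n * G n = (∑ n ∈ range a, F n) * ∑ n ∈ range b, G n := by
  rw [sum_mul_sum, ← sum_product']
  refine Finset.sum_nbij' (fun n : ℕ => (n % a, n % b))
    (fun w : ℕ × ℕ => (Nat.chineseRemainder hab w.1 w.2 : ℕ)) ?_ ?_ ?_ ?_ ?_
  · intro n _
    rw [mem_product, mem_range, mem_range]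
    exact ⟨Nat.mod_lt _ ha, Nat.mod_lt _ hb⟩
  · intro w _
    rw [mem_range]
    exact Nat.chineseRemainder_lt_mul hab w.1 w.2 ha.ne' hb.ne'
  · intro n hn
    rw [mem_range] at hn
    simp only
    have h1 := (Nat.chineseRemainder hab (n % a) (n % b)).2
    have h2 : (Nat.chineseRemainder hab (n % a) (n % b) : ℕ) ≡ n [MOD a * b] := by
      rw [← Nat.modEq_and_modEq_iff_modEq_mul hab]
      exact ⟨h1.1.trans (Nat.mod_modEq n a), h1.2.trans (Nat.mod_modEq n b)⟩
    exact Nat.ModEq.eq_of_lt_of_lt h2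
      (Nat.chineseRemainder_lt_mul hab _ _ ha.ne' hb.ne') hn
  · intro w hw
    rw [mem_product, mem_range, mem_range] at hw
    have h1 := (Nat.chineseRemainder hab w.1 w.2).2
    ext
    · simp only
      rw [h1.1, Nat.mod_eq_of_lt hw.1]
    · simp only
      rw [h1.2, Nat.mod_eq_of_lt hw.2]
  · intro n _
    simp only
    rw [hF.mod, hG.mod]

theorem sum_range_mul {F : ℕ → ℝ} {M : ℕ} (h : Per F M) (q : ℕ) :
    ∑ n ∈ range (q * M), F n = q * ∑ n ∈ range M, F n := by
  induction q with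
  | zero => simp
  | succ q ih =>
    rw [add_mul, one_mul, sum_range_add, ih]
    have : ∑ x ∈ range M, F (q * M + x) = ∑ n ∈ range M, F n := by
      refine sum_congr rfl fun x _ => ?_
      rw [add_comm, h.shift]
    rw [this]
    push_cast
    ring

/-- incomplete sums -/
theorem sum_range_per {F : ℕ → ℝ} {M : ℕ} (hM : 0 < M) (h : Per F M) (h1 : ∀ n, |F n| ≤ 1)
    (N : ℕ) : |∑ n ∈ range N, F n| ≤ N * (|∑ n ∈ range M, F n| / M) + M := by
  have hMr : (0 : ℝ) < M := by exact_mod_cast hM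
  have e : N = N / M * M + N % M := by rw [mul_comm]; exact (Nat.div_add_mod N M).symm
  have h2 : ∑ n ∈ range N, F n = ((N / M : ℕ) : ℝ) * ∑ n ∈ range M, F n +
      ∑ x ∈ range (N % M), F (N / M * M + x) := by
    conv_lhs => rw [e]
    rw [sum_range_add, sum_range_mul h]
  rw [h2]
  refine (abs_add_le _ _).trans ?_
  rw [abs_mul, Nat.abs_cast]
  have h3 : ((N / M : ℕ) : ℝ) * |∑ n ∈ range M, F n| ≤ N * (|∑ n ∈ range M, F n| / M) := by
    have h4 : ((N / M : ℕ) : ℝ) ≤ N / M := Nat.cast_div_le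
    calc ((N / M : ℕ) : ℝ) * |∑ n ∈ range M, F n| ≤ (N / M : ℝ) * |∑ n ∈ range M, F n| := by
          gcongr
      _ = _ := by ring
  have h5 : |∑ x ∈ range (N % M), F (N / M * M + x)| ≤ M := by
    refine (abs_sum_le_sum_abs _ _).trans ?_
    calc ∑ x ∈ range (N % M), |F (N / M * M + x)| ≤ ∑ x ∈ range (N % M), (1 : ℝ) :=
          sum_le_sum fun x _ => h1 _
      _ = ((N % M : ℕ) : ℝ) := by simp
      _ ≤ M := by exact_mod_cast (Nat.mod_lt N hM).le
  linarith

/-- **mean value of products of squares of block sums** -/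
theorem block {ι : Type*} [DecidableEq ι] (ψ : ℕ → ℕ → ℝ) (K y0 : ℝ) (y b : ℕ) (hK : 0 ≤ K)
    (hy0 : 0 < y0) (hy : 1 ≤ y) (P : ι → Finset ℕ) (I : Finset ι)
    (hprime : ∀ i ∈ I, ∀ p ∈ P i, p.Prime ∧ y0 ≤ p ∧ p ≤ y)
    (hcard : ∀ i ∈ I, (P i).card ≤ b)
    (hdis : ∀ i ∈ I, ∀ j ∈ I, i ≠ j → Disjoint (P i) (P j))
    (hper : ∀ i ∈ I, ∀ p ∈ P i, Per (ψ p) p) (hle : ∀ p n, |ψ p n| ≤ 1)
    (hsum : ∀ i ∈ I, ∀ p ∈ P i, |∑ n ∈ range p, ψ p n| ≤ K * √p) (N : ℕ) :
    ∀ (M : ℕ) (G : ℕ → ℝ), 0 < M → Per G M → (∀ n, |G n| ≤ 1) →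
      (∀ i ∈ I, ∀ p ∈ P i, Nat.Coprime M p) →
      |∑ n ∈ range N, G n * ∏ i ∈ I, (∑ p ∈ P i, ψ p n) ^ 2| ≤
        N * (|∑ n ∈ range M, G n| / M) * (b + b ^ 2 * (K ^ 2 / y0)) ^ I.card +
          M * ((b : ℝ) ^ 2 * y ^ 2) ^ I.card := by
  induction I using Finset.induction_on with
  | empty =>
    intro M G hM hG hG1 _
    simp only [prod_empty, mul_one, card_empty, pow_zero]
    exact sum_range_per hM hG hG1 N
  | insert i0 I hi0 ih =>
    intro M G hM hG hG1 hcop
    have ih' := ih (fun i hi => hprime i (mem_insert_of_mem hi))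
      (fun i hi => hcard i (mem_insert_of_mem hi))
      (fun i hi j hj => hdis i (mem_insert_of_mem hi) j (mem_insert_of_mem hj))
      (fun i hi => hper i (mem_insert_of_mem hi))
      (fun i hi => hsum i (mem_insert_of_mem hi))
    have hi0m : i0 ∈ insert i0 I := mem_insert_self _ _
    have hMr : (0 : ℝ) < M := by exact_mod_cast hM
    set κ : ℝ := K ^ 2 / y0 with hκ
    have hκ0 : 0 ≤ κ := by positivity
    set W : ℝ := b + b ^ 2 * κ with hW
    have hW0 : 0 ≤ W := by positivity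
    set α : ℝ := |∑ n ∈ range M, G n| / M with hα
    have hα0 : 0 ≤ α := by positivity
    set B : ℝ := (b : ℝ) ^ 2 * y ^ 2 with hB
    have hB0 : 0 ≤ B := by positivity
    rw [card_insert_of_notMem hi0]
    have hexp : ∑ n ∈ range N, G n * ∏ i ∈ insert i0 I, (∑ p ∈ P i, ψ p n) ^ 2 =
        ∑ p ∈ P i0, ∑ q ∈ P i0, ∑ n ∈ range N, (G n * (ψ p n * ψ q n)) *
          ∏ i ∈ I, (∑ p ∈ P i, ψ p n) ^ 2 := by
      have h1 : ∀ n, G n * ∏ i ∈ insert i0 I, (∑ p ∈ P i, ψ p n) ^ 2 =
          ∑ p ∈ P i0, ∑ q ∈ P i0, (G n * (ψ p n * ψ q n)) * ∏ i ∈ I, (∑ p ∈ P i, ψ p n) ^ 2 := by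
        intro n
        rw [prod_insert hi0, sq (∑ p ∈ P i0, ψ p n), sum_mul_sum, sum_mul, mul_sum]
        refine sum_congr rfl fun p _ => ?_
        rw [sum_mul, mul_sum]
        refine sum_congr rfl fun q _ => ?_
        ring
      calc _ = ∑ n ∈ range N, ∑ p ∈ P i0, ∑ q ∈ P i0, (G n * (ψ p n * ψ q n)) *
            ∏ i ∈ I, (∑ p ∈ P i, ψ p n) ^ 2 := sum_congr rfl fun n _ => h1 n
        _ = _ := by
          rw [sum_comm]
          refine sum_congr rfl fun p _ => ?_
          rw [sum_comm]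
    have hterm : ∀ p ∈ P i0, ∀ q ∈ P i0,
        |∑ n ∈ range N, (G n * (ψ p n * ψ q n)) * ∏ i ∈ I, (∑ p ∈ P i, ψ p n) ^ 2| ≤
          N * α * W ^ I.card * ((if p = q then 1 else 0) + κ) + M * (y : ℝ) ^ 2 * B ^ I.card := by
      intro p hp q hq
      obtain ⟨hpp, hpy0, hpy⟩ := hprime i0 hi0m p hp
      obtain ⟨hqp, hqy0, hqy⟩ := hprime i0 hi0m q hq
      have hpr : (0 : ℝ) < p := by exact_mod_cast hpp.pos
      have hqr : (0 : ℝ) < q := by exact_mod_cast hqp.pos
      have hyr : (1 : ℝ) ≤ y := by exact_mod_cast hy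
      have hpyr : (p : ℝ) ≤ y := by exact_mod_cast hpy
      have hqyr : (q : ℝ) ≤ y := by exact_mod_cast hqy
      have hcopp := hcop i0 hi0m p hp
      have hcopq := hcop i0 hi0m q hq
      have hGp1 : ∀ n, |G n * (ψ p n * ψ q n)| ≤ 1 := by
        intro n
        rw [abs_mul, abs_mul]
        have := hG1 n; have := hle p n; have := hle q n
        have h0 : |ψ p n| * |ψ q n| ≤ 1 := mul_le_one₀ (hle p n) (abs_nonneg _) (hle q n)
        exact mul_le_one₀ (hG1 n) (by positivity) h0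
      have hcopI : ∀ i ∈ I, ∀ r ∈ P i, Nat.Coprime p r ∧ Nat.Coprime q r := by
        intro i hi r hr
        have hne : i0 ≠ i := fun h => hi0 (h ▸ hi)
        have hd := hdis i0 hi0m i (mem_insert_of_mem hi) hne
        have hrp := (hprime i (mem_insert_of_mem hi) r hr).1
        rw [disjoint_left] at hd
        refine ⟨(Nat.coprime_primes hpp hrp).mpr ?_, (Nat.coprime_primes hqp hrp).mpr ?_⟩
        · rintro rfl; exact hd hp hr
        · rintro rfl; exact hd hq hr
      have hNW : 0 ≤ N * α * W ^ I.card := by positivity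
      by_cases hpq : p = q
      · -- equal primes
        subst hpq
        rw [if_pos rfl]
        have hM' : 0 < M * p := Nat.mul_pos hM hpp.pos
        have hperp := hper i0 hi0m p hp
        have hPer : Per (fun n => G n * (ψ p n * ψ p n)) (M * p) :=
          (hG.of_dvd (dvd_mul_right M p)).mul
            (((hperp.mul hperp)).of_dvd (dvd_mul_left p M))
        have h1 := ih' (M * p) (fun n => G n * (ψ p n * ψ p n)) hM' hPer hGp1 (by
          intro i hi r hr
          exact Nat.Coprime.mul_left (hcop i (mem_insert_of_mem hi) r hr) (hcopI i hi r hr).1)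
        have h2 : ∑ n ∈ range (M * p), G n * (ψ p n * ψ p n) =
            (∑ n ∈ range M, G n) * ∑ n ∈ range p, ψ p n * ψ p n :=
          sum_mul_per hM hpp.pos hcopp hG (hperp.mul hperp)
        have h3 : |∑ n ∈ range p, ψ p n * ψ p n| ≤ p := by
          refine (abs_sum_le_sum_abs _ _).trans ?_
          calc ∑ n ∈ range p, |ψ p n * ψ p n| ≤ ∑ n ∈ range p, (1 : ℝ) := by
                refine sum_le_sum fun n _ => ?_
                rw [abs_mul]
                exact mul_le_one₀ (hle p n) (abs_nonneg _) (hle p n)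
            _ = p := by simp
        have h4 : |∑ n ∈ range (M * p), G n * (ψ p n * ψ p n)| / ((M * p : ℕ) : ℝ) ≤ α := by
          rw [h2, abs_mul]
          push_cast
          rw [hα, div_le_div_iff₀ (by positivity) hMr]
          calc |∑ n ∈ range M, G n| * |∑ n ∈ range p, ψ p n * ψ p n| * M
              ≤ |∑ n ∈ range M, G n| * p * M := by gcongr
            _ = _ := by ring
        refine h1.trans ?_
        have h5 : (N : ℝ) * (|∑ n ∈ range (M * p), G n * (ψ p n * ψ p n)| / ((M * p : ℕ) : ℝ)) *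
            W ^ I.card ≤ N * α * W ^ I.card * (1 + κ) := by
          calc _ ≤ N * α * W ^ I.card := by gcongr
            _ ≤ _ := le_mul_of_one_le_right hNW (by linarith)
        have h6 : ((M * p : ℕ) : ℝ) * B ^ I.card ≤ M * (y : ℝ) ^ 2 * B ^ I.card := by
          push_cast
          have : (p : ℝ) ≤ (y : ℝ) ^ 2 := by nlinarith
          gcongr
        exact add_le_add h5 h6
      · -- different primes
        rw [if_neg hpq, zero_add]
        have hpqc : Nat.Coprime p q := (Nat.coprime_primes hpp hqp).mpr hpq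
        have hpq0 : 0 < p * q := Nat.mul_pos hpp.pos hqp.pos
        have hM' : 0 < M * (p * q) := Nat.mul_pos hM hpq0
        have hperp := hper i0 hi0m p hp
        have hperq := hper i0 hi0m q hq
        have hPpq : Per (fun n => ψ p n * ψ q n) (p * q) :=
          (hperp.of_dvd (dvd_mul_right p q)).mul (hperq.of_dvd (dvd_mul_left q p))
        have hPer : Per (fun n => G n * (ψ p n * ψ q n)) (M * (p * q)) :=
          (hG.of_dvd (dvd_mul_right M _)).mul (hPpq.of_dvd (dvd_mul_left _ M))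
        have h1 := ih' (M * (p * q)) (fun n => G n * (ψ p n * ψ q n)) hM' hPer hGp1 (by
          intro i hi r hr
          exact Nat.Coprime.mul_left (hcop i (mem_insert_of_mem hi) r hr)
            (Nat.Coprime.mul_left (hcopI i hi r hr).1 (hcopI i hi r hr).2))
        have h2 : ∑ n ∈ range (M * (p * q)), G n * (ψ p n * ψ q n) =
            (∑ n ∈ range M, G n) * ((∑ n ∈ range p, ψ p n) * ∑ n ∈ range q, ψ q n) := by
          rw [sum_mul_per hM hpq0 (Nat.Coprime.mul_right hcopp hcopq) hG hPpq,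
            sum_mul_per hpp.pos hqp.pos hpqc hperp hperq]
        have h3 := hsum i0 hi0m p hp
        have h4 := hsum i0 hi0m q hq
        have h5 : |∑ n ∈ range (M * (p * q)), G n * (ψ p n * ψ q n)| / ((M * (p * q) : ℕ) : ℝ) ≤
            α * κ := by
          rw [h2, abs_mul, abs_mul]
          push_cast
          have hsp : 0 < √(p : ℝ) := Real.sqrt_pos.mpr hpr
          have hsq : 0 < √(q : ℝ) := Real.sqrt_pos.mpr hqr
          have hp2 : √(p : ℝ) * √(p : ℝ) = p := Real.mul_self_sqrt hpr.le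
          have hq2 : √(q : ℝ) * √(q : ℝ) = q := Real.mul_self_sqrt hqr.le
          have hy0p : y0 ≤ √(p : ℝ) * √(q : ℝ) := by
            have e1 : √y0 ≤ √(p : ℝ) := Real.sqrt_le_sqrt hpy0
            have e2 : √y0 ≤ √(q : ℝ) := Real.sqrt_le_sqrt hqy0
            calc y0 = √y0 * √y0 := (Real.mul_self_sqrt hy0.le).symm
              _ ≤ _ := by gcongr
          rw [hα, hκ, div_mul_div_comm, div_le_div_iff₀ (by positivity) (by positivity)]
          have h6 : |∑ n ∈ range p, ψ p n| * |∑ n ∈ range q, ψ q n| * y0 ≤ K ^ 2 * (p * q) := by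
            calc |∑ n ∈ range p, ψ p n| * |∑ n ∈ range q, ψ q n| * y0
                ≤ (K * √p) * (K * √q) * (√(p : ℝ) * √(q : ℝ)) := by gcongr
              _ = K ^ 2 * ((√(p : ℝ) * √(p : ℝ)) * (√(q : ℝ) * √(q : ℝ))) := by ring
              _ = _ := by rw [hp2, hq2]
          calc |∑ n ∈ range M, G n| * (|∑ n ∈ range p, ψ p n| * |∑ n ∈ range q, ψ q n|) * (M * y0)
              = |∑ n ∈ range M, G n| * M *
                (|∑ n ∈ range p, ψ p n| * |∑ n ∈ range q, ψ q n| * y0) := by ring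
            _ ≤ |∑ n ∈ range M, G n| * M * (K ^ 2 * (p * q)) := by gcongr
            _ = _ := by ring
        refine h1.trans ?_
        have h7 : (N : ℝ) * (|∑ n ∈ range (M * (p * q)), G n * (ψ p n * ψ q n)| /
            ((M * (p * q) : ℕ) : ℝ)) * W ^ I.card ≤ N * α * W ^ I.card * κ := by
          calc _ ≤ N * (α * κ) * W ^ I.card := by gcongr
            _ = _ := by ring
        have h8 : ((M * (p * q) : ℕ) : ℝ) * B ^ I.card ≤ M * (y : ℝ) ^ 2 * B ^ I.card := by
          push_cast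
          have : (p : ℝ) * q ≤ (y : ℝ) ^ 2 := by nlinarith
          gcongr
        exact add_le_add h7 h8
    rw [hexp]
    have hcb : ((P i0).card : ℝ) ≤ b := by exact_mod_cast hcard i0 hi0m
    set c : ℝ := ((P i0).card : ℝ) with hc
    have hc0 : 0 ≤ c := by positivity
    calc |∑ p ∈ P i0, ∑ q ∈ P i0, ∑ n ∈ range N, (G n * (ψ p n * ψ q n)) *
          ∏ i ∈ I, (∑ p ∈ P i, ψ p n) ^ 2|
        ≤ ∑ p ∈ P i0, ∑ q ∈ P i0, |∑ n ∈ range N, (G n * (ψ p n * ψ q n)) *
          ∏ i ∈ I, (∑ p ∈ P i, ψ p n) ^ 2| := by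
          refine (abs_sum_le_sum_abs _ _).trans (sum_le_sum fun p _ => ?_)
          exact abs_sum_le_sum_abs _ _
      _ ≤ ∑ p ∈ P i0, ∑ q ∈ P i0, (N * α * W ^ I.card * ((if p = q then 1 else 0) + κ) +
            M * (y : ℝ) ^ 2 * B ^ I.card) :=
          sum_le_sum fun p hp => sum_le_sum fun q hq => hterm p hp q hq
      _ = N * α * W ^ I.card * (c + c ^ 2 * κ) + M * B ^ I.card * (c ^ 2 * (y : ℝ) ^ 2) := by
          simp only [sum_add_distrib, ← mul_sum, sum_const, nsmul_eq_mul, Finset.sum_ite_eq]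
          have : ∑ x ∈ P i0, (if x ∈ P i0 then (1 : ℝ) else 0) = c := by
            rw [Finset.sum_ite_mem, inter_self]; simp [hc]
          rw [this]
          ring
      _ ≤ N * α * W ^ I.card * W + M * B ^ I.card * B := by
          have e1 : c + c ^ 2 * κ ≤ W := by rw [hW]; gcongr
          have e2 : c ^ 2 * (y : ℝ) ^ 2 ≤ B := by rw [hB]; gcongr
          gcongr
      _ = _ := by ring

end Pool.Agent.TH869.EVF
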