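import Pool.Agent.TH869.EVF.Quad

set_option autoImplicit false

/-!
# The discriminant of `ℚ(√m)` and `m` differ by a rational square
-/

namespace Pool.Agent.TH869.EVF

open Polynomial NumberField Finset IntermediateField

theorem quad_gen {K : Type} [Field K] [NumberField K] (hK : Module.finrank ℚ K = 2) (x : K)
    (m : ℤ) (hm : x ^ 2 = m) (hsq : ¬ IsSquare m) : ℚ⟮x⟯ = ⊤ := by
  have hs := IntermediateField.isSimpleOrder_of_finrank_prime ℚ K (by rw [hK]; exact Nat.prime_two)
  rcases hs.eq_bot_or_eq_top ℚ⟮x⟯ with h | h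
  · exfalso
    rw [IntermediateField.adjoin_simple_eq_bot_iff, IntermediateField.mem_bot] at h
    obtain ⟨q, hq⟩ := h
    have h1 : (q : ℚ) ^ 2 = m := by
      have h2 : algebraMap ℚ K (q ^ 2) = algebraMap ℚ K (m : ℚ) := by
        rw [map_pow, hq, hm, map_intCast]
      exact (algebraMap ℚ K).injective h2
    apply hsq
    rw [← Rat.isSquare_intCast_iff]
    exact ⟨q, by rw [← h1]; ring⟩
  · exact h

theorem disc_index {K : Type} [Field K] [NumberField K] (z : 𝓞 K) (pb : PowerBasis ℚ K)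
    (hgen : pb.gen = z) : ∃ k : ℤ, Algebra.discr ℚ pb.basis = (k : ℚ) ^ 2 * (discr K : ℚ) := by
  have hc : Fintype.card (Module.Free.ChooseBasisIndex ℤ (𝓞 K)) = pb.dim := by
    rw [← Module.finrank_eq_card_basis (RingOfIntegers.basis K), RingOfIntegers.rank, pb.finrank]
  let e : Module.Free.ChooseBasisIndex ℤ (𝓞 K) ≃ Fin pb.dim := Fintype.equivFinOfCardEq hc
  let b : Module.Basis (Fin pb.dim) ℚ K := (integralBasis K).reindex e
  let M : Matrix (Fin pb.dim) (Fin pb.dim) ℤ := fun i j =>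
    (RingOfIntegers.basis K).repr (z ^ (j : ℕ)) (e.symm i)
  have hM : b.toMatrix pb.basis = M.map (Int.castRingHom ℚ) := by
    ext i j
    rw [Module.Basis.toMatrix_apply, pb.coe_basis, hgen, Matrix.map_apply]
    change ((integralBasis K).reindex e).repr ((z : K) ^ (j : ℕ)) i = _
    rw [Module.Basis.repr_reindex_apply]
    have h1 := integralBasis_repr_apply K (z ^ (j : ℕ)) (e.symm i)
    rw [map_pow] at h1
    exact h1
  refine ⟨M.det, ?_⟩
  have h2 := Algebra.discr_of_matrix_vecMul (A := ℚ) (b : Fin pb.dim → K)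
    (b.toMatrix pb.basis)
  rw [Module.Basis.toMatrix_map_vecMul] at h2
  rw [h2, hM]
  have h3 : (M.map (Int.castRingHom ℚ)).det = (M.det : ℚ) := by
    have := (RingHom.map_det (Int.castRingHom ℚ) M)
    rw [RingHom.mapMatrix_apply] at this
    rw [← this]
    rfl
  have h4 : Algebra.discr ℚ (b : Fin pb.dim → K) = (discr K : ℚ) := by
    rw [coe_discr]
    have := Algebra.discr_reindex ℚ (integralBasis K) e
    rw [← this]
    congr 1
    exact Module.Basis.coe_reindex _ _
  rw [h3, h4]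

/-- `m` times the discriminant of `ℚ(√m)` is a square -/
theorem quad_disc_sq {K : Type} [Field K] [NumberField K] (hK : Module.finrank ℚ K = 2) (x : K)
    (hx : ℚ⟮x⟯ = ⊤) (m : ℤ) (hm : x ^ 2 = m) : ∃ y : ℤ, m * discr K = y * y := by
  have hint : IsIntegral ℤ x := by
    refine ⟨X ^ 2 - C m, monic_X_pow_sub_C m two_ne_zero, ?_⟩
    rw [eval₂_sub, eval₂_C, eval₂_X_pow, hm]
    simp
  have hintQ : IsIntegral ℚ x := Algebra.IsIntegral.isIntegral _
  have htop : Algebra.adjoin ℚ {x} = ⊤ := by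
    rw [← IntermediateField.adjoin_simple_toSubalgebra_of_isAlgebraic hintQ.isAlgebraic, hx]
    rfl
  let pb : PowerBasis ℚ K := PowerBasis.ofAdjoinEqTop' hintQ htop
  have hgen : pb.gen = x := PowerBasis.ofAdjoinEqTop'_gen hintQ htop
  have hdim : pb.dim = 2 := by rw [← pb.finrank, hK]
  have hmin : minpoly ℚ x = X ^ 2 - C (m : ℚ) := by
    symm
    refine eq_of_monic_of_dvd_of_natDegree_le (minpoly.monic hintQ)
      (monic_X_pow_sub_C (m : ℚ) two_ne_zero) (minpoly.dvd ℚ x ?_) ?_
    · rw [map_sub, aeval_C, map_pow, aeval_X, hm, map_intCast, sub_self]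
    · rw [natDegree_X_pow_sub_C, ← hgen, pb.natDegree_minpoly, hdim]
  obtain ⟨k, hk⟩ := disc_index (⟨x, hint⟩ : 𝓞 K) pb hgen
  have hdisc : Algebra.discr ℚ pb.basis = 4 * (m : ℚ) := by
    rw [Algebra.discr_powerBasis_eq_norm, hK, hgen, hmin]
    have h1 : derivative (X ^ 2 - C (m : ℚ)) = C 2 * X := by
      rw [derivative_sub, derivative_C, sub_zero, derivative_X_pow]
      simp
    rw [h1, map_mul, aeval_C, aeval_X, map_mul]
    have h2 : Algebra.norm ℚ x = -(m : ℚ) := by
      have h3 := Algebra.PowerBasis.norm_gen_eq_coeff_zero_minpoly pb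
      rw [hgen, hmin, hdim] at h3
      rw [h3]
      simp [coeff_sub, coeff_X_pow]
    rw [h2, Algebra.norm_algebraMap, hK]
    norm_num
  rw [hdisc] at hk
  have hk' : 4 * m = k ^ 2 * discr K := by exact_mod_cast hk
  have h5 : (2 : ℤ) ∣ k * discr K := by
    have h6 : (2 : ℤ) ∣ (k * discr K) ^ 2 := by
      refine ⟨2 * m * discr K, ?_⟩
      calc (k * discr K) ^ 2 = (k ^ 2 * discr K) * discr K := by ring
        _ = (4 * m) * discr K := by rw [hk']
        _ = _ := by ring
    exact Int.prime_two.dvd_of_dvd_pow h6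
  obtain ⟨y, hy⟩ := h5
  refine ⟨y, ?_⟩
  have h7 : 4 * (m * discr K) = 4 * (y * y) := by
    calc 4 * (m * discr K) = (4 * m) * discr K := by ring
      _ = (k * discr K) ^ 2 := by rw [hk']; ring
      _ = 4 * (y * y) := by rw [hy]; ring
  linarith

end Pool.Agent.TH869.EVF
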