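import Pool.Agent.TH869.EVF.Fin2a
import Pool.Agent.TH869.EVF.Qd

set_option autoImplicit false

/-!
# Small discriminants are rare in a polynomial family
-/

namespace Pool.Agent.TH869.EVF

open Polynomial NumberField Finset Filter Topology

theorem many_sq (f : ℤ[X]) (n : ℕ) (P : Finset ℕ) (hP : ∀ p ∈ P, p.Prime) (d y : ℤ)
    (hy : f.eval (n : ℤ) * d = y * y) (hy0 : y ≠ 0) :
    (P.card : ℝ) - 2 * Real.log |(y : ℝ)| ≤ ∑ p ∈ P, js (C d * f) p n := by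
  classical
  have h1 : ∀ p ∈ P, js (C d * f) p n = 1 - (if p ∣ y.natAbs then (1 : ℝ) else 0) := by
    intro p hp
    have hpp := hP p hp
    unfold js
    rw [eval_mul, eval_C, mul_comm, hy, jacobiSym.mul_left]
    by_cases h : p ∣ y.natAbs
    · have h2 : jacobiSym y p = 0 := by
        have : NeZero p := ⟨hpp.ne_zero⟩
        rw [jacobiSym.eq_zero_iff_not_coprime]
        intro h3
        have h4 : (p : ℤ) ∣ y := Int.natCast_dvd.mpr h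
        have h5 : (p : ℕ) ∣ Int.gcd y p := Int.dvd_gcd h4 (dvd_refl _) |> fun h => by exact_mod_cast h
        rw [h3] at h5
        exact hpp.one_lt.ne' (Nat.dvd_one.mp h5)
      rw [h2, if_pos h]; simp
    · have hc : Int.gcd y p = 1 := by
        rw [Int.gcd_eq_natAbs, Int.natAbs_natCast]
        exact ((Nat.Prime.coprime_iff_not_dvd hpp).mpr h).symm
      have h2 := jacobiSym.sq_one hc
      rw [← sq, h2, if_neg h]; simp
  rw [sum_congr rfl h1, sum_sub_distrib, sum_const, nsmul_eq_mul, mul_one, ← sum_filter,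
    sum_const, nsmul_eq_mul, mul_one]
  have h2 : P.filter (fun p => p ∣ y.natAbs) ⊆ y.natAbs.primeFactors := by
    intro p hp
    rw [mem_filter] at hp
    exact Nat.mem_primeFactors.mpr ⟨hP p hp.1, hp.2, Int.natAbs_ne_zero.mpr hy0⟩
  have h3 := card_le_card h2
  have h5 := card_primeFactors_le y.natAbs (Int.natAbs_ne_zero.mpr hy0)
  have h6 : ((y.natAbs : ℕ) : ℝ) = |(y : ℝ)| := by rw [Nat.cast_natAbs]; push_cast; rfl
  rw [h6] at h5
  have h7 : ((P.filter (fun p => p ∣ y.natAbs)).card : ℝ) ≤ y.natAbs.primeFactors.card := by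
    exact_mod_cast h3
  linarith

/-- the Weil bound for the multiples of a polynomial -/
theorem weil_mul (f : ℤ[X]) (d : ℤ) (p : ℕ) (B : ℝ)
    (h : |∑ x ∈ range p, (jacobiSym (f.eval (x : ℤ)) p : ℝ)| ≤ B) :
    |∑ n ∈ range p, js (C d * f) p n| ≤ B := by
  have h1 : ∑ n ∈ range p, js (C d * f) p n =
      (jacobiSym d p : ℝ) * ∑ x ∈ range p, (jacobiSym (f.eval (x : ℤ)) p : ℝ) := by
    rw [mul_sum]
    refine sum_congr rfl fun n _ => ?_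
    unfold js
    rw [eval_mul, eval_C, jacobiSym.mul_left]
    push_cast
    rfl
  rw [h1, abs_mul]
  have h2 : |(jacobiSym d p : ℝ)| ≤ 1 := by
    rcases jacobiSym.trichotomy d p with h | h | h <;> rw [h] <;> simp
  calc |(jacobiSym d p : ℝ)| * |∑ x ∈ range p, (jacobiSym (f.eval (x : ℤ)) p : ℝ)|
      ≤ 1 * |∑ x ∈ range p, (jacobiSym (f.eval (x : ℤ)) p : ℝ)| :=
        mul_le_mul_of_nonneg_right h2 (abs_nonneg _)
    _ ≤ B := by rw [one_mul]; exact h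

/-- the indices with an unbalanced symbol sum, for a multiple of `f` -/
noncomputable def Ed (f : ℤ[X]) (P : Finset ℕ) (N : ℕ) (d : ℤ) : Finset ℕ :=
  (range (N + 1)).filter (fun n => ((P).card : ℝ) / 4 ≤ |∑ p ∈ P, js (C d * f) p n|)

theorem card_Ed (f : ℤ[X]) (K0 : ℝ) (p0 : ℕ) (hK0 : 0 ≤ K0)
    (hW : ∀ p : ℕ, p.Prime → p0 < p →
      |∑ x ∈ range p, (jacobiSym (f.eval (x : ℤ)) p : ℝ)| ≤ K0 * √p)
    (N : ℕ) (hNr1 : (1 : ℝ) ≤ N) (hu1 : ((p0 : ℝ) + 3) ≤ (N : ℝ) ^ (3 / 16 : ℝ))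
    (hPcard : (N : ℝ) ^ (3 / 16 : ℝ) ≤ (PP (1 / 4) ((N : ℝ) ^ (1 / 4 : ℝ))).card) (d : ℤ) :
    ((Ed f (PP (1 / 4) ((N : ℝ) ^ (1 / 4 : ℝ))) N d).card : ℝ) ≤
        16 * (2 * (1 + K0 ^ 2) + 1) * (N : ℝ) ^ (13 / 16 : ℝ) := by
  have hNpos : (0 : ℝ) < N := by linarith
  set y : ℝ := (N : ℝ) ^ (1 / 4 : ℝ) with hy
  have hypos : 0 < y := Real.rpow_pos_of_pos hNpos _
  have hyu : y ^ (1 - 1 / 4 : ℝ) = (N : ℝ) ^ (3 / 16 : ℝ) := by
    rw [hy, ← Real.rpow_mul hNpos.le]; norm_num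
  set u : ℝ := (N : ℝ) ^ (3 / 16 : ℝ) with hu
  have hu0 : 0 < u := Real.rpow_pos_of_pos hNpos _
  have hp0 : (0 : ℝ) ≤ p0 := Nat.cast_nonneg _
  have hb0 : (0 : ℝ) < (PP (1 / 4) y).card := lt_of_lt_of_le hu0 hPcard
  have hne : (PP (1 / 4) y).Nonempty := by
    rw [← Finset.card_pos]; exact_mod_cast hb0
  have hy1 : 1 ≤ ⌊y⌋₊ := by
    apply Nat.le_floor
    have : u ≤ y := Real.rpow_le_rpow_of_exponent_le hNr1 (by norm_num)
    push_cast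
    linarith
  have h1 := bad_count (C d * f) K0 hK0 (PP (1 / 4) y) u ⌊y⌋₊ hu0 hy1 hne (by
    intro p hp
    obtain ⟨a1, a2, a3⟩ := mem_PP hypos.le hp
    rw [hyu] at a2
    exact ⟨a1, a2, Nat.le_floor a3⟩) (by
    intro p hp
    obtain ⟨a1, a2, a3⟩ := mem_PP hypos.le hp
    rw [hyu] at a2
    apply weil_mul
    apply hW p a1
    have : (p0 : ℝ) < p := by linarith
    exact_mod_cast this) (N + 1)
  refine h1.trans ?_
  have hNη : (N : ℝ) ^ (13 / 16 : ℝ) = N / u := by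
    rw [hu, show (13 / 16 : ℝ) = 1 - 3 / 16 by norm_num, Real.rpow_sub hNpos, Real.rpow_one]
  have h2 : ((N + 1 : ℕ) : ℝ) * (1 / (PP (1 / 4) y).card + K0 ^ 2 / u) ≤
      2 * (1 + K0 ^ 2) * (N : ℝ) ^ (13 / 16 : ℝ) := by
    have e1 : 1 / ((PP (1 / 4) y).card : ℝ) ≤ 1 / u := one_div_le_one_div_of_le hu0 hPcard
    have e3 : ((N + 1 : ℕ) : ℝ) ≤ 2 * N := by push_cast; linarith
    calc ((N + 1 : ℕ) : ℝ) * (1 / (PP (1 / 4) y).card + K0 ^ 2 / u)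
        ≤ (2 * N) * (1 / u + K0 ^ 2 / u) :=
          mul_le_mul e3 (add_le_add e1 le_rfl) (by positivity) (by positivity)
      _ = 2 * (1 + K0 ^ 2) * (N / u) := by ring
      _ = _ := by rw [hNη]
  have h3 : ((⌊y⌋₊ : ℕ) : ℝ) ^ 2 ≤ (N : ℝ) ^ (13 / 16 : ℝ) := by
    calc ((⌊y⌋₊ : ℕ) : ℝ) ^ 2 ≤ y ^ 2 :=
          pow_le_pow_left₀ (by positivity) (Nat.floor_le hypos.le) 2
      _ = (N : ℝ) ^ (1 / 2 : ℝ) := by
          rw [hy, ← Real.rpow_natCast, ← Real.rpow_mul hNpos.le]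
          norm_num
      _ ≤ (N : ℝ) ^ (13 / 16 : ℝ) := Real.rpow_le_rpow_of_exponent_le hNr1 (by norm_num)
  linarith

theorem small_disc (f : ℤ[X])
    (hf : ∀ (c : ℚ) (g : ℚ[X]), f.map (Int.castRingHom ℚ) ≠ C c * g ^ 2) :
    ∃ C : ℝ, 0 < C ∧ ∀ N : ℕ, 1 ≤ N → ∃ E : Finset ℕ, (E.card : ℝ) ≤ C * (N : ℝ) ^ (7 / 8 : ℝ) ∧
    ∀ n : ℕ, 1 ≤ n → n ≤ N → n ∉ E → f.eval (n : ℤ) ≠ 0 ∧
      ∀ d : ℤ, d ≠ 0 → |(d : ℝ)| ≤ (N : ℝ) ^ (1 / 16 : ℝ) → ∀ y : ℤ,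
        f.eval (n : ℤ) * d ≠ y * y := by
  have hf0 : f ≠ 0 := by
    rintro rfl
    exact hf 0 0 (by simp)
  obtain ⟨K0, p0, hK0, hW⟩ := weil_f f hf
  obtain ⟨Cf, hCf1, hCf⟩ := poly_bound f
  set d0 : ℕ := f.natDegree + 2 with hd0
  have hd0r : (1 : ℝ) ≤ d0 := by exact_mod_cast (by omega : 1 ≤ d0)
  obtain ⟨Y0, hY01, hY0⟩ := PP_lower (1 / 4) (by norm_num) (by norm_num)
  have hev : ∀ᶠ t : ℝ in atTop, Y0 ≤ t ^ (1 / 4 : ℝ) ∧ ((p0 : ℝ) + 3) ≤ t ^ (3 / 16 : ℝ) ∧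
      4 * (d0 * Real.log t) ≤ t ^ (3 / 16 : ℝ) ∧ Cf ≤ t := by
    have t1 := tendsto_rpow_atTop (show (0 : ℝ) < 1 / 4 by norm_num)
    have t2 := tendsto_rpow_atTop (show (0 : ℝ) < 3 / 16 by norm_num)
    have t3 := (isLittleO_log_rpow_atTop (show (0 : ℝ) < 3 / 16 by norm_num)).def
      (show (0 : ℝ) < 1 / (4 * d0) by positivity)
    filter_upwards [t1.eventually_ge_atTop Y0, t2.eventually_ge_atTop ((p0 : ℝ) + 3), t3,
      eventually_ge_atTop Cf, eventually_ge_atTop (2 : ℝ)] with t h1 h2 h3 h4 h5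
    refine ⟨h1, h2, ?_, h4⟩
    rw [Real.norm_of_nonneg (Real.log_nonneg (by linarith)),
      Real.norm_of_nonneg (Real.rpow_nonneg (by linarith) _)] at h3
    calc 4 * (d0 * Real.log t) = (4 * d0) * Real.log t := by ring
      _ ≤ (4 * d0) * (1 / (4 * d0) * t ^ (3 / 16 : ℝ)) :=
        mul_le_mul_of_nonneg_left h3 (by positivity)
      _ = t ^ (3 / 16 : ℝ) := by field_simp
  obtain ⟨N1, hN1⟩ := eventually_atTop.mp hev
  set C2 : ℝ := f.natDegree + 3 * (16 * (2 * (1 + K0 ^ 2) + 1)) with hC2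
  have hC20 : 0 ≤ C2 := by rw [hC2]; positivity
  set CC : ℝ := max N1 1 + C2 with hCC
  have hm1 : (1 : ℝ) ≤ max N1 1 := le_max_right _ _
  refine ⟨CC, by linarith, ?_⟩
  intro N hN
  have hNr1 : (1 : ℝ) ≤ N := by exact_mod_cast hN
  have hNpos : (0 : ℝ) < N := by linarith
  rcases lt_or_ge (N : ℝ) N1 with hsmall | hlarge
  · refine ⟨Icc 1 N, ?_, ?_⟩
    · rw [Nat.card_Icc, Nat.add_sub_cancel]
      have h1 : (N : ℝ) = (N : ℝ) ^ (1 / 8 : ℝ) * (N : ℝ) ^ (7 / 8 : ℝ) := by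
        rw [← Real.rpow_add hNpos]; norm_num
      have h2 : (N : ℝ) ^ (1 / 8 : ℝ) ≤ CC := by
        have h3 : (N : ℝ) ^ (1 / 8 : ℝ) ≤ N1 := by
          calc (N : ℝ) ^ (1 / 8 : ℝ) ≤ (N : ℝ) ^ (1 : ℝ) :=
                Real.rpow_le_rpow_of_exponent_le hNr1 (by norm_num)
            _ = N := Real.rpow_one _
            _ ≤ N1 := hsmall.le
        have h4 := le_max_left N1 1
        linarith
      calc (N : ℝ) = (N : ℝ) ^ (1 / 8 : ℝ) * (N : ℝ) ^ (7 / 8 : ℝ) := h1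
        _ ≤ CC * (N : ℝ) ^ (7 / 8 : ℝ) :=
          mul_le_mul_of_nonneg_right h2 (Real.rpow_nonneg hNpos.le _)
    · intro n h1 h2 h3
      exact absurd (mem_Icc.mpr ⟨h1, h2⟩) h3
  obtain ⟨g1, g2, g3, g4⟩ := hN1 N hlarge
  set y : ℝ := (N : ℝ) ^ (1 / 4 : ℝ) with hy
  have hypos : 0 < y := Real.rpow_pos_of_pos hNpos _
  have hyu : y ^ (1 - 1 / 4 : ℝ) = (N : ℝ) ^ (3 / 16 : ℝ) := by
    rw [hy, ← Real.rpow_mul hNpos.le]; norm_num
  have hPcard : (N : ℝ) ^ (3 / 16 : ℝ) ≤ (PP (1 / 4) y).card := by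
    rw [← hyu]; exact hY0 y g1
  set P := PP (1 / 4) y with hP
  set M : ℕ := ⌊(N : ℝ) ^ (1 / 16 : ℝ)⌋₊ with hM
  have hMle : (M : ℝ) ≤ (N : ℝ) ^ (1 / 16 : ℝ) := Nat.floor_le (Real.rpow_nonneg hNpos.le _)
  have hone : 1 ≤ (N : ℝ) ^ (1 / 16 : ℝ) := Real.one_le_rpow hNr1 (by norm_num)
  refine ⟨Ez f N ∪ (Icc (-(M : ℤ)) M).biUnion (Ed f P N), ?_, ?_⟩
  · have h4 : ((Ez f N ∪ (Icc (-(M : ℤ)) M).biUnion (Ed f P N)).card : ℝ) ≤
        f.natDegree + ∑ d ∈ Icc (-(M : ℤ)) M, ((Ed f P N d).card : ℝ) := by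
      have h5 := (card_union_le (Ez f N) ((Icc (-(M : ℤ)) M).biUnion (Ed f P N))).trans
        (add_le_add (card_zeros f hf0 (N + 1)) card_biUnion_le)
      exact_mod_cast h5
    refine h4.trans ?_
    have hN78 : 1 ≤ (N : ℝ) ^ (7 / 8 : ℝ) := Real.one_le_rpow hNr1 (by norm_num)
    have h5 : ∑ d ∈ Icc (-(M : ℤ)) M, ((Ed f P N d).card : ℝ) ≤
        3 * (16 * (2 * (1 + K0 ^ 2) + 1)) * (N : ℝ) ^ (7 / 8 : ℝ) := by
      calc ∑ d ∈ Icc (-(M : ℤ)) M, ((Ed f P N d).card : ℝ)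
          ≤ ∑ d ∈ Icc (-(M : ℤ)) M, 16 * (2 * (1 + K0 ^ 2) + 1) * (N : ℝ) ^ (13 / 16 : ℝ) :=
            sum_le_sum fun d _ => card_Ed f K0 p0 hK0 hW N hNr1 g2 hPcard d
        _ = (2 * M + 1) * (16 * (2 * (1 + K0 ^ 2) + 1) * (N : ℝ) ^ (13 / 16 : ℝ)) := by
            rw [sum_const, nsmul_eq_mul, Int.card_Icc]
            have : ((((M : ℤ) + 1 - -(M : ℤ)).toNat : ℕ) : ℝ) = 2 * M + 1 := by
              have h6 : ((M : ℤ) + 1 - -(M : ℤ)).toNat = 2 * M + 1 := by omega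
              rw [h6]; push_cast; ring
            rw [this]
        _ ≤ (3 * (N : ℝ) ^ (1 / 16 : ℝ)) *
              (16 * (2 * (1 + K0 ^ 2) + 1) * (N : ℝ) ^ (13 / 16 : ℝ)) := by
            refine mul_le_mul_of_nonneg_right (by linarith) ?_
            have := Real.rpow_nonneg hNpos.le (13 / 16 : ℝ)
            positivity
        _ = 3 * (16 * (2 * (1 + K0 ^ 2) + 1)) *
              ((N : ℝ) ^ (1 / 16 : ℝ) * (N : ℝ) ^ (13 / 16 : ℝ)) := by ring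
        _ = 3 * (16 * (2 * (1 + K0 ^ 2) + 1)) * (N : ℝ) ^ (7 / 8 : ℝ) := by
            rw [← Real.rpow_add hNpos]; norm_num
    have h6 : (f.natDegree : ℝ) ≤ f.natDegree * (N : ℝ) ^ (7 / 8 : ℝ) :=
      le_mul_of_one_le_right (by positivity) hN78
    have h7 : 0 ≤ max N1 1 * (N : ℝ) ^ (7 / 8 : ℝ) := by positivity
    calc f.natDegree + ∑ d ∈ Icc (-(M : ℤ)) M, ((Ed f P N d).card : ℝ)
        ≤ f.natDegree * (N : ℝ) ^ (7 / 8 : ℝ) +
            3 * (16 * (2 * (1 + K0 ^ 2) + 1)) * (N : ℝ) ^ (7 / 8 : ℝ) := add_le_add h6 h5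
      _ ≤ max N1 1 * (N : ℝ) ^ (7 / 8 : ℝ) + (f.natDegree * (N : ℝ) ^ (7 / 8 : ℝ) +
            3 * (16 * (2 * (1 + K0 ^ 2) + 1)) * (N : ℝ) ^ (7 / 8 : ℝ)) := by linarith
      _ = CC * (N : ℝ) ^ (7 / 8 : ℝ) := by rw [hCC, hC2]; ring
  · intro n hn1 hnN hnE
    rw [mem_union, mem_biUnion] at hnE
    push Not at hnE
    obtain ⟨hnE1, hnE2⟩ := hnE
    have ha0 : f.eval (n : ℤ) ≠ 0 := by
      intro h
      apply hnE1
      rw [Ez, mem_filter, mem_range]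
      exact ⟨by omega, h⟩
    refine ⟨ha0, ?_⟩
    intro d hd0' hdN z hz
    have hz0 : z ≠ 0 := by
      rintro rfl
      rw [mul_zero] at hz
      rcases mul_eq_zero.mp hz with h | h
      · exact ha0 h
      · exact hd0' h
    have hdM : d ∈ Icc (-(M : ℤ)) M := by
      have h1 : (d.natAbs : ℕ) ≤ M := by
        apply Nat.le_floor
        rw [Nat.cast_natAbs]
        push_cast
        exact hdN
      rw [mem_Icc]
      omega
    apply hnE2 d hdM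
    rw [Ed, mem_filter, mem_range]
    refine ⟨by omega, ?_⟩
    have h2 := many_sq f n P (fun p hp => (mem_PP hypos.le hp).1) d z hz hz0
    have hz1 : (1 : ℝ) ≤ |(z : ℝ)| := by exact_mod_cast Int.one_le_abs hz0
    have hnr : (1 : ℝ) ≤ n := by exact_mod_cast hn1
    have hnNr : (n : ℝ) ≤ N := by exact_mod_cast hnN
    have hzN : |(z : ℝ)| ≤ (N : ℝ) ^ d0 := by
      have h3 : |((f.eval (n : ℤ) : ℤ) : ℝ)| * |(d : ℝ)| = |(z : ℝ)| * |(z : ℝ)| := by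
        rw [← abs_mul, ← abs_mul]
        congr 1
        exact_mod_cast hz
      have h4 : |((f.eval (n : ℤ) : ℤ) : ℝ)| ≤ (N : ℝ) ^ (f.natDegree + 1) := by
        refine (hCf n hn1).trans ?_
        rw [pow_succ, mul_comm]
        have h5 : (n : ℝ) ^ f.natDegree ≤ (N : ℝ) ^ f.natDegree :=
          pow_le_pow_left₀ (by linarith) hnNr _
        exact mul_le_mul h5 g4 (by linarith) (by positivity)
      have h5 : |(d : ℝ)| ≤ N := hdN.trans (by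
        calc (N : ℝ) ^ (1 / 16 : ℝ) ≤ (N : ℝ) ^ (1 : ℝ) :=
              Real.rpow_le_rpow_of_exponent_le hNr1 (by norm_num)
          _ = N := Real.rpow_one _)
      calc |(z : ℝ)| ≤ |(z : ℝ)| * |(z : ℝ)| := le_mul_of_one_le_left (abs_nonneg _) hz1
        _ = |((f.eval (n : ℤ) : ℤ) : ℝ)| * |(d : ℝ)| := h3.symm
        _ ≤ (N : ℝ) ^ (f.natDegree + 1) * N := mul_le_mul h4 h5 (abs_nonneg _) (by positivity)
        _ = (N : ℝ) ^ d0 := by rw [hd0, pow_succ (N : ℝ) (f.natDegree + 1)]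
    have hlz : Real.log |(z : ℝ)| ≤ d0 * Real.log N := by
      have := Real.log_le_log (by linarith) hzN
      rwa [Real.log_pow] at this
    refine le_trans ?_ (le_abs_self _)
    have hPc0 : (0 : ℝ) ≤ (P.card : ℝ) := Nat.cast_nonneg _
    linarith

end Pool.Agent.TH869.EVF
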