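import Pool.Agent.TH869.EVF.Sqf
import Pool.Agent.H471R4.BW.WEL
import Pool.Agent.H471R4.BW.CRD
import Pool.Agent.H471R4.BW.COR
import Pool.Agent.H471R4.BW.NV1
import Pool.Agent.H471R4.BW.NV0

set_option autoImplicit false

/-!
# Complete sums of the Jacobi symbol of a polynomial
-/

namespace Pool.Agent.TH869.EVF

open Polynomial Finset

/-- sums over residues -/
theorem sum_zmod {M : Type*} [AddCommMonoid M] (p : ℕ) [NeZero p] (F : ZMod p → M) :
    ∑ x : ZMod p, F x = ∑ n ∈ range p, F (n : ZMod p) := by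
  refine Finset.sum_nbij' (fun x : ZMod p => x.val) (fun n : ℕ => (n : ZMod p)) ?_ ?_ ?_ ?_ ?_
  · intro x _; exact mem_range.mpr (ZMod.val_lt x)
  · intro n _; exact mem_univ _
  · intro x _; exact ZMod.natCast_zmod_val x
  · intro n hn; exact ZMod.val_cast_of_lt (mem_range.mp hn)
  · intro x _; rw [ZMod.natCast_zmod_val]

/-- the Weil bound for the Jacobi symbol of a polynomial -/
theorem weil_f (f : ℤ[X])
    (hf : ∀ (c : ℚ) (g : ℚ[X]), f.map (Int.castRingHom ℚ) ≠ C c * g ^ 2) :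
    ∃ (K : ℝ) (p0 : ℕ), 0 ≤ K ∧ ∀ p : ℕ, p.Prime → p0 < p →
      |∑ x ∈ range p, (jacobiSym (f.eval (x : ℤ)) p : ℝ)| ≤ K * √p := by
  obtain ⟨p0, hp0⟩ := not_sq_mod f hf
  obtain ⟨K, hK0, hK⟩ := Pool.Agent.H471R4.BW.wel (Pool.Agent.H471R4.BW.crd
    (Pool.Agent.H471R4.BW.cor (Pool.Agent.H471R4.BW.nv1 Pool.Agent.H471R4.BW.nv0)))
    2 f.natDegree Nat.prime_two
  refine ⟨K, max p0 2, hK0, ?_⟩
  intro p hp hpp
  have hpp0 : p0 < p := lt_of_le_of_lt (le_max_left _ _) hpp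
  have hp2 : 2 < p := lt_of_le_of_lt (le_max_right _ _) hpp
  have : Fact p.Prime := ⟨hp⟩
  have hodd : 2 ∣ p - 1 := by
    have := hp.eq_two_or_odd
    omega
  set χ : DirichletCharacter ℂ p := (quadraticChar (ZMod p)).ringHomComp (Int.castRingHom ℂ) with hχ
  have hF : ringChar (ZMod p) ≠ 2 := by
    rw [ZMod.ringChar_zmod_n]; omega
  have h1 : χ ≠ 1 := by
    rw [hχ, MulChar.ringHomComp_ne_one_iff (RingHom.injective_int _)]
    exact quadraticChar_ne_one hF
  have h2 : χ ^ 2 = 1 := ((quadraticChar_isQuadratic (ZMod p)).comp (Int.castRingHom ℂ)).sq_eq_one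
  set φ := Int.castRingHom (ZMod p) with hφ
  have h3 : (f.map φ).natDegree ≤ f.natDegree := natDegree_map_le
  have h4 : f.map φ ≠ 0 := by
    intro h
    exact hp0 p hp hpp0 0 0 (by rw [← hφ, h]; simp)
  have h5 := hK p hodd χ h1 h2 (f.map φ) h3 h4 (fun c h => hp0 p hp hpp0 c h)
  have h6 : ∑ x : ZMod p, χ ((f.map φ).eval x) =
      ((∑ x ∈ range p, (jacobiSym (f.eval (x : ℤ)) p : ℝ) : ℝ) : ℂ) := by
    rw [sum_zmod p]
    push_cast
    refine sum_congr rfl fun n _ => ?_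
    have h7 : (f.map φ).eval (n : ZMod p) = ((f.eval (n : ℤ) : ℤ) : ZMod p) := by
      have := Polynomial.eval_intCast_map φ f (n : ℤ)
      rw [hφ, eq_intCast, Int.cast_natCast] at this
      exact this
    rw [h7, ← jacobiSym.legendreSym.to_jacobiSym, legendreSym, hχ]
    rfl
  rw [h6, Complex.norm_real] at h5
  exact h5

end Pool.Agent.TH869.EVF
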