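import Pool.Agent.TH869.EVF.Gen
import Pool.Agent.TH869.EVF.Block
import Pool.Agent.TH869.EVF.Wf
import Pool.Agent.TH847.LG.Fin

set_option autoImplicit false

/-!
# Quadratic fields generated by the square roots of polynomial values
-/

namespace Pool.Agent.TH869.EVF

open Polynomial NumberField Finset

/-- an odd prime modulo which `m` is a nonzero square is a norm from `ℚ(√m)` -/
theorem quad_norm {K : Type} [Field K] [NumberField K] (hK : Module.finrank ℚ K = 2) (x : K)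
    (hx : IntermediateField.adjoin ℚ {x} = ⊤) (m : ℤ) (hm : x ^ 2 = m) (p : ℕ) (hp : p.Prime)
    (hp2 : p ≠ 2) (hj : jacobiSym m p = 1) : ∃ P : Ideal (𝓞 K), Ideal.absNorm P = p := by
  have : Fact p.Prime := ⟨hp⟩
  rw [← jacobiSym.legendreSym.to_jacobiSym] at hj
  have hm0 : ((m : ℤ) : ZMod p) ≠ 0 := by
    intro h
    rw [(legendreSym.eq_zero_iff p m).mpr h] at hj
    exact zero_ne_one hj
  obtain ⟨r, hr⟩ := (legendreSym.eq_one_iff p hm0).mp hj
  have hr0 : r ≠ 0 := by rintro rfl; apply hm0; rw [hr, mul_zero]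
  have h20 : (2 : ZMod p) ≠ 0 := by
    intro h
    have h1 : ((2 : ℕ) : ZMod p) = 0 := by exact_mod_cast h
    rw [ZMod.natCast_eq_zero_iff] at h1
    exact hp2 ((Nat.prime_dvd_prime_iff_eq hp Nat.prime_two).mp h1)
  refine norm_of_root (X ^ 2 - C m) (monic_X_pow_sub_C m two_ne_zero) ?_ x hx ?_ p hp r ?_ ?_
  · rw [natDegree_X_pow_sub_C, hK]
  · rw [map_sub, aeval_C, map_pow, aeval_X, hm, eq_intCast, sub_self]
  · rw [eval₂_sub, eval₂_C, eval₂_X_pow, eq_intCast, hr]; ring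
  · rw [derivative_sub, derivative_C, sub_zero, derivative_X_pow, eval₂_mul, eval₂_X_pow]
    simp only [Nat.cast_ofNat, Nat.add_one_sub_one, pow_one]
    refine mul_ne_zero ?_ hr0
    have : eval₂ (Int.castRingHom (ZMod p)) r (C (2 : ℤ)) = 2 := by rw [eval₂_C]; simp
    rw [this]
    exact h20

/-- the discriminant of `ℚ(√m)` -/
theorem quad_disc {K : Type} [Field K] [NumberField K] (hK : Module.finrank ℚ K = 2) (x : K)
    (hx : IntermediateField.adjoin ℚ {x} = ⊤) (m : ℤ) (hm : x ^ 2 = m) :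
    |(discr K : ℝ)| ≤ 4 * |(m : ℝ)| := by
  have hint : IsIntegral ℤ x := by
    refine ⟨X ^ 2 - C m, monic_X_pow_sub_C m two_ne_zero, ?_⟩
    rw [eval₂_sub, eval₂_C, eval₂_X_pow, hm]
    simp
  have h := Pool.Agent.TH847.LG.disc_bound hK (⟨x, hint⟩ : 𝓞 K) hx (B := √|(m : ℝ)|) (by
    intro w
    have h1 : w x ^ 2 = |(m : ℝ)| := by
      rw [← map_pow, hm, ← InfinitePlace.norm_embedding_eq, map_intCast, Complex.norm_intCast]
    apply Real.le_sqrt_of_sq_le
    exact h1.le)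
  rw [show 2 * (2 - 1) = 2 from rfl, mul_pow, Real.sq_sqrt (abs_nonneg _)] at h
  linarith

/-- the Jacobi symbols of a polynomial -/
noncomputable def js (f : ℤ[X]) (p n : ℕ) : ℝ := (jacobiSym (f.eval (n : ℤ)) p : ℝ)

theorem js_per (f : ℤ[X]) (p : ℕ) : Per (js f p) p := by
  intro n
  unfold js
  congr 1
  rw [jacobiSym.mod_left (f.eval ((n + p : ℕ) : ℤ)), jacobiSym.mod_left (f.eval (n : ℤ))]
  congr 1
  have h : ((n + p : ℕ) : ℤ) - n ∣ f.eval ((n + p : ℕ) : ℤ) - f.eval (n : ℤ) :=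
    sub_dvd_eval_sub _ _ _
  have h2 : ((p : ℕ) : ℤ) ∣ f.eval ((n + p : ℕ) : ℤ) - f.eval (n : ℤ) := by
    have e : ((n + p : ℕ) : ℤ) - n = p := by push_cast; ring
    rwa [e] at h
  exact (Int.emod_emod_of_dvd _ (dvd_refl _)).symm.trans
    ((Int.emod_emod_of_dvd _ (dvd_refl _)).trans (Int.emod_eq_emod_iff_emod_sub_eq_zero.mpr
      (Int.emod_eq_zero_of_dvd h2)))

theorem js_abs (f : ℤ[X]) (p n : ℕ) : |js f p n| ≤ 1 := by
  unfold js
  rcases jacobiSym.trichotomy (f.eval (n : ℤ)) p with h | h | h <;> rw [h] <;> simp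

end Pool.Agent.TH869.EVF
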