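import Pool.Agent.TH869.EVF.Dy
import Pool.Agent.TH869.EVF.Quad
import Pool.Agent.TH869.EVF.Fin1

set_option autoImplicit false

/-!
# Counting split primes by sums of symbols
-/

namespace Pool.Agent.TH869.EVF

open Polynomial Finset

theorem split_iff (d : ℤ) (hd : d % 4 = 0 ∨ d % 4 = 1) (p : ℕ) (hp : p.Prime) (hp2 : p ≠ 2) :
    (¬ (p : ℤ) ∣ d ∧ ∃ x : ℤ, (4 * (p : ℤ)) ∣ x ^ 2 - d) ↔ jacobiSym d p = 1 := by
  have : Fact p.Prime := ⟨hp⟩
  rw [← jacobiSym.legendreSym.to_jacobiSym]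
  constructor
  · rintro ⟨h1, x, hx⟩
    have h0 : ((d : ℤ) : ZMod p) ≠ 0 := by
      intro h
      exact h1 ((ZMod.intCast_zmod_eq_zero_iff_dvd d p).mp h)
    rw [legendreSym.eq_one_iff p h0]
    refine ⟨(x : ZMod p), ?_⟩
    have h2 : ((x ^ 2 - d : ℤ) : ZMod p) = 0 :=
      (ZMod.intCast_zmod_eq_zero_iff_dvd _ p).mpr ((Dvd.intro_left _ rfl).trans hx)
    push_cast at h2
    have h3 := sub_eq_zero.mp h2
    rw [← h3]; ring
  · intro h
    have h0 : ((d : ℤ) : ZMod p) ≠ 0 := by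
      intro h1
      rw [(legendreSym.eq_zero_iff p d).mpr h1] at h
      exact zero_ne_one h
    refine ⟨fun h1 => h0 ((ZMod.intCast_zmod_eq_zero_iff_dvd d p).mpr h1), ?_⟩
    obtain ⟨r, hr⟩ := (legendreSym.eq_one_iff p h0).mp h
    set x0 : ℤ := (r.val : ℤ) with hx0
    have h1 : (p : ℤ) ∣ x0 ^ 2 - d := by
      rw [← ZMod.intCast_zmod_eq_zero_iff_dvd]
      push_cast
      rw [hx0, Int.cast_natCast, ZMod.natCast_zmod_val, hr]
      ring
    obtain ⟨r0, hr0⟩ : ∃ r0 : ℤ, (4 : ℤ) ∣ r0 ^ 2 - d := by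
      rcases hd with hd | hd
      · exact ⟨0, by omega⟩
      · exact ⟨1, by omega⟩
    have hpodd : (p : ℤ) % 2 = 1 := by
      have := hp.eq_two_or_odd
      omega
    have h4 : (4 : ℤ) ∣ (p : ℤ) ^ 2 - 1 := by
      obtain ⟨t, ht⟩ : ∃ t : ℤ, (p : ℤ) = 2 * t + 1 := ⟨(p : ℤ) / 2, by omega⟩
      rw [ht]
      exact ⟨t ^ 2 + t, by ring⟩
    refine ⟨x0 + (p : ℤ) ^ 2 * (r0 - x0), ?_⟩
    have hcop : IsCoprime (4 : ℤ) (p : ℤ) := by
      rw [show (4 : ℤ) = 2 ^ 2 by norm_num]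
      apply IsCoprime.pow_left
      have : Nat.Coprime 2 p := (Nat.coprime_primes Nat.prime_two hp).mpr (Ne.symm hp2)
      exact_mod_cast Nat.isCoprime_iff_coprime.mpr this
    refine hcop.mul_dvd ?_ ?_
    · obtain ⟨u, hu⟩ := h4
      obtain ⟨v, hv⟩ := hr0
      have e1 : (p : ℤ) ^ 2 = 4 * u + 1 := by linarith
      have e2 : d = r0 ^ 2 - 4 * v := by linarith
      rw [e1, e2]
      exact ⟨v + 4 * u ^ 2 * (r0 - x0) ^ 2 + 2 * r0 * u * (r0 - x0), by ring⟩
    · obtain ⟨u, hu⟩ := h1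
      have e1 : d = x0 ^ 2 - p * u := by linarith
      rw [e1]
      exact ⟨u + 2 * x0 * p * (r0 - x0) + p ^ 3 * (r0 - x0) ^ 2, by ring⟩

/-- the split primes up to `y` -/
noncomputable def Spl (d : ℤ) (y : ℕ) : Finset ℕ := by
  classical
  exact (PR y).filter (fun p : ℕ => ¬ (p : ℤ) ∣ d ∧ ∃ x : ℤ, (4 * (p : ℤ)) ∣ x ^ 2 - d)

theorem mem_Spl (d : ℤ) (y p : ℕ) : p ∈ Spl d y ↔
    (p ≤ y ∧ p.Prime) ∧ ¬ (p : ℤ) ∣ d ∧ ∃ x : ℤ, (4 * (p : ℤ)) ∣ x ^ 2 - d := by
  classical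
  unfold Spl
  rw [mem_filter, PR, mem_filter, mem_range, Nat.lt_succ_iff]

theorem split_count (d : ℤ) (hd : d % 4 = 0 ∨ d % 4 = 1) (hd0 : d ≠ 0) (y : ℕ) :
    |((Spl d y).card : ℝ) - ((PR y).card : ℝ) / 2| ≤
      1 + Real.log |(d : ℝ)| + |∑ p ∈ PR y, (jacobiSym d p : ℝ)| / 2 := by
  classical
  set Z := (PR y).filter (fun p : ℕ => (p : ℤ) ∣ d) with hZ
  set sp : ℕ → Prop := fun p => ¬ (p : ℤ) ∣ d ∧ ∃ x : ℤ, (4 * (p : ℤ)) ∣ x ^ 2 - d with hsp
  have h1 : ((Spl d y).card : ℝ) = ∑ p ∈ PR y, (if sp p then (1 : ℝ) else 0) := by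
    rw [← sum_filter, sum_const, nsmul_eq_mul, mul_one]
    rfl
  have h2 : ∀ p ∈ PR y, |(if sp p then (1 : ℝ) else 0) - 1 / 2 - (jacobiSym d p : ℝ) / 2| ≤
      (if p = 2 then (1 : ℝ) else 0) + (if (p : ℤ) ∣ d then (1 : ℝ) else 0) / 2 := by
    intro p hp
    rw [PR, mem_filter] at hp
    by_cases hp2 : p = 2
    · rw [if_pos hp2]
      have h3 : (0 : ℝ) ≤ (if (p : ℤ) ∣ d then (1 : ℝ) else 0) / 2 := by split_ifs <;> norm_num
      have h4 : |(if sp p then (1 : ℝ) else 0) - 1 / 2 - (jacobiSym d p : ℝ) / 2| ≤ 1 := by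
        rcases jacobiSym.trichotomy d p with h | h | h <;> rw [h] <;> split_ifs <;> norm_num
      linarith
    · rw [if_neg hp2, zero_add]
      have hiff := split_iff d hd p hp.2 hp2
      have : Fact p.Prime := ⟨hp.2⟩
      rcases jacobiSym.trichotomy d p with h | h | h
      · have h3 : (p : ℤ) ∣ d := by
          rw [← jacobiSym.legendreSym.to_jacobiSym, legendreSym.eq_zero_iff,
            ZMod.intCast_zmod_eq_zero_iff_dvd] at h
          exact h
        have h4 : ¬ sp p := fun h5 => h5.1 h3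
        rw [if_neg h4, if_pos h3, h]
        norm_num
      · have h4 : sp p := hiff.mpr h
        rw [if_pos h4, h, if_neg h4.1]
        norm_num
      · have h4 : ¬ sp p := fun h5 => by
          rw [hiff.mp h5] at h
          norm_num at h
        rw [if_neg h4, h]
        have h3 : (0 : ℝ) ≤ (if (p : ℤ) ∣ d then (1 : ℝ) else 0) / 2 := by
          split_ifs <;> norm_num
        norm_num
        split_ifs <;> norm_num
  have h3 : ((Spl d y).card : ℝ) - ((PR y).card : ℝ) / 2 =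
      ∑ p ∈ PR y, ((if sp p then (1 : ℝ) else 0) - 1 / 2 - (jacobiSym d p : ℝ) / 2) +
        (∑ p ∈ PR y, (jacobiSym d p : ℝ)) / 2 := by
    rw [h1, sum_sub_distrib, sum_sub_distrib, sum_const, nsmul_eq_mul, ← sum_div]
    ring
  have h4 : |∑ p ∈ PR y, ((if sp p then (1 : ℝ) else 0) - 1 / 2 - (jacobiSym d p : ℝ) / 2)| ≤
      1 + (Z.card : ℝ) / 2 := by
    refine (abs_sum_le_sum_abs _ _).trans ((sum_le_sum h2).trans ?_)
    rw [sum_add_distrib, ← sum_div, ← sum_filter, ← sum_filter, sum_const, sum_const,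
      nsmul_eq_mul, nsmul_eq_mul, mul_one, mul_one]
    have h5 : (((PR y).filter (fun p => p = 2)).card : ℝ) ≤ 1 := by
      have h6 : (PR y).filter (fun p => p = 2) ⊆ {2} := by
        intro p hp
        rw [mem_filter] at hp
        exact mem_singleton.mpr hp.2
      have := card_le_card h6
      rw [card_singleton] at this
      exact_mod_cast this
    linarith
  have h5 : (Z.card : ℝ) ≤ 2 * Real.log |(d : ℝ)| := by
    have h6 : Z ⊆ d.natAbs.primeFactors := by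
      intro p hp
      rw [hZ, mem_filter, PR, mem_filter] at hp
      exact Nat.mem_primeFactors.mpr ⟨hp.1.2, Int.natCast_dvd.mp hp.2, Int.natAbs_ne_zero.mpr hd0⟩
    have h7 := card_le_card h6
    have h8 := card_primeFactors_le d.natAbs (Int.natAbs_ne_zero.mpr hd0)
    have h9 : ((d.natAbs : ℕ) : ℝ) = |(d : ℝ)| := by rw [Nat.cast_natAbs]; push_cast; rfl
    rw [h9] at h8
    have h10 : (Z.card : ℝ) ≤ d.natAbs.primeFactors.card := by exact_mod_cast h7
    linarith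
  rw [h3]
  refine (abs_add_le _ _).trans ?_
  rw [abs_div, abs_two]
  linarith

/-- passing from `f(n)` to `d` when their product is a square -/
theorem symbol_change (f : ℤ[X]) (n : ℕ) (d z : ℤ) (hz : f.eval (n : ℤ) * d = z * z) (hz0 : z ≠ 0)
    (y : ℕ) : |∑ p ∈ PR y, (jacobiSym d p : ℝ)| ≤
      |∑ p ∈ PR y, js f p n| + 4 * Real.log |(z : ℝ)| := by
  classical
  have h1 : ∀ p ∈ PR y, |(jacobiSym d p : ℝ) - js f p n| ≤ 2 * (if p ∣ z.natAbs then (1 : ℝ) else 0) := by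
    intro p hp
    rw [PR, mem_filter] at hp
    by_cases h : p ∣ z.natAbs
    · rw [if_pos h]
      have h2 : |(jacobiSym d p : ℝ)| ≤ 1 := by
        rcases jacobiSym.trichotomy d p with h | h | h <;> rw [h] <;> simp
      have h3 := js_abs f p n
      have h4 := abs_sub (jacobiSym d p : ℝ) (js f p n)
      linarith
    · rw [if_neg h, mul_zero]
      have hc : Int.gcd z p = 1 := by
        rw [Int.gcd_eq_natAbs, Int.natAbs_natCast]
        exact ((Nat.Prime.coprime_iff_not_dvd hp.2).mpr h).symm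
      have h2 := jacobiSym.sq_one hc
      have h3 : jacobiSym (f.eval (n : ℤ)) p * jacobiSym d p = 1 := by
        rw [← jacobiSym.mul_left, hz, jacobiSym.mul_left, ← sq, h2]
      have h4 : (jacobiSym d p : ℝ) = js f p n := by
        unfold js
        rcases jacobiSym.trichotomy d p with h | h | h <;>
          rcases jacobiSym.trichotomy (f.eval (n : ℤ)) p with h' | h' | h' <;>
          rw [h, h'] at h3 <;> rw [h, h'] <;> norm_num at h3
      rw [h4, sub_self, abs_zero]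
  have h2 : |∑ p ∈ PR y, (jacobiSym d p : ℝ) - ∑ p ∈ PR y, js f p n| ≤ 4 * Real.log |(z : ℝ)| := by
    rw [← sum_sub_distrib]
    refine (abs_sum_le_sum_abs _ _).trans ((sum_le_sum h1).trans ?_)
    rw [← mul_sum, ← sum_filter, sum_const, nsmul_eq_mul, mul_one]
    have h6 : (PR y).filter (fun p => p ∣ z.natAbs) ⊆ z.natAbs.primeFactors := by
      intro p hp
      rw [mem_filter, PR, mem_filter] at hp
      exact Nat.mem_primeFactors.mpr ⟨hp.1.2, hp.2, Int.natAbs_ne_zero.mpr hz0⟩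
    have h7 := card_le_card h6
    have h8 := card_primeFactors_le z.natAbs (Int.natAbs_ne_zero.mpr hz0)
    have h9 : ((z.natAbs : ℕ) : ℝ) = |(z : ℝ)| := by rw [Nat.cast_natAbs]; push_cast; rfl
    rw [h9] at h8
    have h10 : (((PR y).filter (fun p => p ∣ z.natAbs)).card : ℝ) ≤ z.natAbs.primeFactors.card := by
      exact_mod_cast h7
    linarith
  have h3 := abs_sub_abs_le_abs_sub (∑ p ∈ PR y, (jacobiSym d p : ℝ)) (∑ p ∈ PR y, js f p n)
  linarith

/-- the size of a fundamental discriminant -/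
theorem disc_size (a d z : ℤ) (ha : a ≠ 0) (hz : a * d = z * z)
    (hd : (d % 4 = 1 ∧ Squarefree d) ∨
      (∃ m : ℤ, d = 4 * m ∧ (m % 4 = 2 ∨ m % 4 = 3) ∧ Squarefree m)) :
    |(d : ℝ)| ≤ 4 * |(a : ℝ)| := by
  have key : ∀ b w : ℤ, Squarefree b → a * b = w * w → |(b : ℝ)| ≤ |(a : ℝ)| := by
    intro b w hb hw
    have hb0 : b ≠ 0 := hb.ne_zero
    have h1 : b ∣ w * w := ⟨a, by rw [← hw]; ring⟩
    have h2 : b ∣ w := (hb.dvd_pow_iff_dvd (two_ne_zero)).mp (by rw [sq]; exact h1)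
    obtain ⟨t, rfl⟩ := h2
    have h3 : a = b * t ^ 2 := by
      apply mul_right_cancel₀ hb0
      rw [hw]; ring
    have ht : t ≠ 0 := by
      rintro rfl
      apply ha
      rw [h3]; ring
    have h4 : (1 : ℝ) ≤ |(t : ℝ)| := by exact_mod_cast Int.one_le_abs ht
    rw [h3]
    push_cast
    rw [abs_mul, abs_pow]
    have h5 : (1 : ℝ) ≤ |(t : ℝ)| ^ 2 := one_le_pow₀ h4
    exact le_mul_of_one_le_right (abs_nonneg _) h5
  rcases hd with ⟨_, hd⟩ | ⟨m, hm, _, hd⟩
  · have h1 := key d z hd hz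
    have h2 := abs_nonneg (a : ℝ)
    linarith
  · have h2 : (2 : ℤ) ∣ z := by
      have h3 : (2 : ℤ) ∣ z * z := ⟨2 * (a * m), by rw [← hz, hm]; ring⟩
      rcases Int.prime_two.dvd_or_dvd h3 with h | h <;> exact h
    obtain ⟨w, rfl⟩ := h2
    have h1 := key m w hd (by
      have : 4 * (a * m) = 4 * (w * w) := by
        calc 4 * (a * m) = a * (4 * m) := by ring
          _ = 2 * w * (2 * w) := by rw [← hm, hz]
          _ = _ := by ring
      linarith)
    rw [hm]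
    push_cast
    rw [abs_mul, abs_of_pos (by norm_num : (0 : ℝ) < 4)]
    linarith

end Pool.Agent.TH869.EVF
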