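import Pool.Agent.TH869.EVF.Gs
import Pool.Agent.TH869.EVF.Sp
import Pool.Agent.TH869.EVF.Fin3
import Pool.Agent.TH869.EVF.AP

set_option autoImplicit false

/-!
# Half of the small primes split, in a polynomial family
-/

namespace Pool.Agent.TH869.EVF

open Polynomial Finset Filter Topology

/-- fundamental discriminants (including `1`) -/
def Fund (d : ℤ) : Prop := (d % 4 = 1 ∧ Squarefree d) ∨
  (∃ m : ℤ, d = 4 * m ∧ (m % 4 = 2 ∨ m % 4 = 3) ∧ Squarefree m)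

theorem Fund.mod {d : ℤ} (h : Fund d) : d % 4 = 0 ∨ d % 4 = 1 := by
  rcases h with ⟨h, _⟩ | ⟨m, h, _⟩ <;> omega

theorem Fund.ne {d : ℤ} (h : Fund d) : d ≠ 0 := by
  rcases h with ⟨h, _⟩ | ⟨m, h, h2, _⟩ <;> omega

theorem PA_le_PR (y : ℕ) : (PA 1 1 (y : ℝ)).card ≤ (PR y).card := by
  apply card_le_card
  intro p hp
  rw [PA, mem_filter, mem_Icc, Nat.floor_natCast] at hp
  rw [PR, mem_filter, mem_range]
  exact ⟨by omega, hp.2.1⟩

theorem natlog_le (y : ℕ) (hy : 1 ≤ y) : (Nat.log 2 y : ℝ) ≤ 2 * Real.log y := by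
  have h1 : (2 : ℝ) ^ (Nat.log 2 y) ≤ y := by exact_mod_cast Nat.pow_log_le_self 2 (by omega)
  have h2 := Real.log_le_log (by positivity) h1
  rw [Real.log_pow] at h2
  have h3 := Real.log_two_gt_d9
  have h4 : (0 : ℝ) ≤ Nat.log 2 y := Nat.cast_nonneg _
  nlinarith

/-- the error terms are small against the number of primes -/
theorem err_small (ρ : ℝ) (hρ0 : 0 < ρ) (hρ1 : ρ < 1) (C3 ε : ℝ) (hε : 0 < ε) :
    ∃ Y1 : ℝ, 1 ≤ Y1 ∧ ∀ y : ℕ, Y1 ≤ y → (C3 + Real.log y) * (y : ℝ) ^ ρ ≤ ε * (PR y).card := by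
  set δ : ℝ := (1 - ρ) / 2 with hδ
  have hδ0 : 0 < δ := by rw [hδ]; linarith
  obtain ⟨c, C0, hc, hC0, h⟩ := PA_lower 1 1 one_pos (Nat.coprime_one_left 1) δ hδ0
    (by rw [hδ]; linarith)
  have hev : ∀ᶠ t : ℝ in atTop, C3 + C0 / c + 1 / ε ≤ ε * c / 4 * t ^ (δ / 2) ∧
      Real.log t ≤ ε * c / 4 * t ^ (δ / 2) ∧ ε * C0 ≤ ε * c / 2 * t ^ (1 - δ) ∧ 1 ≤ t := by
    have t1 := (tendsto_rpow_atTop (show 0 < δ / 2 by positivity)).const_mul_atTop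
      (show 0 < ε * c / 4 by positivity)
    have t2 := (isLittleO_log_rpow_atTop (show 0 < δ / 2 by positivity)).def
      (show 0 < ε * c / 4 by positivity)
    have t3 := (tendsto_rpow_atTop (show 0 < 1 - δ by rw [hδ]; linarith)).const_mul_atTop
      (show 0 < ε * c / 2 by positivity)
    filter_upwards [t1.eventually_ge_atTop (C3 + C0 / c + 1 / ε), t2,
      t3.eventually_ge_atTop (ε * C0), eventually_ge_atTop (1 : ℝ)] with t h1 h2 h3 h4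
    refine ⟨h1, ?_, h3, h4⟩
    rw [Real.norm_of_nonneg (Real.log_nonneg h4),
      Real.norm_of_nonneg (Real.rpow_nonneg (by linarith) _)] at h2
    exact h2
  obtain ⟨Y, hY⟩ := eventually_atTop.mp hev
  refine ⟨max Y 1, le_max_right _ _, ?_⟩
  intro y hy
  obtain ⟨g1, g2, g3, g4⟩ := hY y ((le_max_left _ _).trans hy)
  have hy0 : (0 : ℝ) < y := by linarith
  have h1 := h y hy0
  have h2 : ((PA 1 1 (y : ℝ)).card : ℝ) ≤ (PR y).card := by exact_mod_cast PA_le_PR y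
  have h3 : (y : ℝ) ^ (δ / 2) * (y : ℝ) ^ ρ ≤ (y : ℝ) ^ (1 - δ) := by
    rw [← Real.rpow_add hy0]
    apply Real.rpow_le_rpow_of_exponent_le g4
    rw [hδ]; linarith
  have hyρ : 0 ≤ (y : ℝ) ^ ρ := Real.rpow_nonneg hy0.le _
  have h5 : 0 ≤ C0 / c + 1 / ε := by positivity
  calc (C3 + Real.log y) * (y : ℝ) ^ ρ
      ≤ (ε * c / 4 * (y : ℝ) ^ (δ / 2) + ε * c / 4 * (y : ℝ) ^ (δ / 2)) * (y : ℝ) ^ ρ :=
        mul_le_mul_of_nonneg_right (by linarith) hyρ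
    _ = ε * c / 2 * ((y : ℝ) ^ (δ / 2) * (y : ℝ) ^ ρ) := by ring
    _ ≤ ε * c / 2 * (y : ℝ) ^ (1 - δ) := mul_le_mul_of_nonneg_left h3 (by positivity)
    _ ≤ ε * (c * (y : ℝ) ^ (1 - δ) - C0) := by linarith
    _ ≤ ε * (PR y).card := mul_le_mul_of_nonneg_left (by linarith) hε.le

theorem core (f : ℤ[X])
    (hf : ∀ (c : ℚ) (g : ℚ[X]), f.map (Int.castRingHom ℚ) ≠ C c * g ^ 2)
    (A : ℝ) (hA : 1 < A) (ε : ℝ) (hε : 0 < ε) :
    ∃ c C N1 : ℝ, 0 < c ∧ 0 < C ∧ ∀ N : ℕ, 1 ≤ N → N1 ≤ N → ∃ E : Finset ℕ,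
      (E.card : ℝ) ≤ C * (N : ℝ) ^ (1 - c) ∧ ∀ n : ℕ, 1 ≤ n → n ≤ N → n ∉ E →
      ∀ d : ℤ, Fund d → IsSquare (f.eval (n : ℤ) * d) →
        d ≠ 1 ∧ f.eval (n : ℤ) ≠ 0 ∧ (N : ℝ) ^ (1 / 16 : ℝ) < |(d : ℝ)| ∧
        ∀ y : ℕ, Real.log |(d : ℝ)| ^ A ≤ y → (y : ℝ) ≤ |(d : ℝ)| ^ c →
          |((Spl d y).card : ℝ) - ((PR y).card : ℝ) / 2| ≤ ε * (PR y).card := by
  have hA0 : 0 < A := by linarith
  set A1 : ℝ := (1 + A) / 2 with hA1
  have hA11 : 1 < A1 := by rw [hA1]; linarith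
  have hA1A : A1 < A := by rw [hA1]; linarith
  have hA10 : 0 < A1 := by linarith
  set γ : ℝ := (1 - 1 / A1) / 2 with hγdef
  have hγ : 1 / A1 = 1 - 2 * γ := by rw [hγdef]; ring
  have hiA1 : 1 / A1 < 1 := by rw [div_lt_one hA10]; exact hA11
  have hiA0 : 0 < 1 / A1 := by positivity
  have hγ0 : 0 < γ := by linarith
  set θ : ℝ := A1 / A with hθ
  have hθ1 : θ < 1 := by rw [hθ, div_lt_one hA0]; exact hA1A
  have hθA : 1 / A ≤ θ := by rw [hθ]; gcongr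
  have hiAp : 0 < 1 / A := by positivity
  set ρ : ℝ := max θ (1 - γ) with hρ
  have hρ1 : ρ < 1 := max_lt hθ1 (by linarith)
  have hρθ : θ ≤ ρ := le_max_left _ _
  have hργ : 1 - γ ≤ ρ := le_max_right _ _
  have hρ0 : 0 < ρ := by linarith
  obtain ⟨κ, C1, hκ0, hκ8, hC1, h1⟩ := good_z f hf A1 hA11 γ hγ (ε / 4) (by positivity)
  obtain ⟨C2, hC2, h2⟩ := small_disc f hf
  obtain ⟨Cf, hCf1, hCf⟩ := poly_bound f
  set d0 : ℕ := f.natDegree + 1 with hd0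
  have hd0r : (1 : ℝ) ≤ d0 := by exact_mod_cast (by omega : 1 ≤ d0)
  set C3 : ℝ := 3 + 16 ^ A1 + 32 * d0 with hC3
  have h16 : (0 : ℝ) < 16 ^ A1 := Real.rpow_pos_of_pos (by norm_num) _
  have hC30 : 0 ≤ C3 := by rw [hC3]; positivity
  obtain ⟨Y1, hY11, hY1⟩ := err_small ρ hρ0 hρ1 C3 (ε / 2) (by positivity)
  have hev : ∀ᶠ t : ℝ in atTop, Y1 ≤ (Real.log t / 16) ^ A ∧ 4 * Cf ≤ t := by
    have t1 : Tendsto (fun t : ℝ => Real.log t / 16) atTop atTop :=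
      Real.tendsto_log_atTop.atTop_div_const (by norm_num)
    have t2 := (tendsto_rpow_atTop hA0).comp t1
    filter_upwards [t2.eventually_ge_atTop Y1, eventually_ge_atTop (4 * Cf)] with t h1 h2
    exact ⟨h1, h2⟩
  obtain ⟨N1, hN1⟩ := eventually_atTop.mp hev
  set c : ℝ := min (κ / d0) (1 / 8) with hc
  have hc0 : 0 < c := lt_min (by positivity) (by norm_num)
  have hcκ : c ≤ κ := by
    refine (min_le_left _ _).trans ?_
    exact div_le_self hκ0.le hd0r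
  have hcd : d0 * c ≤ κ := by
    have h3 : c ≤ κ / d0 := min_le_left _ _
    rw [le_div_iff₀ (by linarith)] at h3
    linarith
  have hc8 : c ≤ 1 / 8 := min_le_right _ _
  refine ⟨c, C1 + C2, N1, hc0, by linarith, ?_⟩
  intro N hN hNN
  obtain ⟨g1, g2⟩ := hN1 N hNN
  have hNr1 : (1 : ℝ) ≤ N := by exact_mod_cast hN
  have hN0 : (0 : ℝ) < N := by linarith
  obtain ⟨E1, hE1, hE1'⟩ := h1 N hN
  obtain ⟨E2, hE2, hE2'⟩ := h2 N hN
  refine ⟨E1 ∪ E2, ?_, ?_⟩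
  · have h3 : ((E1 ∪ E2).card : ℝ) ≤ E1.card + E2.card := by exact_mod_cast card_union_le E1 E2
    have h4 : (N : ℝ) ^ (1 - κ) ≤ (N : ℝ) ^ (1 - c) :=
      Real.rpow_le_rpow_of_exponent_le hNr1 (by linarith)
    have h5 : (N : ℝ) ^ (7 / 8 : ℝ) ≤ (N : ℝ) ^ (1 - c) :=
      Real.rpow_le_rpow_of_exponent_le hNr1 (by linarith)
    calc ((E1 ∪ E2).card : ℝ) ≤ C1 * (N : ℝ) ^ (1 - κ) + C2 * (N : ℝ) ^ (7 / 8 : ℝ) := by linarith
      _ ≤ C1 * (N : ℝ) ^ (1 - c) + C2 * (N : ℝ) ^ (1 - c) :=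
          add_le_add (mul_le_mul_of_nonneg_left h4 hC1.le) (mul_le_mul_of_nonneg_left h5 hC2.le)
      _ = _ := by ring
  · intro n hn1 hnN hnE d hd hsq
    rw [mem_union] at hnE
    push Not at hnE
    obtain ⟨ha0, hsmall⟩ := hE2' n hn1 hnN hnE.2
    obtain ⟨z, hz⟩ := hsq
    have hdne : d ≠ 0 := hd.ne
    have hd16 : (N : ℝ) ^ (1 / 16 : ℝ) < |(d : ℝ)| := by
      by_contra h
      push Not at h
      exact hsmall d hdne h z hz
    have hN16 : 1 ≤ (N : ℝ) ^ (1 / 16 : ℝ) := Real.one_le_rpow hNr1 (by norm_num)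
    refine ⟨?_, ha0, hd16, ?_⟩
    · rintro rfl
      have : |((1 : ℤ) : ℝ)| = 1 := by norm_num
      rw [this] at hd16
      linarith
    intro y hy1 hy2
    have hz0 : z ≠ 0 := by
      rintro rfl
      rw [mul_zero] at hz
      rcases mul_eq_zero.mp hz with h | h
      · exact ha0 h
      · exact hdne h
    have hD1 : 1 < |(d : ℝ)| := by linarith
    have hD0 : 0 < |(d : ℝ)| := by linarith
    -- sizes
    have hnr : (1 : ℝ) ≤ n := by exact_mod_cast hn1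
    have hnNr : (n : ℝ) ≤ N := by exact_mod_cast hnN
    have haN : 4 * |((f.eval (n : ℤ) : ℤ) : ℝ)| ≤ (N : ℝ) ^ d0 := by
      have h3 := hCf n hn1
      have h4 : (n : ℝ) ^ f.natDegree ≤ (N : ℝ) ^ f.natDegree :=
        pow_le_pow_left₀ (by linarith) hnNr _
      have h5 : Cf * (n : ℝ) ^ f.natDegree ≤ Cf * (N : ℝ) ^ f.natDegree :=
        mul_le_mul_of_nonneg_left h4 (by linarith)
      have h6 : 0 ≤ (N : ℝ) ^ f.natDegree := by positivity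
      rw [hd0, pow_succ]
      calc 4 * |((f.eval (n : ℤ) : ℤ) : ℝ)| ≤ (N : ℝ) ^ f.natDegree * (4 * Cf) := by linarith
        _ ≤ (N : ℝ) ^ f.natDegree * N := mul_le_mul_of_nonneg_left g2 h6
    have hdN : |(d : ℝ)| ≤ (N : ℝ) ^ d0 := (disc_size _ d z ha0 hz hd).trans haN
    have hzN : |(z : ℝ)| ≤ (N : ℝ) ^ d0 := by
      have h3 : |(z : ℝ)| * |(z : ℝ)| = |((f.eval (n : ℤ) : ℤ) : ℝ)| * |(d : ℝ)| := by
        rw [← abs_mul, ← abs_mul]
        congr 1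
        exact_mod_cast hz.symm
      have h4 : |(z : ℝ)| * |(z : ℝ)| ≤ (N : ℝ) ^ d0 * (N : ℝ) ^ d0 := by
        rw [h3]
        refine mul_le_mul ?_ hdN (abs_nonneg _) (by positivity)
        have := abs_nonneg ((f.eval (n : ℤ) : ℤ) : ℝ)
        linarith
      exact abs_le_of_sq_le_sq' (by nlinarith) (by positivity) |>.2
    have hlogN0 : 0 ≤ Real.log N := Real.log_nonneg hNr1
    have hzpos : 0 < |(z : ℝ)| := abs_pos.mpr (by exact_mod_cast hz0)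
    have hlz : Real.log |(z : ℝ)| ≤ d0 * Real.log N := by
      have := Real.log_le_log hzpos hzN
      rwa [Real.log_pow] at this
    have hlD : Real.log N / 16 ≤ Real.log |(d : ℝ)| := by
      have := Real.log_le_log (by linarith) hd16.le
      rw [Real.log_rpow hN0] at this
      linarith
    have hlD0 : 0 ≤ Real.log |(d : ℝ)| := Real.log_nonneg hD1.le
    -- `y`
    have hyY1 : Y1 ≤ y := by
      refine g1.trans (le_trans ?_ hy1)
      exact Real.rpow_le_rpow (by positivity) hlD hA0.le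
    have hyr1 : (1 : ℝ) ≤ y := hY11.trans hyY1
    have hy0 : (0 : ℝ) < y := by linarith
    have hy1n : 1 ≤ y := by exact_mod_cast hyr1
    have hlogDy : Real.log |(d : ℝ)| ≤ (y : ℝ) ^ (1 / A) := by
      have h3 := Real.rpow_le_rpow (Real.rpow_nonneg hlD0 _) hy1 hiAp.le
      rwa [← Real.rpow_mul hlD0, mul_one_div_cancel hA0.ne', Real.rpow_one] at h3
    have hlogNy : Real.log N ≤ 16 * (y : ℝ) ^ (1 / A) := by linarith
    have hyρ0 : 0 < (y : ℝ) ^ ρ := Real.rpow_pos_of_pos hy0 _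
    have hyAρ : (y : ℝ) ^ (1 / A) ≤ (y : ℝ) ^ ρ :=
      Real.rpow_le_rpow_of_exponent_le hyr1 (by linarith)
    have hL0 : Real.log N ^ A1 ≤ 16 ^ A1 * (y : ℝ) ^ ρ := by
      calc Real.log N ^ A1 ≤ (16 * (y : ℝ) ^ (1 / A)) ^ A1 :=
            Real.rpow_le_rpow hlogN0 hlogNy hA10.le
        _ = 16 ^ A1 * (y : ℝ) ^ θ := by
            rw [Real.mul_rpow (by norm_num) (by positivity), ← Real.rpow_mul hy0.le]
            congr 2
            rw [hθ]; ring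
        _ ≤ 16 ^ A1 * (y : ℝ) ^ ρ := by
            have := Real.rpow_le_rpow_of_exponent_le hyr1 hρθ
            gcongr
    have hone : 1 ≤ (y : ℝ) ^ ρ := Real.one_le_rpow hyr1 hρ0.le
    have hyU : (y : ℝ) ≤ (N : ℝ) ^ κ := by
      calc (y : ℝ) ≤ |(d : ℝ)| ^ c := hy2
        _ ≤ ((N : ℝ) ^ d0) ^ c := Real.rpow_le_rpow hD0.le hdN hc0.le
        _ = (N : ℝ) ^ (d0 * c) := by rw [← Real.rpow_natCast, ← Real.rpow_mul hN0.le]
        _ ≤ (N : ℝ) ^ κ := Real.rpow_le_rpow_of_exponent_le hNr1 hcd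
    have hbal := hE1' n hnN hnE.1 y hyU
    have hsp := split_count d hd.mod hdne y
    have hch := symbol_change f n d z hz hz0 y
    have hnl := natlog_le y hy1n
    have hly0 : 0 ≤ Real.log y := Real.log_nonneg hyr1
    have hyγ : (y : ℝ) ^ (1 - γ) ≤ (y : ℝ) ^ ρ := Real.rpow_le_rpow_of_exponent_le hyr1 hργ
    have hyγ0 : 0 ≤ (y : ℝ) ^ (1 - γ) := Real.rpow_nonneg hy0.le _
    have hterm : ((Nat.log 2 y : ℝ) + 1) * (y : ℝ) ^ (1 - γ) ≤
        (2 * Real.log y + 1) * (y : ℝ) ^ ρ :=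
      mul_le_mul (by linarith) hyγ hyγ0 (by linarith)
    have hlz' : Real.log |(z : ℝ)| ≤ 16 * d0 * (y : ℝ) ^ ρ := by
      calc Real.log |(z : ℝ)| ≤ d0 * Real.log N := hlz
        _ ≤ d0 * (16 * (y : ℝ) ^ (1 / A)) := by gcongr
        _ ≤ d0 * (16 * (y : ℝ) ^ ρ) := by gcongr
        _ = _ := by ring
    have herr := hY1 y hyY1
    have hπ0 : (0 : ℝ) ≤ (PR y).card := Nat.cast_nonneg _
    have h16y : 0 ≤ (16 : ℝ) ^ A1 * (y : ℝ) ^ ρ := by positivity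
    have hexp : (C3 + Real.log y) * (y : ℝ) ^ ρ = 3 * (y : ℝ) ^ ρ + 16 ^ A1 * (y : ℝ) ^ ρ +
        32 * d0 * (y : ℝ) ^ ρ + Real.log y * (y : ℝ) ^ ρ := by rw [hC3]; ring
    have hexp2 : (2 * Real.log y + 1) * (y : ℝ) ^ ρ =
        2 * (Real.log y * (y : ℝ) ^ ρ) + (y : ℝ) ^ ρ := by ring
    rw [hexp] at herr
    rw [hexp2] at hterm
    have hlogDρ : Real.log |(d : ℝ)| ≤ (y : ℝ) ^ ρ := hlogDy.trans hyAρ
    have hεπ : ε / 4 * (PR y).card / 2 + ε / 2 * (PR y).card ≤ ε * (PR y).card := by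
      have : 0 ≤ ε * (PR y).card := mul_nonneg hε.le hπ0
      linarith
    linarith

end Pool.Agent.TH869.EVF
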