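import Mathlib

set_option autoImplicit false

/-!
# Dickson polynomials modulo primes
-/

namespace Pool.Agent.TH869.EVF

open Polynomial

section ring

variable {R : Type*} [CommRing R]

theorem dickson_eval (u v : R) (n : ℕ) :
    (dickson 1 (u * v) n).eval (u + v) = u ^ n + v ^ n := by
  induction n using Nat.twoStepInduction with
  | zero => simp [dickson_zero]; norm_num
  | one => simp
  | more n h1 h2 =>
    rw [dickson_add_two, eval_sub, eval_mul, eval_mul, eval_X, eval_C, h1, h2]
    ring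

theorem dickson_der (u v : R) (n : ℕ) :
    (derivative (dickson 1 (u * v) n)).eval (u + v) * (u - v) = n * (u ^ n - v ^ n) := by
  induction n using Nat.twoStepInduction with
  | zero =>
    have : (dickson 1 (u * v) 0 : R[X]) = C 2 := by
      rw [dickson_zero, Nat.cast_one, map_ofNat]; norm_num
    rw [this]; simp
  | one => simp
  | more n h1 h2 =>
    rw [dickson_add_two, derivative_sub, derivative_mul, derivative_mul, derivative_X,
      derivative_C, eval_sub, eval_add, eval_add, eval_mul, eval_mul, eval_mul, eval_mul, eval_X,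
      eval_C, eval_zero, eval_one, dickson_eval]
    have e : ((1 : R) * (u ^ (n + 1) + v ^ (n + 1)) +
        (u + v) * (derivative (dickson 1 (u * v) (n + 1))).eval (u + v) -
        (0 * (dickson 1 (u * v) n).eval (u + v) +
          u * v * (derivative (dickson 1 (u * v) n)).eval (u + v))) * (u - v) =
        (u ^ (n + 1) + v ^ (n + 1)) * (u - v) +
        (u + v) * ((derivative (dickson 1 (u * v) (n + 1))).eval (u + v) * (u - v)) -
        u * v * ((derivative (dickson 1 (u * v) n)).eval (u + v) * (u - v)) := by ring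
    rw [e, h1, h2]
    push_cast
    ring

theorem dickson_monic [Nontrivial R] (a : R) (n : ℕ) :
    (dickson 1 a n).natDegree ≤ n ∧
      (1 ≤ n → (dickson 1 a n).Monic ∧ (dickson 1 a n).natDegree = n) := by
  induction n using Nat.twoStepInduction with
  | zero =>
    have : (dickson 1 a 0 : R[X]) = C 2 := by
      rw [dickson_zero, Nat.cast_one, map_ofNat]; norm_num
    rw [this]; simp
  | one => simp [monic_X]
  | more n h1 h2 =>
    obtain ⟨h3, h4⟩ := h2.2 (by omega)
    have h5 : (X * dickson 1 a (n + 1) : R[X]).natDegree = n + 2 := by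
      rw [natDegree_X_mul h3.ne_zero, h4]
    have h6 : (C a * dickson 1 a n : R[X]).natDegree ≤ n :=
      (natDegree_C_mul_le _ _).trans h1.1
    have h7 : (dickson 1 a (n + 2) : R[X]).natDegree = n + 2 := by
      rw [dickson_add_two, natDegree_sub_eq_left_of_natDegree_lt (by omega), h5]
    refine ⟨h7.le, fun _ => ⟨?_, h7⟩⟩
    rw [dickson_add_two]
    apply (monic_X.mul h3).sub_of_left
    apply degree_lt_degree
    omega

end ring

section modp

variable (p : ℕ) [Fact p.Prime]

theorem exists_uv (x a : ZMod p) : ∃ u v : AlgebraicClosure (ZMod p),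
    u + v = algebraMap (ZMod p) (AlgebraicClosure (ZMod p)) x ∧
    u * v = algebraMap (ZMod p) (AlgebraicClosure (ZMod p)) a ∧ u ^ (p ^ 2) = u := by
  set L := AlgebraicClosure (ZMod p) with hL
  have : CharP L p := charP_of_injective_algebraMap (algebraMap (ZMod p) L).injective p
  set X' := algebraMap (ZMod p) L x with hX'
  set A' := algebraMap (ZMod p) L a with hA'
  have hXp : X' ^ p = X' := by rw [hX', ← map_pow, ZMod.pow_card]
  have hAp : A' ^ p = A' := by rw [hA', ← map_pow, ZMod.pow_card]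
  obtain ⟨u, hu⟩ := IsAlgClosed.exists_root (X ^ 2 - C X' * X + C A' : L[X]) (by
    have : (X ^ 2 - C X' * X + C A' : L[X]) = C 1 * X ^ 2 + C (-X') * X + C A' := by
      rw [map_one, map_neg]; ring
    rw [this, degree_quadratic one_ne_zero]
    norm_num)
  have hu2 : u ^ 2 - X' * u + A' = 0 := by
    have := hu
    simpa [IsRoot] using this
  set v := X' - u with hv
  have huv : u * v = A' := by
    rw [hv]; linear_combination -hu2
  have h1 : (u ^ p - u) * (u ^ p - v) = 0 := by
    have h2 : (u ^ 2 - X' * u + A') ^ p = 0 := by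
      rw [hu2, zero_pow (Fact.out : p.Prime).ne_zero]
    rw [add_pow_char, sub_pow_char, mul_pow, hXp, hAp, ← pow_mul, mul_comm 2 p, pow_mul] at h2
    calc (u ^ p - u) * (u ^ p - v) = (u ^ p) ^ 2 - (u + v) * u ^ p + u * v := by ring
      _ = (u ^ p) ^ 2 - X' * u ^ p + A' := by rw [huv, hv]; ring
      _ = 0 := h2
  refine ⟨u, v, by rw [hv]; ring, huv, ?_⟩
  rcases mul_eq_zero.mp h1 with h | h
  · have h3 : u ^ p = u := sub_eq_zero.mp h
    rw [sq, pow_mul, h3, h3]
  · have h3 : u ^ p = v := sub_eq_zero.mp h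
    have h4 : v ^ p = u := by
      rw [hv, sub_pow_char, hXp, h3, hv]; ring
    rw [sq, pow_mul, h3, h4]

theorem eq_of_pow_eq {L : Type*} [Field L] {m n : ℕ} (hm : 0 < m) (hcop : Nat.Coprime n (m - 1))
    {u w : L} (hu0 : u ≠ 0) (hw0 : w ≠ 0) (hu : u ^ m = u) (hw : w ^ m = w) (h : u ^ n = w ^ n) :
    u = w := by
  have h1 : ∀ t : L, t ≠ 0 → t ^ m = t → t ^ (m - 1) = 1 := by
    intro t ht h
    have : t ^ (m - 1) * t = t := by rw [← pow_succ, Nat.sub_add_cancel hm, h]
    exact mul_right_cancel₀ ht (this.trans (one_mul t).symm)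
  have h2 : (u / w) ^ n = 1 := by
    rw [div_pow, h, div_self (pow_ne_zero _ hw0)]
  have h3 : (u / w) ^ (m - 1) = 1 := by
    rw [div_pow, h1 u hu0 hu, h1 w hw0 hw, div_one]
  have h4 : orderOf (u / w) ∣ 1 := by
    rw [← hcop]
    exact Nat.dvd_gcd (orderOf_dvd_of_pow_eq_one h2) (orderOf_dvd_of_pow_eq_one h3)
  have h5 : u / w = 1 := orderOf_eq_one_iff.mp (Nat.dvd_one.mp h4)
  exact (div_eq_one_iff_eq hw0).mp h5

variable {p}

theorem dickson_surj {n : ℕ} (hcop : Nat.Coprime n (p ^ 2 - 1)) {a : ZMod p} (ha : a ≠ 0) :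
    Function.Surjective (fun x : ZMod p => (dickson 1 a n).eval x) := by
  apply Finite.surjective_of_injective
  intro x y hxy
  simp only at hxy
  set L := AlgebraicClosure (ZMod p) with hL
  obtain ⟨u, v, h1, h2, h3⟩ := exists_uv p x a
  obtain ⟨u', v', h1', h2', h3'⟩ := exists_uv p y a
  have hp := (Fact.out : p.Prime)
  have ha' : algebraMap (ZMod p) L a ≠ 0 := by
    rw [Ne, map_eq_zero]; exact ha
  have hu0 : u ≠ 0 := by rintro rfl; rw [zero_mul] at h2; exact ha' h2.symm
  have hu0' : u' ≠ 0 := by rintro rfl; rw [zero_mul] at h2'; exact ha' h2'.symm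
  have hv0' : v' ≠ 0 := by rintro rfl; rw [mul_zero] at h2'; exact ha' h2'.symm
  have hmap : ∀ (z : ZMod p) (s t : L), s + t = algebraMap (ZMod p) L z →
      s * t = algebraMap (ZMod p) L a →
      algebraMap (ZMod p) L ((dickson 1 a n).eval z) = s ^ n + t ^ n := by
    intro z s t hs ht
    rw [← dickson_eval, ht, hs, ← map_dickson, eval_map, eval₂_at_apply]
  have hE : u ^ n + v ^ n = u' ^ n + v' ^ n := by
    rw [← hmap x u v h1 h2, ← hmap y u' v' h1' h2', hxy]
  have hP : u ^ n * v ^ n = u' ^ n * v' ^ n := by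
    rw [← mul_pow, ← mul_pow, h2, h2']
  have hprod : (u ^ n - u' ^ n) * (u ^ n - v' ^ n) = 0 := by
    calc (u ^ n - u' ^ n) * (u ^ n - v' ^ n)
        = (u ^ n) ^ 2 - (u' ^ n + v' ^ n) * u ^ n + u' ^ n * v' ^ n := by ring
      _ = 0 := by rw [← hE, ← hP]; ring
  have hv3' : v' ^ (p ^ 2) = v' := by
    have h4 : (u' * v') ^ (p ^ 2) = u' * v' := by
      rw [h2', ← map_pow, sq, pow_mul, ZMod.pow_card, ZMod.pow_card]
    rw [mul_pow, h3'] at h4
    exact mul_left_cancel₀ hu0' h4
  have hinj : Function.Injective (algebraMap (ZMod p) L) := (algebraMap (ZMod p) L).injective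
  apply hinj
  rw [← h1, ← h1']
  have hp2 : 0 < p ^ 2 := pow_pos hp.pos 2
  rcases mul_eq_zero.mp hprod with h | h
  · have h5 : u = u' := eq_of_pow_eq hp2 hcop hu0 hu0' h3 h3' (sub_eq_zero.mp h)
    have h6 : v = v' := by
      have : u * v = u * v' := by rw [h2, h5, h2']
      exact mul_left_cancel₀ hu0 this
    rw [h5, h6]
  · have h5 : u = v' := eq_of_pow_eq hp2 hcop hu0 hv0' h3 hv3' (sub_eq_zero.mp h)
    have h6 : v = u' := by
      have : u * v = u * u' := by rw [h2, h5, mul_comm v' u', h2']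
      exact mul_left_cancel₀ hu0 this
    rw [h5, h6, add_comm]

/-- a simple root modulo `p` of a Dickson polynomial minus a constant -/
theorem dickson_root {n : ℕ} (hpn : ¬ p ∣ n) (hcop : Nat.Coprime n (p ^ 2 - 1)) {a b : ZMod p}
    (ha : a ≠ 0) (hb : b ^ 2 ≠ 4 * a ^ n) :
    ∃ r : ZMod p, (dickson 1 a n).eval r = b ∧ (derivative (dickson 1 a n)).eval r ≠ 0 := by
  obtain ⟨r, hr⟩ := dickson_surj hcop ha b
  simp only at hr
  refine ⟨r, hr, fun h0 => hb ?_⟩
  set L := AlgebraicClosure (ZMod p) with hL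
  have : CharP L p := charP_of_injective_algebraMap (algebraMap (ZMod p) L).injective p
  obtain ⟨u, v, h1, h2, -⟩ := exists_uv p r a
  have h3 := dickson_der u v n
  have h4 : (derivative (dickson 1 (u * v) n)).eval (u + v) = 0 := by
    rw [h2, h1, ← map_dickson, derivative_map, eval_map, eval₂_at_apply, h0, map_zero]
  rw [h4, zero_mul] at h3
  have hn0 : ((n : ℕ) : L) ≠ 0 := by
    rw [Ne, CharP.cast_eq_zero_iff L p]; exact hpn
  have h5 : u ^ n = v ^ n := by
    rcases mul_eq_zero.mp h3.symm with h | h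
    · exact absurd h hn0
    · exact sub_eq_zero.mp h
  have h6 : algebraMap (ZMod p) L b = u ^ n + v ^ n := by
    rw [← hr, ← dickson_eval, h2, h1, ← map_dickson, eval_map, eval₂_at_apply]
  apply (algebraMap (ZMod p) L).injective
  rw [map_pow, map_mul, map_pow, h6, ← h2, mul_pow, ← h5, map_ofNat]
  ring

/-- the pure case -/
theorem pure_root {n : ℕ} (hn : 1 ≤ n) (hpn : ¬ p ∣ n) (hcop : Nat.Coprime n (p - 1)) {b : ZMod p}
    (hb : b ≠ 0) :
    ∃ r : ZMod p, (dickson 1 (0 : ZMod p) n).eval r = b ∧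
      (derivative (dickson 1 (0 : ZMod p) n)).eval r ≠ 0 := by
  have hp := (Fact.out : p.Prime)
  have hsurj : Function.Surjective (fun x : ZMod p => x ^ n) := by
    apply Finite.surjective_of_injective
    intro x y hxy
    simp only at hxy
    by_cases hx : x = 0
    · rw [hx, zero_pow (by omega)] at hxy
      have := pow_eq_zero_iff (by omega : n ≠ 0) |>.mp hxy.symm
      rw [hx, this]
    · by_cases hy : y = 0
      · rw [hy, zero_pow (by omega)] at hxy
        exact absurd (pow_eq_zero_iff (by omega : n ≠ 0) |>.mp hxy) hx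
      · exact eq_of_pow_eq hp.pos hcop hx hy (ZMod.pow_card x) (ZMod.pow_card y) hxy
  obtain ⟨r, hr⟩ := hsurj b
  simp only at hr
  have h1 := dickson_eval r (0 : ZMod p) n
  have h2 := dickson_der r (0 : ZMod p) n
  rw [mul_zero, add_zero, zero_pow (by omega), add_zero] at h1
  rw [mul_zero, add_zero, zero_pow (by omega), sub_zero, sub_zero, hr] at h2
  refine ⟨r, h1.trans hr, fun h0 => ?_⟩
  rw [h0, zero_mul] at h2
  rcases mul_eq_zero.mp h2.symm with h | h
  · rw [CharP.cast_eq_zero_iff (ZMod p) p] at h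
    exact hpn h
  · exact hb h

end modp

end Pool.Agent.TH869.EVF
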