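import Mathlib

set_option autoImplicit false

/-!
# Dyadic decomposition of sums over primes
-/

namespace Pool.Agent.TH869.EVF

open Finset

/-- the primes in `(z/2, z]` -/
def Qz (z : ℕ) : Finset ℕ := (Ioc (z / 2) z).filter Nat.Prime

/-- the primes up to `y` -/
def PR (y : ℕ) : Finset ℕ := (range (y + 1)).filter Nat.Prime

theorem mem_Qz {z p : ℕ} (hp : p ∈ Qz z) : p.Prime ∧ (z : ℝ) / 2 ≤ p ∧ p ≤ z := by
  rw [Qz, mem_filter, mem_Ioc] at hp
  refine ⟨hp.2, ?_, hp.1.2⟩
  have h1 : z ≤ 2 * p := by omega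
  have h2 : (z : ℝ) ≤ 2 * p := by exact_mod_cast h1
  linarith

theorem card_Qz (z : ℕ) : ((Qz z).card : ℝ) ≤ 2 * ((z : ℝ) / 2) := by
  have h1 : (Qz z).card ≤ z := by
    calc (Qz z).card ≤ (Ioc (z / 2) z).card := card_filter_le _ _
      _ = z - z / 2 := Nat.card_Ioc _ _
      _ ≤ z := Nat.sub_le _ _
  have h2 : ((Qz z).card : ℝ) ≤ z := by exact_mod_cast h1
  linarith

theorem PR_card (y : ℕ) : (PR y).card = Nat.primeCounting y := by
  rw [Nat.primeCounting, Nat.primeCounting', Nat.count_eq_card_filter_range]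
  rfl

theorem PR_split (y : ℕ) : PR y = PR (y / 2) ∪ Qz y := by
  ext p
  rw [mem_union, PR, PR, Qz, mem_filter, mem_filter, mem_filter, mem_range, mem_range, mem_Ioc]
  constructor
  · rintro ⟨h1, h2⟩
    by_cases h : p < y / 2 + 1
    · left; exact ⟨h, h2⟩
    · right; exact ⟨⟨by omega, by omega⟩, h2⟩
  · rintro (⟨h1, h2⟩ | ⟨⟨h1, h2⟩, h3⟩)
    · exact ⟨by omega, h2⟩
    · exact ⟨by omega, h3⟩

theorem PR_disj (y : ℕ) : Disjoint (PR (y / 2)) (Qz y) := by
  rw [disjoint_left]
  intro p hp hq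
  rw [PR, mem_filter, mem_range] at hp
  rw [Qz, mem_filter, mem_Ioc] at hq
  omega

theorem dyadic (g : ℕ → ℝ) (hg : ∀ p, |g p| ≤ 1) (ε γ L0 U : ℝ) (hL0 : 0 ≤ L0) (hε : 0 ≤ ε)
    (hγ : γ ≤ 1)
    (h : ∀ z : ℕ, L0 ≤ z → (z : ℝ) ≤ U → |∑ p ∈ Qz z, g p| ≤ ε * (Qz z).card + (z : ℝ) ^ (1 - γ)) :
    ∀ y : ℕ, (y : ℝ) ≤ U → |∑ p ∈ PR y, g p| ≤
      ε * (PR y).card + ((Nat.log 2 y : ℝ) + 1) * (y : ℝ) ^ (1 - γ) + L0 := by
  intro y
  induction y using Nat.strong_induction_on with
  | _ y ih =>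
    intro hyU
    have hy0 : (0 : ℝ) ≤ (y : ℝ) ^ (1 - γ) := Real.rpow_nonneg (by positivity) _
    rcases lt_or_ge (y : ℝ) L0 with hlt | hge
    · have h1 : |∑ p ∈ PR y, g p| ≤ y := by
        refine (abs_sum_le_sum_abs _ _).trans ?_
        calc ∑ p ∈ PR y, |g p| ≤ ∑ p ∈ PR y, (1 : ℝ) := sum_le_sum fun p _ => hg p
          _ = (PR y).card := by simp
          _ ≤ y := by
            have : PR y ⊆ Icc 1 y := by
              intro p hp
              rw [PR, mem_filter, mem_range] at hp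
              rw [mem_Icc]
              exact ⟨hp.2.one_lt.le, by omega⟩
            have h2 := card_le_card this
            rw [Nat.card_Icc, Nat.add_sub_cancel] at h2
            exact_mod_cast h2
      have h2 : 0 ≤ ε * ((PR y).card : ℝ) := by positivity
      have h3 : 0 ≤ ((Nat.log 2 y : ℝ) + 1) * (y : ℝ) ^ (1 - γ) := by positivity
      linarith
    · rcases Nat.eq_zero_or_pos y with rfl | hy
      · have : PR 0 = ∅ := by
          rw [PR]; decide
        rw [this, sum_empty, abs_zero]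
        positivity
      · have hlt2 : y / 2 < y := Nat.div_lt_self hy (by norm_num)
        have hle2 : ((y / 2 : ℕ) : ℝ) ≤ y := by exact_mod_cast hlt2.le
        have h1 := ih (y / 2) hlt2 (hle2.trans hyU)
        have h2 := h y hge hyU
        rw [PR_split, sum_union (PR_disj y), card_union_of_disjoint (PR_disj y)]
        have h3 : (((y / 2 : ℕ) : ℝ)) ^ (1 - γ) ≤ (y : ℝ) ^ (1 - γ) :=
          Real.rpow_le_rpow (by positivity) hle2 (by linarith)
        push_cast at *
        rcases Nat.lt_or_ge y 2 with hy2 | hy2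
        · have hy1 : y = 1 := by omega
          subst hy1
          have e1 : PR (1 / 2) = ∅ := by rw [PR]; decide
          rw [e1]
          simp only [sum_empty, zero_add, card_empty, Nat.cast_zero, mul_zero]
          have e2 : (Nat.log 2 1 : ℝ) = 0 := by simp
          rw [e2]
          linarith
        · have hlog : (Nat.log 2 y : ℝ) = Nat.log 2 (y / 2) + 1 := by
            rw [Nat.log_div_base]
            have : 1 ≤ Nat.log 2 y := Nat.log_pos (by norm_num) hy2
            push_cast [this]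
            ring
          have h4 : ((Nat.log 2 (y / 2) : ℝ) + 1) * (((y / 2 : ℕ) : ℝ)) ^ (1 - γ) ≤
              ((Nat.log 2 (y / 2) : ℝ) + 1) * (y : ℝ) ^ (1 - γ) :=
            mul_le_mul_of_nonneg_left h3 (by positivity)
          have h5 := abs_add_le (∑ p ∈ PR (y / 2), g p) (∑ p ∈ Qz y, g p)
          rw [hlog]
          linarith

end Pool.Agent.TH869.EVF
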