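import Pool.Agent.TH869.EVF.Fin2b

set_option autoImplicit false

/-!
# Class group torsion of the quadratic fields in a polynomial family
-/

namespace Pool.Agent.TH869.EVF

open Polynomial NumberField Finset Filter Topology

/-- The bound for a single field, when the torsion bound holds with enough norms. -/
theorem one_field (f : ℤ[X]) (d0 : ℕ) (m : ℕ) (η : ℝ) (hη0 : 0 < η) (hη4 : η ≤ 1 / 4)
    (hηm : η * m = 1 / 2) (ε : ℝ) (hηε : η ≤ ε / 16) (ε1 : ℝ) (hε10 : 0 < ε1)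
    (hε1 : ε1 * d0 ≤ ε / 4) (C1 : ℝ) (hC10 : 0 < C1)
    (N : ℕ) (hNr1 : (1 : ℝ) < N) (hu1 : (3 : ℝ) ≤ (N : ℝ) ^ (η / 2)) (hg1 : 301 ≤ (N : ℝ) ^ η)
    (hPcard : ∀ j : ℕ, 1 ≤ j → Yg η N j ^ (1 - η) ≤ (Pg η N j).card)
    (hlog : 16 * (d0 * Real.log N) ≤ (N : ℝ) ^ (η / 2))
    (n : ℕ) (hnN : n ≤ N) (hnE : n ∉ Ex f η m N) (K : Type) [Field K] [NumberField K]
    (hC1 : ∀ l : ℕ, 1 ≤ l → ∀ G : Finset ℕ,
      (∀ p ∈ G, p.Prime ∧ (2 * (150 * p) ^ l) ^ (2 * (2 - 1)) < (discr K).natAbs ∧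
        ¬ p ∣ (discr K).natAbs ∧ ∃ P : Ideal (𝓞 K), Ideal.absNorm P = p) →
      (Nat.card {c : ClassGroup (𝓞 K) // c ^ l = 1} : ℝ) * ((G.card : ℝ) + 1) ≤
        C1 * l ^ 2 * ((discr K).natAbs : ℝ) ^ (1 / 2 + ε1))
    (hK : Module.finrank ℚ K = 2) (x : K) (hx : IntermediateField.adjoin ℚ {x} = ⊤)
    (hxn : x ^ 2 = ((f.eval (n : ℤ) : ℤ) : K))
    (hD3 : 3 ≤ (discr K).natAbs)
    (hDN : ((discr K).natAbs : ℝ) ≤ (N : ℝ) ^ d0)
    (haN : |((f.eval (n : ℤ) : ℤ) : ℝ)| ≤ (N : ℝ) ^ d0)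
    (l : ℕ) (hl : 1 ≤ l) :
    (Nat.card {c : ClassGroup (𝓞 K) // c ^ l = 1} : ℝ) ≤
      (8 * C1) * l ^ 2 * (N : ℝ) ^ ε * ((discr K).natAbs : ℝ) ^ (1 / 2 : ℝ) /
        min (((discr K).natAbs : ℝ) ^ (1 / (2 * l) : ℝ)) ((N : ℝ) ^ (1 / 2 : ℝ)) := by
  have hNpos : (0 : ℝ) < N := by linarith
  have ha0 : f.eval (n : ℤ) ≠ 0 := by
    intro h
    rw [Ex, mem_union, Ez, mem_filter, mem_range] at hnE
    exact hnE (Or.inl ⟨by omega, h⟩)
  set D := (discr K).natAbs with hD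
  have hDr : (3 : ℝ) ≤ D := by exact_mod_cast hD3
  have hDpos : (0 : ℝ) < D := by linarith
  have hlogD : Real.log D ≤ d0 * Real.log N := by
    have := Real.log_le_log hDpos hDN
    rwa [Real.log_pow] at this
  have hloga : Real.log |((f.eval (n : ℤ) : ℤ) : ℝ)| ≤ d0 * Real.log N := by
    have hapos : 0 < |((f.eval (n : ℤ) : ℤ) : ℝ)| := abs_pos.mpr (by exact_mod_cast ha0)
    have := Real.log_le_log hapos haN
    rwa [Real.log_pow] at this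
  have hDε : (D : ℝ) ^ ε1 ≤ (N : ℝ) ^ (ε / 4) := by
    calc (D : ℝ) ^ ε1 ≤ ((N : ℝ) ^ d0) ^ ε1 := Real.rpow_le_rpow hDpos.le hDN hε10.le
      _ = (N : ℝ) ^ (ε1 * d0) := by
        rw [← Real.rpow_natCast, ← Real.rpow_mul hNpos.le, mul_comm]
      _ ≤ (N : ℝ) ^ (ε / 4) := Real.rpow_le_rpow_of_exponent_le hNr1.le hε1
  set v : ℝ := min ((D : ℝ) ^ (1 / (2 * l) : ℝ)) ((N : ℝ) ^ (1 / 2 : ℝ)) with hv
  have hD1 : 1 ≤ (D : ℝ) ^ (1 / (2 * l) : ℝ) := Real.one_le_rpow (by linarith) (by positivity)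
  have hN12 : 1 ≤ (N : ℝ) ^ (1 / 2 : ℝ) := Real.one_le_rpow hNr1.le (by norm_num)
  have hv1 : 1 ≤ v := le_min hD1 hN12
  have hv0 : 0 < v := by linarith
  set T : ℝ := (Nat.card {c : ClassGroup (𝓞 K) // c ^ l = 1} : ℝ) with hT
  have hT0 : 0 ≤ T := Nat.cast_nonneg _
  have hDh : 0 < (D : ℝ) ^ (1 / 2 : ℝ) := Real.rpow_pos_of_pos hDpos _
  have hDsplit : (D : ℝ) ^ (1 / 2 + ε1) ≤ (D : ℝ) ^ (1 / 2 : ℝ) * (N : ℝ) ^ (ε / 4) := by
    rw [Real.rpow_add hDpos]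
    exact mul_le_mul_of_nonneg_left hDε hDh.le
  have hpre : 0 ≤ C1 * (l : ℝ) ^ 2 := by positivity
  rw [le_div_iff₀ hv0]
  have hNe : ∀ s : ℝ, s ≤ ε → (N : ℝ) ^ s ≤ (N : ℝ) ^ ε := fun s hs =>
    Real.rpow_le_rpow_of_exponent_le hNr1.le hs
  rcases lt_or_ge v ((N : ℝ) ^ (2 * η)) with hcase | hcase
  · -- trivial bound
    have h1 := hC1 l hl ∅ (by simp)
    simp only [card_empty, Nat.cast_zero, zero_add, mul_one] at h1
    have h2 : T ≤ C1 * l ^ 2 * ((D : ℝ) ^ (1 / 2 : ℝ) * (N : ℝ) ^ (ε / 4)) :=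
      h1.trans (mul_le_mul_of_nonneg_left hDsplit hpre)
    have h3 : (N : ℝ) ^ (ε / 4) * (N : ℝ) ^ (2 * η) ≤ (N : ℝ) ^ ε := by
      rw [← Real.rpow_add hNpos]
      exact hNe _ (by linarith)
    calc T * v ≤ (C1 * l ^ 2 * ((D : ℝ) ^ (1 / 2 : ℝ) * (N : ℝ) ^ (ε / 4))) *
          (N : ℝ) ^ (2 * η) := mul_le_mul h2 hcase.le hv0.le (hT0.trans h2)
      _ = (C1 * l ^ 2 * (D : ℝ) ^ (1 / 2 : ℝ)) * ((N : ℝ) ^ (ε / 4) * (N : ℝ) ^ (2 * η)) := by ring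
      _ ≤ (C1 * l ^ 2 * (D : ℝ) ^ (1 / 2 : ℝ)) * (N : ℝ) ^ ε :=
          mul_le_mul_of_nonneg_left h3 (by positivity)
      _ ≤ 8 * ((C1 * l ^ 2 * (D : ℝ) ^ (1 / 2 : ℝ)) * (N : ℝ) ^ ε) := by
          have : 0 ≤ (C1 * l ^ 2 * (D : ℝ) ^ (1 / 2 : ℝ)) * (N : ℝ) ^ ε := by positivity
          linarith
      _ = _ := by ring
  · -- the main case
    set t : ℝ := Real.logb N v with ht
    have hvt : (N : ℝ) ^ t = v := Real.rpow_logb hNpos hNr1.ne' hv0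
    have ht2 : 2 * η ≤ t := by
      rw [← hvt] at hcase
      exact (Real.rpow_le_rpow_left_iff hNr1).mp hcase
    have hth : t ≤ 1 / 2 := by
      have : (N : ℝ) ^ t ≤ (N : ℝ) ^ (1 / 2 : ℝ) := by rw [hvt]; exact min_le_right _ _
      exact (Real.rpow_le_rpow_left_iff hNr1).mp this
    obtain ⟨j, hj1, hjm, hjt1, hjt2⟩ := pick_grid m η hη0 hηm t ht2 hth
    obtain ⟨G, hG1, hG2⟩ := many_norms f m η hη0 hη4 N hNr1.le hu1 hg1 hPcard n hnN hnE K hK x hx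
      hxn j hj1 hjm hD3 (by linarith) (by
        have : 0 ≤ (d0 : ℝ) * Real.log N := mul_nonneg (by positivity) (Real.log_nonneg hNr1.le)
        linarith) l hl (by
        calc (N : ℝ) ^ (η * j + η) ≤ (N : ℝ) ^ t := Real.rpow_le_rpow_of_exponent_le hNr1.le hjt1
          _ = v := hvt
          _ ≤ _ := min_le_left _ _)
    have hmain := hC1 l hl G hG1
    have hbv : v ≤ 8 * ((G.card : ℝ) + 1) * (N : ℝ) ^ (3 * η) := by
      calc v = (N : ℝ) ^ t := hvt.symm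
        _ ≤ (N : ℝ) ^ (η * j * (1 - η) + 3 * η) := Real.rpow_le_rpow_of_exponent_le hNr1.le hjt2
        _ = (N : ℝ) ^ (η * j * (1 - η)) * (N : ℝ) ^ (3 * η) := Real.rpow_add hNpos _ _
        _ ≤ (8 * ((G.card : ℝ) + 1)) * (N : ℝ) ^ (3 * η) :=
          mul_le_mul_of_nonneg_right (by linarith) (Real.rpow_nonneg hNpos.le _)
    have h3 : (N : ℝ) ^ (ε / 4) * (N : ℝ) ^ (3 * η) ≤ (N : ℝ) ^ ε := by
      rw [← Real.rpow_add hNpos]
      exact hNe _ (by linarith)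
    have h4 : T * ((G.card : ℝ) + 1) ≤
        C1 * l ^ 2 * ((D : ℝ) ^ (1 / 2 : ℝ) * (N : ℝ) ^ (ε / 4)) :=
      hmain.trans (mul_le_mul_of_nonneg_left hDsplit hpre)
    calc T * v ≤ T * (8 * ((G.card : ℝ) + 1) * (N : ℝ) ^ (3 * η)) :=
          mul_le_mul_of_nonneg_left hbv hT0
      _ = 8 * (T * ((G.card : ℝ) + 1)) * (N : ℝ) ^ (3 * η) := by ring
      _ ≤ 8 * (C1 * l ^ 2 * ((D : ℝ) ^ (1 / 2 : ℝ) * (N : ℝ) ^ (ε / 4))) * (N : ℝ) ^ (3 * η) :=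
          mul_le_mul_of_nonneg_right (by linarith) (Real.rpow_nonneg hNpos.le _)
      _ = (8 * C1 * l ^ 2 * (D : ℝ) ^ (1 / 2 : ℝ)) * ((N : ℝ) ^ (ε / 4) * (N : ℝ) ^ (3 * η)) := by
          ring
      _ ≤ (8 * C1 * l ^ 2 * (D : ℝ) ^ (1 / 2 : ℝ)) * (N : ℝ) ^ ε :=
          mul_le_mul_of_nonneg_left h3 (by positivity)
      _ = _ := by ring

/-- **Torsion in the class groups of the quadratic fields of a polynomial family.** -/
theorem poly_torsion (f : ℤ[X])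
    (hf : ∀ (c : ℚ) (g : ℚ[X]), f.map (Int.castRingHom ℚ) ≠ C c * g ^ 2) (ε : ℝ) (hε : 0 < ε) :
    ∃ c C : ℝ, 0 < c ∧ 0 < C ∧ ∀ N : ℕ, 1 ≤ N → ∃ E : Finset ℕ, (E.card : ℝ) ≤ C * (N : ℝ) ^ (1 - c) ∧
    ∀ n : ℕ, 1 ≤ n → n ≤ N → n ∉ E → ∀ (K : Type) [Field K] [NumberField K],
    Module.finrank ℚ K = 2 → ∀ x : K, IntermediateField.adjoin ℚ {x} = ⊤ →
    x ^ 2 = ((f.eval (n : ℤ) : ℤ) : K) → ∀ l : ℕ, 1 ≤ l →
    (Nat.card {c : ClassGroup (𝓞 K) // c ^ l = 1} : ℝ) ≤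
      C * l ^ 2 * (N : ℝ) ^ ε * |(discr K : ℝ)| ^ (1 / 2 : ℝ) /
        min (|(discr K : ℝ)| ^ (1 / (2 * l) : ℝ)) ((N : ℝ) ^ (1 / 2 : ℝ)) := by
  have hf0 : f ≠ 0 := by
    rintro rfl
    exact hf 0 0 (by simp)
  obtain ⟨K0, p0, hK0, hW⟩ := weil_f f hf
  obtain ⟨Cf, hCf1, hCf⟩ := poly_bound f
  set d0 : ℕ := f.natDegree + 1 with hd0
  have hd0r : (1 : ℝ) ≤ d0 := by exact_mod_cast (by omega : 1 ≤ d0)
  obtain ⟨m, hm⟩ := exists_nat_ge (max 2 (8 / ε))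
  have hm2 : (2 : ℝ) ≤ m := (le_max_left _ _).trans hm
  have hmε : 8 / ε ≤ m := (le_max_right _ _).trans hm
  set η : ℝ := 1 / (2 * m) with hη
  have hm0 : (0 : ℝ) < m := by linarith
  have hη0 : 0 < η := by rw [hη]; positivity
  have hη4 : η ≤ 1 / 4 := by
    rw [hη, div_le_div_iff₀ (by positivity) (by norm_num)]; linarith
  have hηε : η ≤ ε / 16 := by
    rw [hη, div_le_div_iff₀ (by positivity) (by norm_num)]
    rw [div_le_iff₀ hε] at hmε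
    linarith
  have hηm : η * m = 1 / 2 := by rw [hη]; field_simp
  obtain ⟨Y0, hY01, hY0⟩ := PP_lower η hη0 (by linarith)
  set ε1 : ℝ := ε / (4 * d0) with hε1
  have hε10 : 0 < ε1 := by rw [hε1]; positivity
  have hε1d : ε1 * d0 ≤ ε / 4 := by
    rw [hε1]
    have : ε / (4 * (d0 : ℝ)) * d0 = ε / 4 := by field_simp
    rw [this]
  obtain ⟨C1, hC10, hC1⟩ := tor_bound 2 le_rfl ε1 hε10
  -- conditions on `N`
  have hev : ∀ᶠ t : ℝ in atTop, 301 ≤ t ^ η ∧ Y0 ≤ t ^ η ∧ ((p0 : ℝ) + 3) ≤ t ^ (η / 2) ∧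
      16 * (d0 * Real.log t) ≤ t ^ (η / 2) ∧ 4 * Cf ≤ t ∧ 2 ≤ t := by
    have t1 := tendsto_rpow_atTop hη0
    have t2 := tendsto_rpow_atTop (show 0 < η / 2 by positivity)
    have t3 := (isLittleO_log_rpow_atTop (show 0 < η / 2 by positivity)).def
      (show (0 : ℝ) < 1 / (16 * d0) by positivity)
    filter_upwards [t1.eventually_ge_atTop 301, t1.eventually_ge_atTop Y0,
      t2.eventually_ge_atTop ((p0 : ℝ) + 3), t3, eventually_ge_atTop (4 * Cf),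
      eventually_ge_atTop (2 : ℝ)] with t h1 h2 h3 h4 h5 h6
    refine ⟨h1, h2, h3, ?_, h5, h6⟩
    rw [Real.norm_of_nonneg (Real.log_nonneg (by linarith)),
      Real.norm_of_nonneg (Real.rpow_nonneg (by linarith) _)] at h4
    calc 16 * (d0 * Real.log t) = (16 * d0) * Real.log t := by ring
      _ ≤ (16 * d0) * (1 / (16 * d0) * t ^ (η / 2)) := mul_le_mul_of_nonneg_left h4 (by positivity)
      _ = t ^ (η / 2) := by field_simp
  obtain ⟨N1, hN1⟩ := eventually_atTop.mp hev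
  set C2 : ℝ := f.natDegree + m * (16 * (2 * (1 + K0 ^ 2) + 1)) with hC2
  have hC20 : 0 ≤ C2 := by rw [hC2]; positivity
  have hM1 : (1 : ℝ) ≤ max (max N1 1) C2 := (le_max_right _ _).trans (le_max_left _ _)
  set CC : ℝ := max (max N1 1) C2 + 8 * C1 with hCC
  have hCC1 : max N1 1 ≤ CC := by
    have := le_max_left (max N1 1) C2
    linarith
  have hCC2 : C2 ≤ CC := by
    have := le_max_right (max N1 1) C2
    linarith
  have hCC3 : 8 * C1 ≤ CC := by linarith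
  have hCC0 : 0 < CC := by linarith
  refine ⟨η / 2, CC, by positivity, hCC0, ?_⟩
  intro N hN
  have hNr1 : (1 : ℝ) ≤ N := by exact_mod_cast hN
  have hNpos : (0 : ℝ) < N := by linarith
  rcases lt_or_ge (N : ℝ) N1 with hsmall | hlarge
  · -- small `N`
    refine ⟨Icc 1 N, ?_, ?_⟩
    · rw [Nat.card_Icc, Nat.add_sub_cancel]
      have h1 : (N : ℝ) = (N : ℝ) ^ (η / 2) * (N : ℝ) ^ (1 - η / 2) := by
        rw [← Real.rpow_add hNpos]; simp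
      have h2 : (N : ℝ) ^ (η / 2) ≤ CC := by
        calc (N : ℝ) ^ (η / 2) ≤ (N : ℝ) ^ (1 : ℝ) :=
              Real.rpow_le_rpow_of_exponent_le hNr1 (by linarith)
          _ = N := Real.rpow_one _
          _ ≤ N1 := hsmall.le
          _ ≤ CC := (le_max_left _ _).trans hCC1
      calc (N : ℝ) = (N : ℝ) ^ (η / 2) * (N : ℝ) ^ (1 - η / 2) := h1
        _ ≤ CC * (N : ℝ) ^ (1 - η / 2) :=
          mul_le_mul_of_nonneg_right h2 (Real.rpow_nonneg hNpos.le _)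
    · intro n h1 h2 h3
      exact absurd (mem_Icc.mpr ⟨h1, h2⟩) h3
  obtain ⟨g1, g2, g3, g4, g5, g6⟩ := hN1 N hlarge
  have hPcard : ∀ j : ℕ, 1 ≤ j → Yg η N j ^ (1 - η) ≤ (Pg η N j).card := fun j hj =>
    hY0 (Yg η N j) (g2.trans (Yg_ge η hη0 N hNr1 j hj))
  have hp0 : (0 : ℝ) ≤ p0 := Nat.cast_nonneg _
  refine ⟨Ex f η m N, ?_, ?_⟩
  · refine (card_part f hf0 K0 p0 hK0 hW m η hη0 hη4 hηm N hNr1 g3 g1 hPcard).trans ?_
    exact mul_le_mul_of_nonneg_right hCC2 (Real.rpow_nonneg hNpos.le _)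
  · intro n hn1 hnN hnE K _ _ hK x hx hxn l hl
    have hDK : |(discr K : ℝ)| = ((discr K).natAbs : ℝ) := by
      rw [Nat.cast_natAbs]
      push_cast
      rfl
    have hdle := quad_disc hK x hx _ hxn
    rw [hDK] at hdle ⊢
    have hD2 : 2 < (discr K).natAbs := by
      have := abs_discr_gt_two (K := K) (by rw [hK]; omega)
      rw [Int.abs_eq_natAbs] at this
      exact_mod_cast this
    have hnr : (1 : ℝ) ≤ n := by exact_mod_cast hn1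
    have hnNr : (n : ℝ) ≤ N := by exact_mod_cast hnN
    have haN : |((f.eval (n : ℤ) : ℤ) : ℝ)| ≤ (N : ℝ) ^ d0 / 4 := by
      have h1 := hCf n hn1
      rw [le_div_iff₀ (by norm_num), hd0, pow_succ]
      have h2 : (n : ℝ) ^ f.natDegree ≤ (N : ℝ) ^ f.natDegree :=
        pow_le_pow_left₀ (by linarith) hnNr _
      have h3 : 0 ≤ (N : ℝ) ^ f.natDegree := by positivity
      calc |((f.eval (n : ℤ) : ℤ) : ℝ)| * 4 ≤ (Cf * (n : ℝ) ^ f.natDegree) * 4 := by linarith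
        _ ≤ (Cf * (N : ℝ) ^ f.natDegree) * 4 := by
          have := mul_le_mul_of_nonneg_left h2 (by linarith : (0 : ℝ) ≤ Cf)
          linarith
        _ = (N : ℝ) ^ f.natDegree * (4 * Cf) := by ring
        _ ≤ (N : ℝ) ^ f.natDegree * N := mul_le_mul_of_nonneg_left g5 h3
    have hNd : 0 < (N : ℝ) ^ d0 := by positivity
    have hone := one_field f d0 m η hη0 hη4 hηm ε hηε ε1 hε10 hε1d C1 hC10 N (by linarith)
      (by linarith) g1 hPcard g4 n hnN hnE K (fun l hl G hG => hC1 l hl K hK G hG) hK x hx hxn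
      (by omega) (by linarith) (by linarith) l hl
    refine hone.trans ?_
    have hDp : (1 : ℝ) ≤ ((discr K).natAbs : ℝ) := by exact_mod_cast (by omega : 1 ≤ (discr K).natAbs)
    have hmin : 0 < min (((discr K).natAbs : ℝ) ^ (1 / (2 * l) : ℝ)) ((N : ℝ) ^ (1 / 2 : ℝ)) :=
      lt_min (Real.rpow_pos_of_pos (by linarith) _) (Real.rpow_pos_of_pos hNpos _)
    refine div_le_div_of_nonneg_right ?_ hmin.le
    have h5 : 0 ≤ (l : ℝ) ^ 2 * (N : ℝ) ^ ε * ((discr K).natAbs : ℝ) ^ (1 / 2 : ℝ) := by positivity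
    calc 8 * C1 * l ^ 2 * (N : ℝ) ^ ε * ((discr K).natAbs : ℝ) ^ (1 / 2 : ℝ)
        = (8 * C1) * ((l : ℝ) ^ 2 * (N : ℝ) ^ ε * ((discr K).natAbs : ℝ) ^ (1 / 2 : ℝ)) := by ring
      _ ≤ CC * ((l : ℝ) ^ 2 * (N : ℝ) ^ ε * ((discr K).natAbs : ℝ) ^ (1 / 2 : ℝ)) :=
          mul_le_mul_of_nonneg_right hCC3 h5
      _ = _ := by ring

end Pool.Agent.TH869.EVF
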