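import Pool.Agent.TH869.EVF.Bad

set_option autoImplicit false

/-!
# The exceptional set of a polynomial family
-/

namespace Pool.Agent.TH869.EVF

open Polynomial NumberField Finset Filter Topology

theorem card_zeros (f : ℤ[X]) (hf : f ≠ 0) (N : ℕ) :
    ((range N).filter (fun n : ℕ => f.eval (n : ℤ) = 0)).card ≤ f.natDegree := by
  classical
  have h1 : ((range N).filter (fun n : ℕ => f.eval (n : ℤ) = 0)).card ≤ f.roots.toFinset.card := by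
    apply Finset.card_le_card_of_injOn (fun n : ℕ => (n : ℤ))
    · intro n hn
      rw [Finset.mem_coe, mem_filter] at hn
      rw [Finset.mem_coe, Multiset.mem_toFinset, mem_roots hf]
      exact hn.2
    · intro a _ b _ hab
      have hab' : (a : ℤ) = b := hab
      exact_mod_cast hab'
  exact h1.trans ((Multiset.toFinset_card_le _).trans (card_roots' f))

/-- The grid points. -/
noncomputable def Yg (η : ℝ) (N j : ℕ) : ℝ := (N : ℝ) ^ (η * j)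

/-- The primes attached to a grid point. -/
noncomputable def Pg (η : ℝ) (N j : ℕ) : Finset ℕ := PP η (Yg η N j)

/-- The zeros of `f` up to `N`. -/
def Ez (f : ℤ[X]) (N : ℕ) : Finset ℕ := (range (N + 1)).filter (fun n : ℕ => f.eval (n : ℤ) = 0)

/-- The indices with an unbalanced symbol sum. -/
noncomputable def Eb (f : ℤ[X]) (η : ℝ) (N j : ℕ) : Finset ℕ :=
  (range (N + 1)).filter (fun n => ((Pg η N j).card : ℝ) / 4 ≤ |∑ p ∈ Pg η N j, js f p n|)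

/-- The exceptional set. -/
noncomputable def Ex (f : ℤ[X]) (η : ℝ) (m N : ℕ) : Finset ℕ :=
  Ez f N ∪ (Icc 1 (m - 1)).biUnion (Eb f η N)

theorem Yg_ge (η : ℝ) (hη0 : 0 < η) (N : ℕ) (hNr1 : (1 : ℝ) ≤ N) (j : ℕ) (hj : 1 ≤ j) :
    (N : ℝ) ^ η ≤ Yg η N j := by
  apply Real.rpow_le_rpow_of_exponent_le hNr1
  have : (1 : ℝ) ≤ j := by exact_mod_cast hj
  nlinarith

theorem Yg_pos (η : ℝ) (N : ℕ) (hN : (0 : ℝ) < N) (j : ℕ) : 0 < Yg η N j :=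
  Real.rpow_pos_of_pos hN _

theorem Yg_pow (η : ℝ) (hη0 : 0 < η) (hη4 : η ≤ 1 / 4) (N : ℕ) (hNr1 : (1 : ℝ) ≤ N) (j : ℕ)
    (hj : 1 ≤ j) : (N : ℝ) ^ (η / 2) ≤ Yg η N j ^ (1 - η) := by
  rw [Yg, ← Real.rpow_mul (by linarith)]
  apply Real.rpow_le_rpow_of_exponent_le hNr1
  have : (1 : ℝ) ≤ j := by exact_mod_cast hj
  have h1 : 1 / 2 ≤ 1 - η := by linarith
  have h2 : η ≤ η * j := by nlinarith
  nlinarith

theorem card_bad (f : ℤ[X]) (K0 : ℝ) (p0 : ℕ) (hK0 : 0 ≤ K0)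
    (hW : ∀ p : ℕ, p.Prime → p0 < p →
      |∑ x ∈ range p, (jacobiSym (f.eval (x : ℤ)) p : ℝ)| ≤ K0 * √p)
    (m : ℕ) (η : ℝ) (hη0 : 0 < η) (hη4 : η ≤ 1 / 4) (hηm : η * m = 1 / 2)
    (N : ℕ) (hNr1 : (1 : ℝ) ≤ N) (hu1 : ((p0 : ℝ) + 3) ≤ (N : ℝ) ^ (η / 2))
    (hg1 : 301 ≤ (N : ℝ) ^ η)
    (hPcard : ∀ j : ℕ, 1 ≤ j → Yg η N j ^ (1 - η) ≤ (Pg η N j).card) (j : ℕ)
    (hj : j ∈ Icc 1 (m - 1)) : ((Eb f η N j).card : ℝ) ≤
        16 * (2 * (1 + K0 ^ 2) + 1) * (N : ℝ) ^ (1 - η / 2) := by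
  have hNpos : (0 : ℝ) < N := by linarith
  have hYpos : ∀ j, 0 < Yg η N j := Yg_pos η N hNpos
  rw [mem_Icc] at hj
  have hyd := Yg_pow η hη0 hη4 N hNr1 j hj.1
  have hpc := hPcard j hj.1
  set u : ℝ := Yg η N j ^ (1 - η) with hu
  have hu0 : 0 < u := Real.rpow_pos_of_pos (hYpos j) _
  have hb0 : (0 : ℝ) < (Pg η N j).card := lt_of_lt_of_le hu0 hpc
  have hne : (Pg η N j).Nonempty := by
    rw [← Finset.card_pos]; exact_mod_cast hb0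
  have hy1 : 1 ≤ ⌊Yg η N j⌋₊ := by
    apply Nat.le_floor
    have := Yg_ge η hη0 N hNr1 j hj.1
    push_cast
    linarith
  have h1 := bad_count f K0 hK0 (Pg η N j) u ⌊Yg η N j⌋₊ hu0 hy1 hne (by
    intro p hp
    obtain ⟨a1, a2, a3⟩ := mem_PP (hYpos j).le hp
    exact ⟨a1, a2, Nat.le_floor a3⟩) (by
    intro p hp
    obtain ⟨a1, a2, a3⟩ := mem_PP (hYpos j).le hp
    apply hW p a1
    have : (p0 : ℝ) < p := by linarith
    exact_mod_cast this) (N + 1)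
  refine h1.trans ?_
  have hNη : (N : ℝ) ^ (1 - η / 2) = N / (N : ℝ) ^ (η / 2) := by
    rw [Real.rpow_sub hNpos, Real.rpow_one]
  have hNh : 0 < (N : ℝ) ^ (η / 2) := Real.rpow_pos_of_pos hNpos _
  have h2 : ((N + 1 : ℕ) : ℝ) * (1 / (Pg η N j).card + K0 ^ 2 / u) ≤
      2 * (1 + K0 ^ 2) * (N : ℝ) ^ (1 - η / 2) := by
    have e1 : 1 / ((Pg η N j).card : ℝ) ≤ 1 / (N : ℝ) ^ (η / 2) :=
      one_div_le_one_div_of_le hNh (hyd.trans hpc)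
    have e2 : K0 ^ 2 / u ≤ K0 ^ 2 / (N : ℝ) ^ (η / 2) :=
      div_le_div_of_nonneg_left (by positivity) hNh hyd
    have e3 : ((N + 1 : ℕ) : ℝ) ≤ 2 * N := by push_cast; linarith
    calc ((N + 1 : ℕ) : ℝ) * (1 / (Pg η N j).card + K0 ^ 2 / u)
        ≤ (2 * N) * (1 / (N : ℝ) ^ (η / 2) + K0 ^ 2 / (N : ℝ) ^ (η / 2)) :=
          mul_le_mul e3 (add_le_add e1 e2) (by positivity) (by positivity)
      _ = 2 * (1 + K0 ^ 2) * (N / (N : ℝ) ^ (η / 2)) := by ring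
      _ = _ := by rw [hNη]
  have h3 : ((⌊Yg η N j⌋₊ : ℕ) : ℝ) ^ 2 ≤ (N : ℝ) ^ (1 - η / 2) := by
    calc ((⌊Yg η N j⌋₊ : ℕ) : ℝ) ^ 2 ≤ (Yg η N j) ^ 2 :=
          pow_le_pow_left₀ (by positivity) (Nat.floor_le (hYpos j).le) 2
      _ = (N : ℝ) ^ (η * j * 2) := by
          rw [Yg, ← Real.rpow_natCast, ← Real.rpow_mul hNpos.le]
          norm_num
      _ ≤ (N : ℝ) ^ (1 - η / 2) := by
          apply Real.rpow_le_rpow_of_exponent_le hNr1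
          have hjm : (j : ℝ) + 1 ≤ m := by exact_mod_cast (by omega : j + 1 ≤ m)
          have : η * ((j : ℝ) + 1) ≤ η * m := mul_le_mul_of_nonneg_left hjm hη0.le
          linarith
  linarith

theorem card_part (f : ℤ[X]) (hf0 : f ≠ 0) (K0 : ℝ) (p0 : ℕ) (hK0 : 0 ≤ K0)
    (hW : ∀ p : ℕ, p.Prime → p0 < p →
      |∑ x ∈ range p, (jacobiSym (f.eval (x : ℤ)) p : ℝ)| ≤ K0 * √p)
    (m : ℕ) (η : ℝ) (hη0 : 0 < η) (hη4 : η ≤ 1 / 4) (hηm : η * m = 1 / 2)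
    (N : ℕ) (hNr1 : (1 : ℝ) ≤ N) (hu1 : ((p0 : ℝ) + 3) ≤ (N : ℝ) ^ (η / 2))
    (hg1 : 301 ≤ (N : ℝ) ^ η)
    (hPcard : ∀ j : ℕ, 1 ≤ j → Yg η N j ^ (1 - η) ≤ (Pg η N j).card) :
    ((Ex f η m N).card : ℝ) ≤ (f.natDegree + m * (16 * (2 * (1 + K0 ^ 2) + 1))) *
      (N : ℝ) ^ (1 - η / 2) := by
  have hN1' : 1 ≤ (N : ℝ) ^ (1 - η / 2) := Real.one_le_rpow hNr1 (by linarith)
  have h4 : ((Ex f η m N).card : ℝ) ≤
      f.natDegree + ∑ j ∈ Icc 1 (m - 1), ((Eb f η N j).card : ℝ) := by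
    have h5 := (card_union_le (Ez f N) ((Icc 1 (m - 1)).biUnion (Eb f η N))).trans
      (add_le_add (card_zeros f hf0 (N + 1)) card_biUnion_le)
    exact_mod_cast h5
  refine h4.trans ?_
  calc f.natDegree + ∑ j ∈ Icc 1 (m - 1), ((Eb f η N j).card : ℝ)
      ≤ f.natDegree * (N : ℝ) ^ (1 - η / 2) + ∑ j ∈ Icc 1 (m - 1),
          16 * (2 * (1 + K0 ^ 2) + 1) * (N : ℝ) ^ (1 - η / 2) := by
        refine add_le_add ?_ (sum_le_sum fun j hj =>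
          card_bad f K0 p0 hK0 hW m η hη0 hη4 hηm N hNr1 hu1 hg1 hPcard j hj)
        exact le_mul_of_one_le_right (by positivity) hN1'
    _ = (f.natDegree + ((m - 1 : ℕ) : ℝ) * (16 * (2 * (1 + K0 ^ 2) + 1))) *
          (N : ℝ) ^ (1 - η / 2) := by
        rw [sum_const, Nat.card_Icc, nsmul_eq_mul, Nat.add_sub_cancel]; ring
    _ ≤ (f.natDegree + m * (16 * (2 * (1 + K0 ^ 2) + 1))) * (N : ℝ) ^ (1 - η / 2) := by
        have : ((m - 1 : ℕ) : ℝ) ≤ m := by exact_mod_cast Nat.sub_le m 1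
        gcongr

end Pool.Agent.TH869.EVF
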