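import Pool.Agent.TH869.EVF.Fin2a

set_option autoImplicit false

/-!
# The bound for a single field of a polynomial family
-/

namespace Pool.Agent.TH869.EVF

open Polynomial NumberField Finset Filter Topology

/-- the choice of the grid point -/
theorem pick_grid (m : ℕ) (η : ℝ) (hη0 : 0 < η) (hηm : η * m = 1 / 2)
    (t : ℝ) (ht2 : 2 * η ≤ t) (hth : t ≤ 1 / 2) :
    ∃ j : ℕ, 1 ≤ j ∧ j ≤ m - 1 ∧ η * j + η ≤ t ∧ t ≤ η * j * (1 - η) + 3 * η := by
  set q : ℕ := ⌊t / η⌋₊ with hq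
  have hq1 : (q : ℝ) ≤ t / η := Nat.floor_le (div_nonneg (by linarith) hη0.le)
  have hq2 : t / η < q + 1 := Nat.lt_floor_add_one _
  rw [le_div_iff₀ hη0] at hq1
  rw [div_lt_iff₀ hη0] at hq2
  have hq3 : 2 ≤ q := by
    apply Nat.le_floor
    rw [le_div_iff₀ hη0]
    push_cast
    linarith
  obtain ⟨j, hj⟩ : ∃ j, q = j + 1 := ⟨q - 1, by omega⟩
  have hjr : (q : ℝ) = j + 1 := by rw [hj]; push_cast; ring
  rw [hjr] at hq1 hq2
  refine ⟨j, by omega, ?_, by linarith, ?_⟩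
  · have h0 : ((j : ℝ) + 1) * η ≤ (m : ℝ) * η := by linarith
    have h1 : (j : ℝ) + 1 ≤ m := le_of_mul_le_mul_right h0 hη0
    have : j + 1 ≤ m := by exact_mod_cast h1
    omega
  · have h1 : η * j ≤ 1 := by linarith
    have h2 : η * (η * j) ≤ η * 1 := mul_le_mul_of_nonneg_left h1 hη0.le
    have h3 : η * j * (1 - η) = η * j - η * (η * j) := by ring
    linarith

/-- The many primes which are norms, at a good index and a good grid point. -/
theorem many_norms (f : ℤ[X]) (m : ℕ) (η : ℝ) (hη0 : 0 < η) (hη4 : η ≤ 1 / 4)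
    (N : ℕ) (hNr1 : (1 : ℝ) ≤ N) (hu1 : (3 : ℝ) ≤ (N : ℝ) ^ (η / 2)) (hg1 : 301 ≤ (N : ℝ) ^ η)
    (hPcard : ∀ j : ℕ, 1 ≤ j → Yg η N j ^ (1 - η) ≤ (Pg η N j).card)
    (n : ℕ) (hnN : n ≤ N) (hnE : n ∉ Ex f η m N) (K : Type) [Field K] [NumberField K]
    (hK : Module.finrank ℚ K = 2) (x : K) (hx : IntermediateField.adjoin ℚ {x} = ⊤)
    (hxn : x ^ 2 = ((f.eval (n : ℤ) : ℤ) : K)) (j : ℕ) (hj1 : 1 ≤ j) (hjm : j ≤ m - 1)
    (hD3 : 3 ≤ (discr K).natAbs)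
    (hlogD : 16 * Real.log ((discr K).natAbs : ℝ) ≤ (N : ℝ) ^ (η / 2))
    (hloga : 8 * Real.log |((f.eval (n : ℤ) : ℤ) : ℝ)| ≤ (N : ℝ) ^ (η / 2))
    (l : ℕ) (hl : 1 ≤ l)
    (hYj : (N : ℝ) ^ (η * j + η) ≤ ((discr K).natAbs : ℝ) ^ (1 / (2 * l) : ℝ)) :
    ∃ G : Finset ℕ, (∀ p ∈ G, p.Prime ∧ (2 * (150 * p) ^ l) ^ (2 * (2 - 1)) < (discr K).natAbs ∧
      ¬ p ∣ (discr K).natAbs ∧ ∃ P : Ideal (𝓞 K), Ideal.absNorm P = p) ∧
      (N : ℝ) ^ (η * j * (1 - η)) ≤ 8 * (G.card : ℝ) := by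
  have hNpos : (0 : ℝ) < N := by linarith
  have hYpos : ∀ j, 0 < Yg η N j := Yg_pos η N hNpos
  rw [Ex, mem_union, mem_biUnion] at hnE
  push Not at hnE
  obtain ⟨hnE1, hnE2⟩ := hnE
  set a : ℤ := f.eval (n : ℤ) with ha
  have ha0 : a ≠ 0 := by
    intro h
    apply hnE1
    rw [Ez, mem_filter, mem_range]
    exact ⟨by omega, h⟩
  set D := (discr K).natAbs with hD
  have hjE := hnE2 j (mem_Icc.mpr ⟨hj1, hjm⟩)
  have hyd := Yg_pow η hη0 hη4 N hNr1 j hj1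
  have hpc := hPcard j hj1
  have hbal : |∑ p ∈ Pg η N j, js f p n| < ((Pg η N j).card : ℝ) / 4 := by
    by_contra h
    push Not at h
    apply hjE
    rw [Eb, mem_filter, mem_range]
    exact ⟨by omega, h⟩
  set b : ℝ := ((Pg η N j).card : ℝ) with hb
  have hyb : (N : ℝ) ^ (η / 2) ≤ b := hyd.trans hpc
  have hb0 : 0 < b := by linarith
  have hmany := many_one f n (Pg η N j) (fun p hp => (mem_PP (hYpos j).le hp).1) ha0 hbal (by
    rw [← ha]
    linarith)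
  rw [← ha] at hmany
  set A := (Pg η N j).filter (fun p => jacobiSym a p = 1) with hA
  set G := A.filter (fun p => ¬ p ∣ D) with hG
  have hYj' : Yg η N j ≤ (D : ℝ) ^ (1 / (2 * l) : ℝ) / 301 := by
    rw [le_div_iff₀ (by norm_num)]
    calc Yg η N j * 301 ≤ Yg η N j * (N : ℝ) ^ η := mul_le_mul_of_nonneg_left hg1 (hYpos j).le
      _ = (N : ℝ) ^ (η * j + η) := by rw [Yg, ← Real.rpow_add hNpos]
      _ ≤ _ := hYj
  refine ⟨G, ?_, ?_⟩
  · intro p hp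
    rw [hG, mem_filter, hA, mem_filter] at hp
    obtain ⟨⟨hpP, hpj⟩, hpD⟩ := hp
    obtain ⟨a1, a2, a3⟩ := mem_PP (hYpos j).le hpP
    have hp3 : (3 : ℝ) ≤ p := by linarith
    have hp2 : p ≠ 2 := by
      rintro rfl
      norm_num at hp3
    exact ⟨a1, phi_lt_two l p D hl hD3 (a3.trans hYj'), hpD,
      quad_norm hK x hx a hxn p a1 hp2 hpj⟩
  · have h1 : A ⊆ G ∪ D.primeFactors := by
      intro p hp
      rw [mem_union, hG, mem_filter]
      by_cases h : p ∣ D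
      · right
        rw [hA, mem_filter] at hp
        exact Nat.mem_primeFactors.mpr ⟨(mem_PP (hYpos j).le hp.1).1, h, by omega⟩
      · left; exact ⟨hp, h⟩
    have h2 := (card_le_card h1).trans (card_union_le _ _)
    have h3 : (A.card : ℝ) ≤ G.card + D.primeFactors.card := by exact_mod_cast h2
    have h4 := card_primeFactors_le D (by omega)
    have h5 : (N : ℝ) ^ (η * j * (1 - η)) = Yg η N j ^ (1 - η) := by
      rw [Yg, ← Real.rpow_mul hNpos.le]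
    rw [h5]
    linarith

end Pool.Agent.TH869.EVF
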