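import Pool.Agent.TH869.EVF.Fin2
import Pool.Agent.TH869.EVF.Fin3

set_option autoImplicit false

/-!
# Class group torsion in a polynomial family, in terms of the discriminant only
-/

namespace Pool.Agent.TH869.EVF

open Polynomial NumberField Finset Filter Topology

theorem min_lower (D N Cf : ℝ) (M l : ℕ) (hD : 1 ≤ D) (hN : 1 ≤ N) (hCf : 1 ≤ Cf) (hl : 1 ≤ l)
    (hlM : l ≤ M) (hDN : D ≤ 4 * Cf * N ^ M) :
    D ^ (1 / (2 * M) : ℝ) ≤ 4 * Cf * min (D ^ (1 / (2 * l) : ℝ)) (N ^ (1 / 2 : ℝ)) := by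
  have hM : 1 ≤ M := hl.trans hlM
  have hMr : (1 : ℝ) ≤ M := by exact_mod_cast hM
  have hlr : (1 : ℝ) ≤ l := by exact_mod_cast hl
  have hlMr : (l : ℝ) ≤ M := by exact_mod_cast hlM
  have h1 : D ^ (1 / (2 * M) : ℝ) ≤ D ^ (1 / (2 * l) : ℝ) := by
    apply Real.rpow_le_rpow_of_exponent_le hD
    apply one_div_le_one_div_of_le (by linarith) (by linarith)
  have h2 : D ^ (1 / (2 * M) : ℝ) ≤ 4 * Cf * N ^ (1 / 2 : ℝ) := by
    calc D ^ (1 / (2 * M) : ℝ) ≤ (4 * Cf * N ^ M) ^ (1 / (2 * M) : ℝ) :=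
          Real.rpow_le_rpow (by linarith) hDN (by positivity)
      _ = (4 * Cf) ^ (1 / (2 * M) : ℝ) * (N ^ M) ^ (1 / (2 * M) : ℝ) :=
          Real.mul_rpow (by linarith) (by positivity)
      _ ≤ (4 * Cf) * N ^ (1 / 2 : ℝ) := by
          refine mul_le_mul ?_ ?_ (by positivity) (by linarith)
          · calc (4 * Cf) ^ (1 / (2 * M) : ℝ) ≤ (4 * Cf) ^ (1 : ℝ) := by
                  apply Real.rpow_le_rpow_of_exponent_le (by linarith)
                  rw [div_le_one (by linarith)]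
                  linarith
              _ = 4 * Cf := Real.rpow_one _
          · rw [← Real.rpow_natCast, ← Real.rpow_mul (by linarith)]
            apply le_of_eq
            congr 1
            field_simp
  have h3 : 0 ≤ D ^ (1 / (2 * l) : ℝ) := Real.rpow_nonneg (by linarith) _
  rcases le_total (D ^ (1 / (2 * l) : ℝ)) (N ^ (1 / 2 : ℝ)) with h | h
  · rw [min_eq_left h]
    calc D ^ (1 / (2 * M) : ℝ) ≤ D ^ (1 / (2 * l) : ℝ) := h1
      _ ≤ 4 * Cf * D ^ (1 / (2 * l) : ℝ) := le_mul_of_one_le_left h3 (by linarith)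
  · rw [min_eq_right h]
    exact h2

/-- **Torsion in the class groups of the quadratic fields of a polynomial family.** -/
theorem poly_torsion_disc (f : ℤ[X])
    (hf : ∀ (c : ℚ) (g : ℚ[X]), f.map (Int.castRingHom ℚ) ≠ C c * g ^ 2) (ε : ℝ) (hε : 0 < ε) :
    ∃ c C : ℝ, 0 < c ∧ 0 < C ∧ ∀ N : ℕ, 1 ≤ N → ∃ E : Finset ℕ, (E.card : ℝ) ≤ C * (N : ℝ) ^ (1 - c) ∧
    ∀ n : ℕ, 1 ≤ n → n ≤ N → n ∉ E → ¬ IsSquare (f.eval (n : ℤ)) ∧
    ∀ (K : Type) [Field K] [NumberField K],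
    Module.finrank ℚ K = 2 → (∃ x : K, x ^ 2 = ((f.eval (n : ℤ) : ℤ) : K)) → ∀ l : ℕ, 1 ≤ l →
    (Nat.card {c : ClassGroup (𝓞 K) // c ^ l = 1} : ℝ) ≤
      C * l ^ 2 * |(discr K : ℝ)| ^ (1 / 2 - 1 / (2 * (max l f.natDegree : ℕ)) + ε : ℝ) := by
  obtain ⟨Cf, hCf1, hCf⟩ := poly_bound f
  obtain ⟨c1, C1, hc10, hC10, h1⟩ := poly_torsion f hf (ε / 16) (by positivity)
  obtain ⟨C2, hC20, h2⟩ := small_disc f hf
  have hCC : 0 < 4 * Cf * C1 := by positivity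
  refine ⟨min c1 (1 / 8), C1 + C2 + 4 * Cf * C1, lt_min hc10 (by norm_num), by linarith, ?_⟩
  intro N hN
  have hNr1 : (1 : ℝ) ≤ N := by exact_mod_cast hN
  have hNpos : (0 : ℝ) < N := by linarith
  obtain ⟨E1, hE1, hE1'⟩ := h1 N hN
  obtain ⟨E2, hE2, hE2'⟩ := h2 N hN
  refine ⟨E1 ∪ E2, ?_, ?_⟩
  · have h3 : ((E1 ∪ E2).card : ℝ) ≤ E1.card + E2.card := by exact_mod_cast card_union_le E1 E2
    have h4 : (N : ℝ) ^ (1 - c1) ≤ (N : ℝ) ^ (1 - min c1 (1 / 8)) := by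
      apply Real.rpow_le_rpow_of_exponent_le hNr1
      have := min_le_left c1 (1 / 8)
      linarith
    have h5 : (N : ℝ) ^ (7 / 8 : ℝ) ≤ (N : ℝ) ^ (1 - min c1 (1 / 8)) := by
      apply Real.rpow_le_rpow_of_exponent_le hNr1
      have := min_le_right c1 (1 / 8)
      linarith
    have h6 : 0 ≤ (N : ℝ) ^ (1 - min c1 (1 / 8)) := Real.rpow_nonneg hNpos.le _
    calc ((E1 ∪ E2).card : ℝ) ≤ C1 * (N : ℝ) ^ (1 - c1) + C2 * (N : ℝ) ^ (7 / 8 : ℝ) := by linarith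
      _ ≤ C1 * (N : ℝ) ^ (1 - min c1 (1 / 8)) + C2 * (N : ℝ) ^ (1 - min c1 (1 / 8)) :=
          add_le_add (mul_le_mul_of_nonneg_left h4 hC10.le) (mul_le_mul_of_nonneg_left h5 hC20.le)
      _ ≤ C1 * (N : ℝ) ^ (1 - min c1 (1 / 8)) + C2 * (N : ℝ) ^ (1 - min c1 (1 / 8)) +
            4 * Cf * C1 * (N : ℝ) ^ (1 - min c1 (1 / 8)) :=
          le_add_of_nonneg_right (mul_nonneg hCC.le h6)
      _ = _ := by ring
  · intro n hn1 hnN hnE
    rw [mem_union] at hnE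
    push Not at hnE
    obtain ⟨ha0, hsmall⟩ := hE2' n hn1 hnN hnE.2
    have hsq : ¬ IsSquare (f.eval (n : ℤ)) := by
      rintro ⟨r, hr⟩
      exact hsmall 1 one_ne_zero (by
        simpa using Real.one_le_rpow hNr1 (by norm_num : (0 : ℝ) ≤ 1 / 16)) r (by rw [mul_one, hr])
    refine ⟨hsq, ?_⟩
    intro K _ _ hK hx l hl
    obtain ⟨x, hx⟩ := hx
    have hgen := quad_gen hK x _ hx hsq
    have hmain := hE1' n hn1 hnN hnE.1 K hK x hgen hx l hl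
    have hdle := quad_disc hK x hgen _ hx
    obtain ⟨y, hy⟩ := quad_disc_sq hK x hgen _ hx
    have hD16 : (N : ℝ) ^ (1 / 16 : ℝ) < |(discr K : ℝ)| := by
      by_contra h
      push Not at h
      exact hsmall (discr K) (discr_ne_zero K) h y hy
    set D : ℝ := |(discr K : ℝ)| with hD
    have hN16 : 1 ≤ (N : ℝ) ^ (1 / 16 : ℝ) := Real.one_le_rpow hNr1 (by norm_num)
    have hD1 : 1 ≤ D := by linarith
    have hDpos : 0 < D := by linarith
    set M : ℕ := max l f.natDegree with hM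
    have hlM : l ≤ M := le_max_left _ _
    have hfM : f.natDegree ≤ M := le_max_right _ _
    have hnr : (1 : ℝ) ≤ n := by exact_mod_cast hn1
    have hnNr : (n : ℝ) ≤ N := by exact_mod_cast hnN
    have hDN : D ≤ 4 * Cf * (N : ℝ) ^ M := by
      have h3 : (n : ℝ) ^ f.natDegree ≤ (N : ℝ) ^ M :=
        (pow_le_pow_left₀ (by linarith) hnNr _).trans (pow_le_pow_right₀ hNr1 hfM)
      have h4 := hCf n hn1
      have h5 : Cf * (n : ℝ) ^ f.natDegree ≤ Cf * (N : ℝ) ^ M :=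
        mul_le_mul_of_nonneg_left h3 (by linarith)
      linarith
    have hmin := min_lower D N Cf M l hD1 hNr1 hCf1 hl hlM hDN
    set μ : ℝ := min (D ^ (1 / (2 * l) : ℝ)) ((N : ℝ) ^ (1 / 2 : ℝ)) with hμ
    have hμ0 : 0 < μ := lt_min (Real.rpow_pos_of_pos hDpos _) (Real.rpow_pos_of_pos hNpos _)
    have hNε : (N : ℝ) ^ (ε / 16) ≤ D ^ ε := by
      calc (N : ℝ) ^ (ε / 16) = ((N : ℝ) ^ (1 / 16 : ℝ)) ^ ε := by
            rw [← Real.rpow_mul hNpos.le]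
            congr 1
            ring
        _ ≤ D ^ ε := Real.rpow_le_rpow (by linarith) hD16.le hε.le
    have hDM : 0 < D ^ (1 / (2 * M) : ℝ) := Real.rpow_pos_of_pos hDpos _
    have hinv : 1 / μ ≤ 4 * Cf / D ^ (1 / (2 * M) : ℝ) := by
      rw [div_le_div_iff₀ hμ0 hDM]
      linarith
    have hDh : 0 < D ^ (1 / 2 : ℝ) := Real.rpow_pos_of_pos hDpos _
    have hl0 : (0 : ℝ) ≤ (l : ℝ) ^ 2 := by positivity
    have hexp : D ^ (1 / 2 - 1 / (2 * (M : ℕ)) + ε : ℝ) =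
        D ^ ε * D ^ (1 / 2 : ℝ) / D ^ (1 / (2 * M) : ℝ) := by
      rw [show (1 / 2 - 1 / (2 * (M : ℕ)) + ε : ℝ) = (ε + 1 / 2) - 1 / (2 * M) by ring,
        Real.rpow_sub hDpos, Real.rpow_add hDpos]
    calc (Nat.card {c : ClassGroup (𝓞 K) // c ^ l = 1} : ℝ)
        ≤ C1 * l ^ 2 * (N : ℝ) ^ (ε / 16) * D ^ (1 / 2 : ℝ) / μ := hmain
      _ = (C1 * l ^ 2 * D ^ (1 / 2 : ℝ)) * (N : ℝ) ^ (ε / 16) * (1 / μ) := by ring
      _ ≤ (C1 * l ^ 2 * D ^ (1 / 2 : ℝ)) * D ^ ε * (4 * Cf / D ^ (1 / (2 * M) : ℝ)) := by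
          refine mul_le_mul (mul_le_mul_of_nonneg_left hNε (by positivity)) hinv
            (by positivity) (by positivity)
      _ = (4 * Cf * C1) * (l ^ 2 * (D ^ ε * D ^ (1 / 2 : ℝ) / D ^ (1 / (2 * M) : ℝ))) := by ring
      _ ≤ (C1 + C2 + 4 * Cf * C1) *
            (l ^ 2 * (D ^ ε * D ^ (1 / 2 : ℝ) / D ^ (1 / (2 * M) : ℝ))) := by
          refine mul_le_mul_of_nonneg_right (by linarith) (by positivity)
      _ = _ := by rw [hexp]; ring

end Pool.Agent.TH869.EVF
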