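import Pool.Agent.TH869.EVF.Core

set_option autoImplicit false

/-!
# Small split primes in the quadratic fields of a polynomial family
-/

namespace Pool.Agent.TH869.EVF

open Polynomial Finset Filter Topology

theorem ncard_Spl (d : ℤ) (y : ℕ) :
    Set.ncard {p : ℕ | p.Prime ∧ p ≤ y ∧ ¬ ((p : ℤ) ∣ d) ∧ ∃ x : ℤ, (4 * (p : ℤ)) ∣ x ^ 2 - d} =
      (Spl d y).card := by
  rw [← Set.ncard_coe_finset]
  congr 1
  ext p
  rw [Finset.mem_coe, mem_Spl, Set.mem_setOf_eq]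
  tauto

theorem ncard_lt (d : ℤ) (Y : ℝ) (hY : 0 < Y) :
    Set.ncard {p : ℕ | p.Prime ∧ (p : ℝ) < Y ∧ ¬ ((p : ℤ) ∣ d) ∧
      ∃ x : ℤ, (4 * (p : ℤ)) ∣ x ^ 2 - d} = (Spl d (⌈Y⌉₊ - 1)).card := by
  rw [← ncard_Spl]
  congr 1
  ext p
  rw [Set.mem_setOf_eq, Set.mem_setOf_eq, ← Nat.lt_ceil]
  have : 0 < ⌈Y⌉₊ := Nat.ceil_pos.mpr hY
  have h : p < ⌈Y⌉₊ ↔ p ≤ ⌈Y⌉₊ - 1 := by omega
  rw [h]

/-- the numerical conditions -/
theorem lam_cond (c c1 C1 ε : ℝ) (hc : 0 < c) (hc1 : 0 < c1) (hε : 0 < ε) :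
    ∃ Λ0 : ℝ, 1 ≤ Λ0 ∧ ∀ Λ : ℝ, Λ0 ≤ Λ → 2 ≤ Real.log Λ ^ 2 ∧
      Λ ^ 2 * Real.log Λ ^ 2 ≤ Real.exp (c * Λ) ∧
      Λ ^ (2 - ε) ≤ 1 / 4 * (c1 * (Λ ^ 2) ^ (1 - min ε 1 / 4) - C1) := by
  set δ : ℝ := min ε 1 / 4 with hδ
  have hm1 : min ε 1 ≤ ε := min_le_left _ _
  have hm2 : min ε 1 ≤ 1 := min_le_right _ _
  have hm0 : 0 < min ε 1 := lt_min hε one_pos
  have hev : ∀ᶠ Λ : ℝ in atTop, 2 ≤ Real.log Λ ∧ Λ ^ 4 ≤ Real.exp (c * Λ) ∧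
      1 ≤ c1 / 8 * Λ ^ (ε - 2 * δ) ∧ C1 / 4 ≤ c1 / 8 * Λ ^ (2 - 2 * δ) ∧ 1 ≤ Λ := by
    have t1 := (isLittleO_pow_exp_pos_mul_atTop 4 hc).def one_pos
    have t2 := (tendsto_rpow_atTop (show 0 < ε - 2 * δ by rw [hδ]; linarith)).const_mul_atTop
      (show 0 < c1 / 8 by positivity)
    have t3 := (tendsto_rpow_atTop (show 0 < 2 - 2 * δ by rw [hδ]; linarith)).const_mul_atTop
      (show 0 < c1 / 8 by positivity)
    filter_upwards [Real.tendsto_log_atTop.eventually_ge_atTop 2, t1, t2.eventually_ge_atTop 1,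
      t3.eventually_ge_atTop (C1 / 4), eventually_ge_atTop (1 : ℝ)] with Λ h1 h2 h3 h4 h5
    refine ⟨h1, ?_, h3, h4, h5⟩
    rw [Real.norm_of_nonneg (by positivity), Real.norm_of_nonneg (Real.exp_pos _).le, one_mul] at h2
    exact h2
  obtain ⟨L, hL⟩ := eventually_atTop.mp hev
  refine ⟨max L 1, le_max_right _ _, ?_⟩
  intro Λ hΛ
  obtain ⟨h1, h2, h3, h4, h5⟩ := hL Λ ((le_max_left _ _).trans hΛ)
  have hΛ0 : 0 < Λ := by linarith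
  refine ⟨by nlinarith, ?_, ?_⟩
  · have h6 : Real.log Λ ≤ Λ := (Real.log_le_sub_one_of_pos hΛ0).trans (by linarith)
    calc Λ ^ 2 * Real.log Λ ^ 2 ≤ Λ ^ 2 * Λ ^ 2 := by
          have : Real.log Λ ^ 2 ≤ Λ ^ 2 := pow_le_pow_left₀ (by linarith) h6 2
          gcongr
      _ = Λ ^ 4 := by ring
      _ ≤ _ := h2
  · have h6 : (Λ ^ 2) ^ (1 - δ) = Λ ^ (2 - 2 * δ) := by
      rw [← Real.rpow_natCast, ← Real.rpow_mul hΛ0.le]
      congr 1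
      push_cast
      ring
    have h7 : Λ ^ (2 - 2 * δ) = Λ ^ (2 - ε) * Λ ^ (ε - 2 * δ) := by
      rw [← Real.rpow_add hΛ0]
      congr 1
      ring
    have h8 : Λ ^ (2 - ε) ≤ c1 / 8 * Λ ^ (2 - 2 * δ) := by
      have h9 : 0 < Λ ^ (2 - ε) := Real.rpow_pos_of_pos hΛ0 _
      calc Λ ^ (2 - ε) = Λ ^ (2 - ε) * 1 := (mul_one _).symm
        _ ≤ Λ ^ (2 - ε) * (c1 / 8 * Λ ^ (ε - 2 * δ)) := mul_le_mul_of_nonneg_left h3 h9.le
        _ = c1 / 8 * Λ ^ (2 - 2 * δ) := by rw [h7]; ring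
    rw [h6]
    linarith

/-- **Half of the small primes split in the quadratic fields of a polynomial family.** -/
theorem poly_split (f : ℤ[X])
    (hf : ∀ (c : ℚ) (g : ℚ[X]), f.map (Int.castRingHom ℚ) ≠ C c * g ^ 2)
    (A : ℝ) (hA : 1 < A) (ε : ℝ) (hε : 0 < ε) :
    ∃ c C : ℝ, 0 < c ∧ 0 < C ∧ ∀ N : ℕ, 1 ≤ N → ∃ E : Finset ℕ,
      (E.card : ℝ) ≤ C * (N : ℝ) ^ (1 - c) ∧ ∀ n : ℕ, 1 ≤ n → n ≤ N → n ∉ E →
      ∀ d : ℤ, ((d % 4 = 1 ∧ Squarefree d) ∨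
        (∃ m : ℤ, d = 4 * m ∧ (m % 4 = 2 ∨ m % 4 = 3) ∧ Squarefree m)) →
        IsSquare (f.eval (n : ℤ) * d) →
        (d ≠ 1 ∧ f.eval (n : ℤ) ≠ 0 ∧ (N : ℝ) ^ (1 / 16 : ℝ) < |(d : ℝ)|) ∧
        (∀ y : ℕ, Real.log |(d : ℝ)| ^ A ≤ y → (y : ℝ) ≤ |(d : ℝ)| ^ c →
          |(Set.ncard {p : ℕ | p.Prime ∧ p ≤ y ∧ ¬ ((p : ℤ) ∣ d) ∧
            ∃ x : ℤ, (4 * (p : ℤ)) ∣ x ^ 2 - d} : ℝ) - (Nat.primeCounting y : ℝ) / 2| ≤
              ε * Nat.primeCounting y) ∧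
        Real.log |(d : ℝ)| ^ (2 - ε) ≤ (Set.ncard {p : ℕ | p.Prime ∧
            ((p : ℝ) < Real.log |(d : ℝ)| ^ 2 * Real.log (Real.log |(d : ℝ)|) ^ 2) ∧
            ¬ ((p : ℤ) ∣ d) ∧ ∃ x : ℤ, (4 * (p : ℤ)) ∣ x ^ 2 - d} : ℝ) := by
  set A' : ℝ := min A (3 / 2) with hA'
  have hA'1 : 1 < A' := lt_min hA (by norm_num)
  have hA'A : A' ≤ A := min_le_left _ _
  have hA'2 : A' ≤ 2 := (min_le_right _ _).trans (by norm_num)
  set ε' : ℝ := min ε (1 / 8) with hε'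
  have hε'0 : 0 < ε' := lt_min hε (by norm_num)
  have hε'ε : ε' ≤ ε := min_le_left _ _
  have hε'8 : ε' ≤ 1 / 8 := min_le_right _ _
  obtain ⟨c, C, N1, hc, hC, hcore⟩ := core f hf A' hA'1 ε' hε'0
  have hm0 : 0 < min ε 1 := lt_min hε one_pos
  have hm2 : min ε 1 ≤ 1 := min_le_right _ _
  obtain ⟨c1, C1, hc1, hC1, hPA⟩ := PA_lower 1 1 one_pos (Nat.coprime_one_left 1) (min ε 1 / 4)
    (by positivity) (by linarith)
  obtain ⟨Λ0, hΛ01, hΛ0⟩ := lam_cond c c1 C1 ε hc hc1 hε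
  have hev : ∀ᶠ t : ℝ in atTop, Λ0 ≤ Real.log t / 16 ∧ N1 ≤ t := by
    have t1 : Tendsto (fun t : ℝ => Real.log t / 16) atTop atTop :=
      Real.tendsto_log_atTop.atTop_div_const (by norm_num)
    filter_upwards [t1.eventually_ge_atTop Λ0, eventually_ge_atTop N1] with t h1 h2
    exact ⟨h1, h2⟩
  obtain ⟨N2, hN2⟩ := eventually_atTop.mp hev
  have hM1 : (1 : ℝ) ≤ max N2 1 := le_max_right _ _
  set c' : ℝ := min c (1 / 2) with hc'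
  have hc'0 : 0 < c' := lt_min hc (by norm_num)
  have hc'c : c' ≤ c := min_le_left _ _
  refine ⟨c', C + max N2 1, hc'0, by linarith, ?_⟩
  intro N hN
  have hNr1 : (1 : ℝ) ≤ N := by exact_mod_cast hN
  have hN0 : (0 : ℝ) < N := by linarith
  have hNp : 0 ≤ (N : ℝ) ^ (1 - c') := Real.rpow_nonneg hN0.le _
  rcases lt_or_ge (N : ℝ) N2 with hsmall | hlarge
  · refine ⟨Icc 1 N, ?_, ?_⟩
    · rw [Nat.card_Icc, Nat.add_sub_cancel]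
      have h1 : (N : ℝ) = (N : ℝ) ^ c' * (N : ℝ) ^ (1 - c') := by
        rw [← Real.rpow_add hN0]; simp
      have h2 : (N : ℝ) ^ c' ≤ max N2 1 := by
        calc (N : ℝ) ^ c' ≤ (N : ℝ) ^ (1 : ℝ) :=
              Real.rpow_le_rpow_of_exponent_le hNr1 ((min_le_right _ _).trans (by norm_num))
          _ = N := Real.rpow_one _
          _ ≤ N2 := hsmall.le
          _ ≤ _ := le_max_left _ _
      calc (N : ℝ) = (N : ℝ) ^ c' * (N : ℝ) ^ (1 - c') := h1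
        _ ≤ (C + max N2 1) * (N : ℝ) ^ (1 - c') :=
          mul_le_mul_of_nonneg_right (by linarith) hNp
    · intro n h1 h2 h3
      exact absurd (mem_Icc.mpr ⟨h1, h2⟩) h3
  obtain ⟨g1, g2⟩ := hN2 N hlarge
  obtain ⟨E, hE, hE'⟩ := hcore N hN g2
  refine ⟨E, ?_, ?_⟩
  · calc (E.card : ℝ) ≤ C * (N : ℝ) ^ (1 - c) := hE
      _ ≤ C * (N : ℝ) ^ (1 - c') :=
          mul_le_mul_of_nonneg_left
            (Real.rpow_le_rpow_of_exponent_le hNr1 (by linarith)) hC.le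
      _ ≤ (C + max N2 1) * (N : ℝ) ^ (1 - c') :=
          mul_le_mul_of_nonneg_right (by linarith) hNp
  · intro n hn1 hnN hnE d hd hsq
    obtain ⟨hd1, ha0, hd16, hmain⟩ := hE' n hn1 hnN hnE d hd hsq
    have hN16 : 1 ≤ (N : ℝ) ^ (1 / 16 : ℝ) := Real.one_le_rpow hNr1 (by norm_num)
    have hD1 : 1 < |(d : ℝ)| := by linarith
    have hD0 : 0 < |(d : ℝ)| := by linarith
    have hlD : Real.log N / 16 ≤ Real.log |(d : ℝ)| := by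
      have := Real.log_le_log (by linarith) hd16.le
      rw [Real.log_rpow hN0] at this
      linarith
    set Λ : ℝ := Real.log |(d : ℝ)| with hΛ
    have hΛΛ0 : Λ0 ≤ Λ := g1.trans hlD
    have hΛ1 : 1 ≤ Λ := hΛ01.trans hΛΛ0
    have hΛpos : 0 < Λ := by linarith
    refine ⟨⟨hd1, ha0, hd16⟩, ?_, ?_⟩
    · intro y hy1 hy2
      rw [ncard_Spl, ← PR_card]
      have h1 : Λ ^ A' ≤ Λ ^ A := Real.rpow_le_rpow_of_exponent_le hΛ1 hA'A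
      have h2 : |(d : ℝ)| ^ c' ≤ |(d : ℝ)| ^ c := Real.rpow_le_rpow_of_exponent_le hD1.le hc'c
      refine (hmain y (h1.trans hy1) (hy2.trans h2)).trans ?_
      exact mul_le_mul_of_nonneg_right hε'ε (Nat.cast_nonneg _)
    · obtain ⟨e1, e2, e3⟩ := hΛ0 Λ hΛΛ0
      set Y : ℝ := Λ ^ 2 * Real.log Λ ^ 2 with hY
      have hΛsq : 1 ≤ Λ ^ 2 := one_le_pow₀ hΛ1
      have hY2 : 2 * Λ ^ 2 ≤ Y := by
        rw [hY]
        have := mul_le_mul_of_nonneg_left e1 (by positivity : (0 : ℝ) ≤ Λ ^ 2)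
        linarith
      have hY0 : 0 < Y := by linarith
      rw [ncard_lt d Y hY0]
      have hceil : 0 < ⌈Y⌉₊ := Nat.ceil_pos.mpr hY0
      set y : ℕ := ⌈Y⌉₊ - 1 with hy
      have hyc : (y : ℝ) + 1 = (⌈Y⌉₊ : ℝ) := by
        have : y + 1 = ⌈Y⌉₊ := by omega
        exact_mod_cast this
      have hy1 : Λ ^ 2 ≤ y := by
        have := Nat.le_ceil Y
        linarith
      have hy2 : (y : ℝ) ≤ Y := by
        have := Nat.ceil_lt_add_one hY0.le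
        linarith
      have hy0 : (0 : ℝ) < y := by linarith
      have hΛA : Λ ^ A' ≤ y := by
        calc Λ ^ A' ≤ Λ ^ (2 : ℝ) := Real.rpow_le_rpow_of_exponent_le hΛ1 hA'2
          _ = Λ ^ 2 := by norm_num
          _ ≤ y := hy1
      have hyc2 : (y : ℝ) ≤ |(d : ℝ)| ^ c := by
        rw [Real.rpow_def_of_pos hD0, ← hΛ, mul_comm]
        exact hy2.trans e2
      have hm := hmain y hΛA hyc2
      have hP1 := hPA y hy0
      have hP2 : ((PA 1 1 (y : ℝ)).card : ℝ) ≤ (PR y).card := by exact_mod_cast PA_le_PR y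
      have hmono : (Λ ^ 2) ^ (1 - min ε 1 / 4) ≤ (y : ℝ) ^ (1 - min ε 1 / 4) :=
        Real.rpow_le_rpow (by positivity) hy1 (by linarith)
      have hmono' : c1 * (Λ ^ 2) ^ (1 - min ε 1 / 4) ≤ c1 * (y : ℝ) ^ (1 - min ε 1 / 4) :=
        mul_le_mul_of_nonneg_left hmono hc1.le
      have hπ0 : (0 : ℝ) ≤ (PR y).card := Nat.cast_nonneg _
      have hε'π : ε' * (PR y).card ≤ 1 / 8 * (PR y).card := mul_le_mul_of_nonneg_right hε'8 hπ0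
      have hlow := (abs_le.mp hm).1
      linarith

end Pool.Agent.TH869.EVF
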