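import Pool.Agent.TH869.EVF.Norm
import Pool.Agent.TH869.EVF.Dick

set_option autoImplicit false

/-!
# Primes that are norms from the fields generated by roots of Dickson polynomials
-/

namespace Pool.Agent.TH869.EVF

open Polynomial NumberField

/-- If the monic integer polynomial `g` of degree `[K : ℚ]` vanishes at a generator of `K` and has a
simple root modulo `p`, then `p` is the norm of an ideal. -/
theorem norm_of_root {K : Type} [Field K] [NumberField K] (g : ℤ[X]) (hg : g.Monic)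
    (hdeg : g.natDegree = Module.finrank ℚ K) (α : K)
    (hα : IntermediateField.adjoin ℚ {α} = ⊤) (h0 : aeval α g = 0) (p : ℕ) (hp : p.Prime)
    (r : ZMod p) (hr : g.eval₂ (Int.castRingHom (ZMod p)) r = 0)
    (hr' : (derivative g).eval₂ (Int.castRingHom (ZMod p)) r ≠ 0) :
    ∃ P : Ideal (𝓞 K), Ideal.absNorm P = p := by
  have hint : IsIntegral ℤ α := ⟨g, hg, h0⟩
  set β : 𝓞 K := ⟨α, hint⟩ with hβ
  have hβα : algebraMap (𝓞 K) K β = α := rfl
  have hmin : minpoly ℤ β = minpoly ℤ α := by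
    rw [← RingOfIntegers.minpoly_coe]; rfl
  have hQ : (minpoly ℚ α).natDegree = Module.finrank ℚ K := by
    rw [← IntermediateField.adjoin.finrank (IsIntegral.tower_top hint), hα,
      IntermediateField.finrank_top']
  have hZ : (minpoly ℤ α).natDegree = Module.finrank ℚ K := by
    rw [← hQ, minpoly.isIntegrallyClosed_eq_field_fractions' ℚ hint,
      (minpoly.monic hint).natDegree_map]
  have hgm : g = minpoly ℤ α := by
    refine eq_of_monic_of_dvd_of_natDegree_le (minpoly.monic hint) hg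
      (minpoly.isIntegrallyClosed_dvd hint h0) ?_
    rw [hdeg, hZ]
  have had : Algebra.adjoin ℚ {algebraMap (𝓞 K) K β} = ⊤ := by
    rw [hβα, ← IntermediateField.adjoin_simple_toSubalgebra_of_isAlgebraic
      (Algebra.IsAlgebraic.isAlgebraic α), hα, IntermediateField.top_toSubalgebra]
  refine exists_norm β had p hp r ?_ ?_
  · rw [hmin, ← hgm]; exact hr
  · rw [hmin, ← hgm]; exact hr'

/-- the integer whose prime factors are excluded -/
def Mab (n : ℕ) (a b : ℤ) : ℤ := if a = 0 then b else a * (b ^ 2 - 4 * a ^ n)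

theorem Mab_ne (n : ℕ) (hn : 1 ≤ n) (a b : ℤ) (hab : b ^ 2 ≠ 4 * a ^ n) : Mab n a b ≠ 0 := by
  unfold Mab
  split_ifs with h
  · rintro rfl
    apply hab
    rw [h, zero_pow (show n ≠ 0 by omega)]; norm_num
  · exact mul_ne_zero h (sub_ne_zero.mpr hab)

theorem Mab_le (n : ℕ) (hn : 1 ≤ n) (a b : ℤ) :
    |(Mab n a b : ℝ)| ≤ (|(a : ℝ)| + |(b : ℝ)| + 2) ^ (n + 4) := by
  set S : ℝ := |(a : ℝ)| + |(b : ℝ)| + 2 with hS
  have ha0 := abs_nonneg (a : ℝ)
  have hb0 := abs_nonneg (b : ℝ)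
  have hS2 : 2 ≤ S := by linarith
  have haS : |(a : ℝ)| ≤ S := by linarith
  have hbS : |(b : ℝ)| ≤ S := by linarith
  have hSn : S ≤ S ^ n := le_self_pow₀ (by linarith) (by omega)
  have hSn1 : 1 ≤ S ^ n := one_le_pow₀ (by linarith)
  unfold Mab
  split_ifs with h
  · have h1 : (1 : ℝ) ≤ S ^ 4 := one_le_pow₀ (by linarith)
    calc |(b : ℝ)| ≤ S := hbS
      _ ≤ S ^ n := hSn
      _ ≤ S ^ n * S ^ 4 := le_mul_of_one_le_right (by positivity) h1
      _ = S ^ (n + 4) := by ring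
  · push_cast
    rw [abs_mul]
    have h2 : |(b : ℝ) ^ 2 - 4 * (a : ℝ) ^ n| ≤ S ^ 2 + 4 * S ^ n := by
      refine (abs_sub _ _).trans ?_
      rw [abs_pow, abs_mul, abs_pow, abs_of_pos (show (0 : ℝ) < 4 by norm_num)]
      gcongr
    calc |(a : ℝ)| * |(b : ℝ) ^ 2 - 4 * (a : ℝ) ^ n| ≤ S * (S ^ 2 + 4 * S ^ n) := by gcongr
      _ ≤ S * (S ^ n * S ^ 3) := by
        gcongr
        have h3 : S ^ 2 ≤ S ^ n * S ^ 2 := le_mul_of_one_le_left (by positivity) hSn1
        have h4 : S ^ n * 4 ≤ S ^ n * S ^ 2 := by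
          gcongr
          nlinarith
        have h5 : S ^ n * S ^ 2 + S ^ n * S ^ 2 ≤ S ^ n * S ^ 3 := by
          have : S ^ n * S ^ 3 = S ^ n * S ^ 2 * S := by ring
          rw [this]
          have h6 : 0 ≤ S ^ n * S ^ 2 := by positivity
          nlinarith
        linarith
      _ = S ^ (n + 4) := by ring

/-- every prime `p ≡ 2` modulo `n` not dividing `n` and `Mab n a b` is a norm -/
theorem dickson_norm {n : ℕ} (hn : 3 ≤ n) {a b : ℤ} (h3 : a = 0 ∨ ¬ 3 ∣ n)
    {K : Type} [Field K] [NumberField K] (hdeg : Module.finrank ℚ K = n) (α : K)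
    (hα : IntermediateField.adjoin ℚ {α} = ⊤) (h0 : (dickson 1 (a : K) n).eval α = b)
    {p : ℕ} (hp : p.Prime) (hp2 : ((p : ℕ) : ZMod n) = ((2 : ℕ) : ZMod n)) (hpn : ¬ p ∣ n)
    (hpM : ¬ p ∣ (Mab n a b).natAbs) : ∃ P : Ideal (𝓞 K), Ideal.absNorm P = p := by
  have : Fact p.Prime := ⟨hp⟩
  have hmod : p ≡ 2 [MOD n] := (ZMod.natCast_eq_natCast_iff p 2 n).mp hp2
  have hp1 := hp.one_lt
  have hcop1 : Nat.Coprime n (p - 1) := by
    have h4 : (p - 1) + 1 ≡ 1 + 1 [MOD n] := by rwa [Nat.sub_add_cancel hp1.le]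
    have h5 : p - 1 ≡ 1 [MOD n] := Nat.ModEq.add_right_cancel' 1 h4
    have h6 := h5.gcd_eq
    rw [Nat.gcd_one_left] at h6
    rw [Nat.coprime_comm]
    exact h6
  have hcop2 : ¬ 3 ∣ n → Nat.Coprime n (p ^ 2 - 1) := by
    intro h
    have h4 : p ^ 2 ≡ 2 ^ 2 [MOD n] := hmod.pow 2
    have hp2' : 1 ≤ p ^ 2 := Nat.one_le_pow _ _ hp.pos
    have h5 : (p ^ 2 - 1) + 1 ≡ 3 + 1 [MOD n] := by
      rw [Nat.sub_add_cancel hp2']; exact h4
    have h6 : p ^ 2 - 1 ≡ 3 [MOD n] := Nat.ModEq.add_right_cancel' 1 h5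
    have h7 := h6.gcd_eq
    rw [Nat.coprime_comm, Nat.Coprime, h7]
    exact (Nat.Prime.coprime_iff_not_dvd Nat.prime_three).mpr h
  have hMz : ((Mab n a b : ℤ) : ZMod p) ≠ 0 := by
    intro h
    rw [ZMod.intCast_zmod_eq_zero_iff_dvd] at h
    exact hpM (Int.natCast_dvd.mp h)
  obtain ⟨r, hr, hr'⟩ : ∃ r : ZMod p, (dickson 1 ((a : ℤ) : ZMod p) n).eval r = ((b : ℤ) : ZMod p) ∧
      (derivative (dickson 1 ((a : ℤ) : ZMod p) n)).eval r ≠ 0 := by
    unfold Mab at hMz
    by_cases ha : a = 0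
    · rw [if_pos ha] at hMz
      rw [ha, Int.cast_zero]
      exact pure_root (by omega) hpn hcop1 hMz
    · rw [if_neg ha] at hMz
      push_cast at hMz
      have h3' : ¬ 3 ∣ n := by
        rcases h3 with h | h
        · exact absurd h ha
        · exact h
      exact dickson_root hpn (hcop2 h3') (left_ne_zero_of_mul hMz)
        (sub_ne_zero.mp (right_ne_zero_of_mul hMz))
  set g : ℤ[X] := dickson 1 a n - C b with hg
  obtain ⟨hm1, hm2⟩ := (dickson_monic a n).2 (by omega)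
  have hgm : g.Monic := hm1.sub_of_left (by
    refine lt_of_le_of_lt degree_C_le ?_
    rw [degree_eq_natDegree hm1.ne_zero, hm2]
    exact_mod_cast (by omega : 0 < n))
  have hgd : g.natDegree = n := by
    rw [hg, natDegree_sub_C, hm2]
  refine norm_of_root g hgm (hgd.trans hdeg.symm) α hα ?_ p hp r ?_ ?_
  · rw [hg, map_sub, aeval_C, aeval_def, eval₂_eq_eval_map, map_dickson]
    rw [eq_intCast, eq_intCast, h0, sub_self]
  · rw [hg, eval₂_sub, eval₂_C, eval₂_eq_eval_map, map_dickson, eq_intCast, eq_intCast, hr, sub_self]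
  · rw [hg, derivative_sub, derivative_C, sub_zero, eval₂_eq_eval_map, ← derivative_map,
      map_dickson, eq_intCast]
    exact hr'

end Pool.Agent.TH869.EVF
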