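import Pool.Agent.TH869.EVF.Zb
import Pool.Agent.TH869.EVF.Wf
import Pool.Agent.TH869.EVF.Fin1

set_option autoImplicit false

/-!
# Balanced symbols for all scales, outside a small exceptional set
-/

namespace Pool.Agent.TH869.EVF

open Polynomial Finset Filter Topology

theorem good_z (f : ℤ[X])
    (hf : ∀ (c : ℚ) (g : ℚ[X]), f.map (Int.castRingHom ℚ) ≠ C c * g ^ 2)
    (A : ℝ) (hA : 1 < A) (γ : ℝ) (hγ : 1 / A = 1 - 2 * γ) (ε : ℝ) (hε : 0 < ε) :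
    ∃ κ C : ℝ, 0 < κ ∧ κ ≤ 1 / 8 ∧ 0 < C ∧ ∀ N : ℕ, 1 ≤ N → ∃ E : Finset ℕ,
      (E.card : ℝ) ≤ C * (N : ℝ) ^ (1 - κ) ∧ ∀ n : ℕ, n ≤ N → n ∉ E →
      ∀ y : ℕ, (y : ℝ) ≤ (N : ℝ) ^ κ → |∑ p ∈ PR y, js f p n| ≤
        ε * (PR y).card + ((Nat.log 2 y : ℝ) + 1) * (y : ℝ) ^ (1 - γ) + Real.log N ^ A := by
  obtain ⟨K0, p0, hK0, hW⟩ := weil_f f hf
  obtain ⟨Z0, hZ02, hZ0⟩ := zbad f K0 p0 hK0 hW A hA γ hγ ε hε
  have hA0 : 0 < A := by linarith
  have hiA0 : 0 < 1 / A := by positivity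
  have hiA1 : 1 / A < 1 := by rw [div_lt_one hA0]; exact hA
  have hγ0 : 0 < γ := by linarith
  have hγ1 : γ < 1 / 2 := by linarith
  have hev : ∀ᶠ t : ℝ in atTop, Z0 ≤ Real.log t ^ A :=
    ((tendsto_rpow_atTop hA0).comp Real.tendsto_log_atTop).eventually_ge_atTop Z0
  obtain ⟨N1, hN1⟩ := eventually_atTop.mp hev
  refine ⟨γ / 32, 2 * max N1 1 + 3, by positivity, by linarith,
    by have := le_max_right N1 1; linarith, ?_⟩
  intro N hN
  have hNr1 : (1 : ℝ) ≤ N := by exact_mod_cast hN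
  have hN0 : (0 : ℝ) < N := by linarith
  set κ : ℝ := γ / 32 with hκ
  have hκ0 : 0 < κ := by positivity
  have hκ1 : κ ≤ 1 / 64 := by rw [hκ]; linarith
  have hNp : 0 ≤ (N : ℝ) ^ (1 - κ) := Real.rpow_nonneg hN0.le _
  have hm1 : 1 ≤ max N1 1 := le_max_right _ _
  rcases lt_or_ge (N : ℝ) N1 with hsmall | hlarge
  · refine ⟨range (N + 1), ?_, ?_⟩
    · rw [card_range]
      have h1 : (N : ℝ) = (N : ℝ) ^ κ * (N : ℝ) ^ (1 - κ) := by
        rw [← Real.rpow_add hN0]; simp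
      have h2 : (N : ℝ) ^ κ ≤ max N1 1 := by
        calc (N : ℝ) ^ κ ≤ (N : ℝ) ^ (1 : ℝ) :=
              Real.rpow_le_rpow_of_exponent_le hNr1 (by linarith)
          _ = N := Real.rpow_one _
          _ ≤ N1 := hsmall.le
          _ ≤ _ := le_max_left _ _
      have h3 : (N : ℝ) ≤ max N1 1 * (N : ℝ) ^ (1 - κ) := by
        calc (N : ℝ) = (N : ℝ) ^ κ * (N : ℝ) ^ (1 - κ) := h1
          _ ≤ _ := mul_le_mul_of_nonneg_right h2 hNp
      push_cast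
      nlinarith
    · intro n hn hnE
      exact absurd (mem_range.mpr (by omega)) hnE
  have hZN := hN1 N hlarge
  have hL0 : 0 ≤ Real.log N := Real.log_nonneg hNr1
  set V := (Icc 1 ⌊(N : ℝ) ^ κ⌋₊).filter (fun z : ℕ => Real.log N ^ A ≤ z ∧
    (z : ℝ) ^ (1 - γ) ≤ (Qz z).card) with hV
  have hzle : ∀ z : ℕ, (z : ℝ) ≤ (N : ℝ) ^ κ → (z : ℝ) ≤ (N : ℝ) ^ (1 / 8 : ℝ) := fun z hz =>
    hz.trans (Real.rpow_le_rpow_of_exponent_le hNr1 (by linarith))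
  refine ⟨V.biUnion (Bz f ε N), ?_, ?_⟩
  · have h1 : ∀ z ∈ V, ((Bz f ε N z).card : ℝ) ≤ 3 * (N : ℝ) ^ (1 - γ / 16) := by
      intro z hz
      rw [hV, mem_filter, mem_Icc] at hz
      obtain ⟨⟨hz1, hz2⟩, hz3, hz4⟩ := hz
      have hzκ : (z : ℝ) ≤ (N : ℝ) ^ κ :=
        (Nat.cast_le.mpr hz2).trans (Nat.floor_le (Real.rpow_nonneg hN0.le _))
      exact hZ0 N z hN (hZN.trans hz3) hz3 (hzle z hzκ) hz4
    have h2 : ((V.biUnion (Bz f ε N)).card : ℝ) ≤ ∑ z ∈ V, ((Bz f ε N z).card : ℝ) := by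
      exact_mod_cast card_biUnion_le
    have h3 : (V.card : ℝ) ≤ (N : ℝ) ^ κ := by
      have h4 : V.card ≤ ⌊(N : ℝ) ^ κ⌋₊ := by
        calc V.card ≤ (Icc 1 ⌊(N : ℝ) ^ κ⌋₊).card := card_filter_le _ _
          _ = _ := by rw [Nat.card_Icc, Nat.add_sub_cancel]
      exact (Nat.cast_le.mpr h4).trans (Nat.floor_le (Real.rpow_nonneg hN0.le _))
    calc ((V.biUnion (Bz f ε N)).card : ℝ) ≤ ∑ z ∈ V, ((Bz f ε N z).card : ℝ) := h2
      _ ≤ ∑ z ∈ V, 3 * (N : ℝ) ^ (1 - γ / 16) := sum_le_sum h1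
      _ = V.card * (3 * (N : ℝ) ^ (1 - γ / 16)) := by rw [sum_const, nsmul_eq_mul]
      _ ≤ (N : ℝ) ^ κ * (3 * (N : ℝ) ^ (1 - γ / 16)) := by
          have := Real.rpow_nonneg hN0.le (1 - γ / 16)
          gcongr
      _ = 3 * ((N : ℝ) ^ κ * (N : ℝ) ^ (1 - γ / 16)) := by ring
      _ = 3 * (N : ℝ) ^ (1 - κ) := by
          rw [← Real.rpow_add hN0]
          congr 2
          rw [hκ]; ring
      _ ≤ (2 * max N1 1 + 3) * (N : ℝ) ^ (1 - κ) := by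
          refine mul_le_mul_of_nonneg_right (by linarith) hNp
  · intro n hn hnE
    refine dyadic (fun p => js f p n) (fun p => js_abs f p n) ε γ (Real.log N ^ A) ((N : ℝ) ^ κ)
      (Real.rpow_nonneg hL0 _) hε.le (by linarith) ?_
    intro z hz1 hz2
    have hz0 : 0 ≤ (z : ℝ) ^ (1 - γ) := Real.rpow_nonneg (by positivity) _
    by_cases hc : (z : ℝ) ^ (1 - γ) ≤ (Qz z).card
    · have hzpos : 1 ≤ z := by
        have : (2 : ℝ) ≤ z := hZ02.trans (hZN.trans hz1)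
        have : (1 : ℝ) ≤ z := by linarith
        exact_mod_cast this
      have hzV : z ∈ V := by
        rw [hV, mem_filter, mem_Icc]
        exact ⟨⟨hzpos, Nat.le_floor hz2⟩, hz1, hc⟩
      have h1 : n ∉ Bz f ε N z := fun h => hnE (mem_biUnion.mpr ⟨z, hzV, h⟩)
      rw [Bz, mem_filter, mem_range] at h1
      push Not at h1
      have h2 := h1 (by omega)
      linarith
    · push Not at hc
      have h1 : |∑ p ∈ Qz z, js f p n| ≤ (Qz z).card := by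
        refine (abs_sum_le_sum_abs _ _).trans ?_
        calc ∑ p ∈ Qz z, |js f p n| ≤ ∑ p ∈ Qz z, (1 : ℝ) := sum_le_sum fun p _ => js_abs f p n
          _ = (Qz z).card := by simp
      have h2 : 0 ≤ ε * ((Qz z).card : ℝ) := by positivity
      linarith

end Pool.Agent.TH869.EVF
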