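import Pool.Agent.TH869.EVF.Block

set_option autoImplicit false

/-!
# High moments of sums over primes, by blocks
-/

namespace Pool.Agent.TH869.EVF

open Finset

theorem moment_bad (ψ : ℕ → ℕ → ℝ) (K y0 : ℝ) (y : ℕ) (hK : 0 ≤ K) (hy0 : 0 < y0) (hy : 1 ≤ y)
    (P : Finset ℕ) (hprime : ∀ p ∈ P, p.Prime ∧ y0 ≤ p ∧ p ≤ y)
    (hper : ∀ p ∈ P, Per (ψ p) p) (hle : ∀ p n, |ψ p n| ≤ 1)
    (hsum : ∀ p ∈ P, |∑ n ∈ range p, ψ p n| ≤ K * √p) (N m k : ℕ) (hk : 1 ≤ k)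
    (hks : k ≤ P.card) (ε : ℝ) (hε : 0 < ε) (hmk : 4 * (m : ℝ) ≤ ε * k)
    (hsy : (P.card : ℝ) ≤ 2 * y0) :
    (((range N).filter (fun n => ε * P.card < |∑ p ∈ P, ψ p n|)).card : ℝ) ≤
      2 ^ k * (N * (8 * (1 + 4 * K ^ 2) * k / (ε ^ 2 * P.card)) ^ m + ((4 * y / ε) ^ 2) ^ m) := by
  classical
  obtain ⟨F, hF, hFk⟩ := Finpartition.exists_equipartition_card_eq P (by omega : k ≠ 0) hks
  set s : ℝ := (P.card : ℝ) with hs
  have hkr : (1 : ℝ) ≤ k := by exact_mod_cast hk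
  have hksr : (k : ℝ) ≤ s := by rw [hs]; exact_mod_cast hks
  have hs0 : 0 < s := by linarith
  set b : ℕ := P.card / k + 1 with hb
  have hbs : (b : ℝ) ≤ 2 * s / k := by
    have h1 : ((P.card / k : ℕ) : ℝ) ≤ s / k := Nat.cast_div_le
    have h2 : (1 : ℝ) ≤ s / k := by rw [le_div_iff₀ (by linarith)]; linarith
    rw [hb]; push_cast
    have : 2 * s / k = s / k + s / k := by ring
    linarith
  have hb0 : (0 : ℝ) < b := by rw [hb]; positivity
  have hcard : ∀ i ∈ F.parts, i.card ≤ b := by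
    intro i hi
    have := hF.card_part_le_average_add_one hi
    rwa [hFk] at this
  have hsub : ∀ i ∈ F.parts, i ⊆ P := fun i hi => F.le hi
  set S : Finset ℕ → ℕ → ℝ := fun i n => ∑ p ∈ i, ψ p n with hS
  have hSle : ∀ i ∈ F.parts, ∀ n, |S i n| ≤ b := by
    intro i hi n
    refine (abs_sum_le_sum_abs _ _).trans ?_
    calc ∑ p ∈ i, |ψ p n| ≤ ∑ p ∈ i, (1 : ℝ) := sum_le_sum fun p _ => hle p n
      _ = i.card := by simp
      _ ≤ b := by exact_mod_cast hcard i hi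
  have hsumP : ∀ n, ∑ p ∈ P, ψ p n = ∑ i ∈ F.parts, S i n := by
    intro n
    rw [hS]
    simp only
    rw [← sum_biUnion]
    · congr 1
      exact F.biUnion_parts.symm
    · exact F.disjoint
  set τ : ℝ := ε / 2 * s / k with hτ
  have hτ0 : 0 < τ := by positivity
  set Bad := (range N).filter (fun n => ε * s < |∑ p ∈ P, ψ p n|) with hBad
  -- pointwise
  have hpt : ∀ n ∈ Bad, (τ ^ 2) ^ m ≤ ∑ I ∈ powersetCard m F.parts, ∏ i ∈ I, (S i n) ^ 2 := by
    intro n hn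
    rw [hBad, mem_filter] at hn
    set J := F.parts.filter (fun i => τ ≤ |S i n|) with hJ
    have hJm : m ≤ J.card := by
      by_contra hlt
      push Not at hlt
      have h1 : |∑ p ∈ P, ψ p n| ≤ ∑ i ∈ F.parts, |S i n| := by
        rw [hsumP]; exact abs_sum_le_sum_abs _ _
      have h2 : ∑ i ∈ F.parts, |S i n| = ∑ i ∈ J, |S i n| +
          ∑ i ∈ F.parts.filter (fun i => ¬ τ ≤ |S i n|), |S i n| :=
        (sum_filter_add_sum_filter_not _ _ _).symm
      have h3 : ∑ i ∈ J, |S i n| ≤ m * b := by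
        calc ∑ i ∈ J, |S i n| ≤ ∑ i ∈ J, (b : ℝ) :=
              sum_le_sum fun i hi => hSle i (mem_of_mem_filter i hi) n
          _ = J.card * b := by rw [sum_const, nsmul_eq_mul]
          _ ≤ m * b := by
              have : (J.card : ℝ) ≤ m := by exact_mod_cast hlt.le
              gcongr
      have h4 : ∑ i ∈ F.parts.filter (fun i => ¬ τ ≤ |S i n|), |S i n| ≤ k * τ := by
        calc ∑ i ∈ F.parts.filter (fun i => ¬ τ ≤ |S i n|), |S i n|
            ≤ ∑ i ∈ F.parts.filter (fun i => ¬ τ ≤ |S i n|), τ :=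
              sum_le_sum fun i hi => (not_le.mp (mem_filter.mp hi).2).le
          _ = (F.parts.filter (fun i => ¬ τ ≤ |S i n|)).card * τ := by
              rw [sum_const, nsmul_eq_mul]
          _ ≤ k * τ := by
              have : ((F.parts.filter (fun i => ¬ τ ≤ |S i n|)).card : ℝ) ≤ k := by
                have := card_filter_le F.parts (fun i => ¬ τ ≤ |S i n|)
                rw [hFk] at this
                exact_mod_cast this
              gcongr
      have h5 : k * τ = ε / 2 * s := by rw [hτ]; field_simp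
      have h6 : m * (b : ℝ) ≤ ε / 2 * s := by
        calc m * (b : ℝ) ≤ m * (2 * s / k) := by gcongr
          _ = (4 * m) * (s / (2 * k)) := by ring
          _ ≤ (ε * k) * (s / (2 * k)) := by gcongr
          _ = ε / 2 * s := by field_simp
      have h7 := hn.2
      linarith
    obtain ⟨I, hIJ, hIm⟩ := exists_subset_card_eq hJm
    have hI : I ∈ powersetCard m F.parts :=
      mem_powersetCard.mpr ⟨hIJ.trans (filter_subset _ _), hIm⟩
    calc (τ ^ 2) ^ m = ∏ i ∈ I, τ ^ 2 := by rw [prod_const, hIm]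
      _ ≤ ∏ i ∈ I, (S i n) ^ 2 := by
          refine prod_le_prod (fun i _ => by positivity) fun i hi => ?_
          rw [← sq_abs (S i n)]
          exact pow_le_pow_left₀ hτ0.le (mem_filter.mp (hIJ hi)).2 2
      _ ≤ _ := single_le_sum (f := fun I => ∏ i ∈ I, (S i n) ^ 2)
          (fun I _ => prod_nonneg fun i _ => sq_nonneg _) hI
  -- average
  have hav : ∀ I ∈ powersetCard m F.parts, ∑ n ∈ range N, ∏ i ∈ I, (S i n) ^ 2 ≤
      N * (b + b ^ 2 * (K ^ 2 / y0)) ^ m + ((b : ℝ) ^ 2 * y ^ 2) ^ m := by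
    intro I hI
    rw [mem_powersetCard] at hI
    have hbl := block (ι := Finset ℕ) ψ K y0 y b hK hy0 hy (fun i => i) I
      (fun i hi p hp => hprime p (hsub i (hI.1 hi) hp)) (fun i hi => hcard i (hI.1 hi))
      (fun i hi j hj hij => F.disjoint (hI.1 hi) (hI.1 hj) hij)
      (fun i hi p hp => hper p (hsub i (hI.1 hi) hp)) hle
      (fun i hi p hp => hsum p (hsub i (hI.1 hi) hp)) N 1 (fun _ => 1) one_pos (fun _ => rfl)
      (fun _ => by simp) (fun _ _ _ _ => Nat.coprime_one_left _)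
    simp only [one_mul, range_one, sum_singleton, abs_one, Nat.cast_one, div_one, mul_one,
      hI.2] at hbl
    exact (le_abs_self _).trans hbl
  have htot : (Bad.card : ℝ) * (τ ^ 2) ^ m ≤
      2 ^ k * (N * (b + b ^ 2 * (K ^ 2 / y0)) ^ m + ((b : ℝ) ^ 2 * y ^ 2) ^ m) := by
    calc (Bad.card : ℝ) * (τ ^ 2) ^ m = ∑ n ∈ Bad, (τ ^ 2) ^ m := by
          rw [sum_const, nsmul_eq_mul]
      _ ≤ ∑ n ∈ Bad, ∑ I ∈ powersetCard m F.parts, ∏ i ∈ I, (S i n) ^ 2 := sum_le_sum hpt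
      _ ≤ ∑ n ∈ range N, ∑ I ∈ powersetCard m F.parts, ∏ i ∈ I, (S i n) ^ 2 :=
          sum_le_sum_of_subset_of_nonneg (filter_subset _ _) fun n _ _ =>
            sum_nonneg fun I _ => prod_nonneg fun i _ => sq_nonneg _
      _ = ∑ I ∈ powersetCard m F.parts, ∑ n ∈ range N, ∏ i ∈ I, (S i n) ^ 2 := sum_comm
      _ ≤ ∑ I ∈ powersetCard m F.parts,
            (N * (b + b ^ 2 * (K ^ 2 / y0)) ^ m + ((b : ℝ) ^ 2 * y ^ 2) ^ m) := sum_le_sum hav
      _ = ((powersetCard m F.parts).card : ℝ) *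
            (N * (b + b ^ 2 * (K ^ 2 / y0)) ^ m + ((b : ℝ) ^ 2 * y ^ 2) ^ m) := by
          rw [sum_const, nsmul_eq_mul]
      _ ≤ _ := by
          have h1 : (powersetCard m F.parts).card ≤ 2 ^ k := by
            rw [card_powersetCard, hFk]
            exact Nat.choose_le_two_pow k m
          have h2 : ((powersetCard m F.parts).card : ℝ) ≤ 2 ^ k := by exact_mod_cast h1
          gcongr
  have hW : (b + b ^ 2 * (K ^ 2 / y0) : ℝ) ≤ 8 * (1 + 4 * K ^ 2) * k / (ε ^ 2 * s) * τ ^ 2 := by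
    have h1 : 8 * (1 + 4 * K ^ 2) * k / (ε ^ 2 * s) * τ ^ 2 = (2 * s / k) * (1 + 4 * K ^ 2) := by
      rw [hτ]; field_simp; ring
    rw [h1]
    have h2 : (b : ℝ) / y0 ≤ 4 := by
      rw [div_le_iff₀ hy0]
      calc (b : ℝ) ≤ 2 * s / k := hbs
        _ ≤ 2 * s / 1 := by gcongr
        _ ≤ 4 * y0 := by linarith
    calc (b + b ^ 2 * (K ^ 2 / y0) : ℝ) = b * (1 + (b / y0) * K ^ 2) := by ring
      _ ≤ (2 * s / k) * (1 + 4 * K ^ 2) := by gcongr
  have hB : ((b : ℝ) ^ 2 * y ^ 2) ≤ (4 * y / ε) ^ 2 * τ ^ 2 := by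
    have h1 : (4 * y / ε) ^ 2 * τ ^ 2 = (2 * s / k) ^ 2 * (y : ℝ) ^ 2 := by
      rw [hτ]; field_simp; ring
    rw [h1]
    gcongr
  have hτm : 0 < (τ ^ 2) ^ m := by positivity
  refine le_of_mul_le_mul_right (htot.trans ?_) hτm
  calc 2 ^ k * (N * (b + b ^ 2 * (K ^ 2 / y0)) ^ m + ((b : ℝ) ^ 2 * y ^ 2) ^ m)
      ≤ 2 ^ k * (N * (8 * (1 + 4 * K ^ 2) * k / (ε ^ 2 * s) * τ ^ 2) ^ m +
          ((4 * y / ε) ^ 2 * τ ^ 2) ^ m) := by gcongr
    _ = _ := by rw [mul_pow, mul_pow]; ring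

end Pool.Agent.TH869.EVF
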