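import Mathlib

set_option autoImplicit false

/-!
# An ideal of norm `p` from a simple root modulo `p` of the minimal polynomial
-/

namespace Pool.Agent.TH869.EVF

open Polynomial NumberField

variable {K : Type} [Field K] [NumberField K]

/-- the derivative of the minimal polynomial maps the ring of integers to `ℤ[α]` -/
theorem der_mul_mem (α : 𝓞 K) (hα : Algebra.adjoin ℚ {algebraMap (𝓞 K) K α} = ⊤) (z : 𝓞 K) :
    aeval α (derivative (minpoly ℤ α)) * z ∈ Algebra.adjoin ℤ {α} := by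
  have h := conductor_mul_differentIdeal ℤ ℚ K α hα
  have h2 : aeval α (derivative (minpoly ℤ α)) ∈
      conductor ℤ α * differentIdeal ℤ (𝓞 K) :=
    h.symm ▸ Ideal.mem_span_singleton_self _
  have h3 : conductor ℤ α * differentIdeal ℤ (𝓞 K) ≤ conductor ℤ α := Ideal.mul_le_left
  exact (mem_conductor_iff.mp (h3 h2)) z

/-- reduction of `ℤ[α]` at a root modulo `p` -/
noncomputable def red (α : 𝓞 K) (p : ℕ) (r : ZMod p)
    (hr : (minpoly ℤ α).eval₂ (Int.castRingHom (ZMod p)) r = 0) :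
    Algebra.adjoin ℤ {α} →+* ZMod p :=
  (AdjoinRoot.lift (Int.castRingHom (ZMod p)) r hr).comp
    ((minpoly.equivAdjoin (Algebra.IsIntegral.isIntegral (R := ℤ) α)).symm :
      Algebra.adjoin ℤ {α} →+* AdjoinRoot (minpoly ℤ α))

theorem red_aeval (α : 𝓞 K) (p : ℕ) (r : ZMod p)
    (hr : (minpoly ℤ α).eval₂ (Int.castRingHom (ZMod p)) r = 0) (q : ℤ[X])
    (hq : aeval α q ∈ Algebra.adjoin ℤ {α}) :
    red α p r hr ⟨aeval α q, hq⟩ = q.eval₂ (Int.castRingHom (ZMod p)) r := by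
  unfold red
  set e := minpoly.equivAdjoin (Algebra.IsIntegral.isIntegral (R := ℤ) α) with he
  have h1 : e (AdjoinRoot.mk (minpoly ℤ α) q) = ⟨aeval α q, hq⟩ := by
    apply Subtype.ext
    rw [he, minpoly.coe_equivAdjoin]
    simp only [AdjoinRoot.Minpoly.coe_toAdjoin, AdjoinRoot.liftAlgHom_mk]
    have h5 := Polynomial.hom_eval₂ q (algebraMap ℤ (Algebra.adjoin ℤ {α}))
      ((Algebra.adjoin ℤ {α}).val : Algebra.adjoin ℤ {α} →+* 𝓞 K)
      ⟨α, Algebra.self_mem_adjoin_singleton ℤ α⟩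
    rw [aeval_def]
    refine Eq.trans ?_ (h5.trans ?_)
    · rfl
    · congr 1
  have h2 : e.symm ⟨aeval α q, hq⟩ = AdjoinRoot.mk (minpoly ℤ α) q := by
    rw [← h1, AlgEquiv.symm_apply_apply]
  rw [RingHom.comp_apply]
  have h3 : ((e.symm : Algebra.adjoin ℤ {α} →+* AdjoinRoot (minpoly ℤ α)) ⟨aeval α q, hq⟩) =
      e.symm ⟨aeval α q, hq⟩ := rfl
  rw [h3, h2, AdjoinRoot.lift_mk]

/-- an ideal of norm `p` -/
theorem exists_norm (α : 𝓞 K) (hα : Algebra.adjoin ℚ {algebraMap (𝓞 K) K α} = ⊤) (p : ℕ) (hp : p.Prime)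
    (r : ZMod p) (hr : (minpoly ℤ α).eval₂ (Int.castRingHom (ZMod p)) r = 0)
    (hr' : (derivative (minpoly ℤ α)).eval₂ (Int.castRingHom (ZMod p)) r ≠ 0) :
    ∃ P : Ideal (𝓞 K), Ideal.absNorm P = p := by
  have : Fact p.Prime := ⟨hp⟩
  set c : 𝓞 K := aeval α (derivative (minpoly ℤ α)) with hc
  have hcz : ∀ z : 𝓞 K, c * z ∈ Algebra.adjoin ℤ {α} := fun z => der_mul_mem α hα z
  have hc1 : c ∈ Algebra.adjoin ℤ {α} := by simpa using hcz 1
  set φ := red α p r hr with hφ
  set s : ZMod p := (derivative (minpoly ℤ α)).eval₂ (Int.castRingHom (ZMod p)) r with hs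
  have hφc : φ ⟨c, hc1⟩ = s := red_aeval α p r hr _ _
  have hmulc : ∀ z w : 𝓞 K, φ ⟨c * z, hcz z⟩ * φ ⟨c * w, hcz w⟩ = s * φ ⟨c * (z * w), hcz _⟩ := by
    intro z w
    rw [← hφc, ← map_mul, ← map_mul]
    congr 1
    apply Subtype.ext
    show c * z * (c * w) = c * (c * (z * w))
    ring
  let Φ : 𝓞 K →+* ZMod p :=
    { toFun := fun z => φ ⟨c * z, hcz z⟩ * s⁻¹
      map_one' := by
        have : (⟨c * 1, hcz 1⟩ : Algebra.adjoin ℤ {α}) = ⟨c, hc1⟩ := by
          apply Subtype.ext; show c * 1 = c; ring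
        rw [this, hφc]
        exact mul_inv_cancel₀ hr'
      map_mul' := by
        intro z w
        have h := hmulc z w
        have h2 : φ ⟨c * (z * w), hcz _⟩ = s⁻¹ * (φ ⟨c * z, hcz z⟩ * φ ⟨c * w, hcz w⟩) := by
          have h3 := congrArg (fun t => s⁻¹ * t) h
          simp only [inv_mul_cancel_left₀ hr'] at h3
          exact h3.symm
        rw [h2]
        ring
      map_zero' := by
        have : (⟨c * 0, hcz 0⟩ : Algebra.adjoin ℤ {α}) = 0 := by
          apply Subtype.ext; show c * 0 = 0; ring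
        rw [this, map_zero, zero_mul]
      map_add' := by
        intro z w
        have : (⟨c * (z + w), hcz _⟩ : Algebra.adjoin ℤ {α}) = ⟨c * z, hcz z⟩ + ⟨c * w, hcz w⟩ := by
          apply Subtype.ext; show c * (z + w) = c * z + c * w; ring
        rw [this, map_add, add_mul] }
  have hsurj : Function.Surjective Φ := by
    intro y
    refine ⟨((y.val : ℕ) : 𝓞 K), ?_⟩
    rw [map_natCast, ZMod.natCast_zmod_val]
  refine ⟨RingHom.ker Φ, ?_⟩
  rw [Ideal.absNorm_apply, Submodule.cardQuot_apply]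
  have e := RingHom.quotientKerEquivOfSurjective hsurj
  rw [Nat.card_congr e.toEquiv, Nat.card_zmod]

end Pool.Agent.TH869.EVF
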