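import Mathlib

set_option autoImplicit false

/-!
# Integer polynomials which are not a constant times a square, modulo large primes
-/

namespace Pool.Agent.TH869.EVF

open Polynomial

/-- squarefree decomposition -/
theorem exists_sqf (n : ℕ) : ∀ f : ℚ[X], f ≠ 0 → f.natDegree ≤ n →
    ∃ s g : ℚ[X], f = s * g ^ 2 ∧ Squarefree s := by
  induction n with
  | zero =>
    intro f hf hn
    refine ⟨f, 1, by ring, ?_⟩
    have h1 : IsUnit f := by
      rw [Polynomial.isUnit_iff_degree_eq_zero, degree_eq_natDegree hf]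
      simpa using hn
    exact h1.squarefree
  | succ n ih =>
    intro f hf hn
    by_cases hsq : Squarefree f
    · exact ⟨f, 1, by ring, hsq⟩
    · unfold Squarefree at hsq
      push Not at hsq
      obtain ⟨x, ⟨y, hxy⟩, hx⟩ := hsq
      have hx0 : x ≠ 0 := by rintro rfl; apply hf; rw [hxy]; ring
      have hy0 : y ≠ 0 := by rintro rfl; apply hf; rw [hxy]; ring
      have hxd : 1 ≤ x.natDegree := by
        by_contra h
        apply hx
        rw [Polynomial.isUnit_iff_degree_eq_zero, degree_eq_natDegree hx0]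
        have : x.natDegree = 0 := by omega
        rw [this]; rfl
      have hdeg : f.natDegree = x.natDegree + x.natDegree + y.natDegree := by
        rw [hxy, natDegree_mul (mul_ne_zero hx0 hx0) hy0, natDegree_mul hx0 hx0]
      obtain ⟨s, g, h1, h2⟩ := ih y hy0 (by omega)
      exact ⟨s, x * g, by rw [hxy, h1]; ring, h2⟩

/-- clearing denominators -/
theorem exists_int (f : ℚ[X]) : ∃ (d : ℤ) (F : ℤ[X]), d ≠ 0 ∧
    F.map (Int.castRingHom ℚ) = C (d : ℚ) * f := by
  obtain ⟨b, hbm, hb⟩ := IsLocalization.integerNormalization_spec (nonZeroDivisors ℤ) f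
  refine ⟨b, IsLocalization.integerNormalization (nonZeroDivisors ℤ) f,
    nonZeroDivisors.ne_zero hbm, ?_⟩
  have e : (algebraMap ℤ ℚ) = Int.castRingHom ℚ := rfl
  rw [e] at hb
  rw [hb, zsmul_eq_mul, map_intCast]

theorem map_inj (F G : ℤ[X]) (h : F.map (Int.castRingHom ℚ) = G.map (Int.castRingHom ℚ)) : F = G :=
  Polynomial.map_injective _ (RingHom.injective_int _) h

/-- modulo a large prime the polynomial is not a constant times a square -/
theorem not_sq_mod (f : ℤ[X])
    (hf : ∀ (c : ℚ) (g : ℚ[X]), f.map (Int.castRingHom ℚ) ≠ C c * g ^ 2) :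
    ∃ p0 : ℕ, ∀ p : ℕ, p.Prime → p0 < p → ∀ (c : ZMod p) (h : (ZMod p)[X]),
      f.map (Int.castRingHom (ZMod p)) ≠ C c * h ^ 2 := by
  have hf0 : f.map (Int.castRingHom ℚ) ≠ 0 := by
    intro h; exact hf 0 0 (by rw [h]; simp)
  obtain ⟨s, g, hsg, hs⟩ := exists_sqf _ _ hf0 le_rfl
  obtain ⟨d1, S, hd1, hS⟩ := exists_int s
  obtain ⟨d2, G, hd2, hG⟩ := exists_int g
  have hs0 : s ≠ 0 := hs.ne_zero
  have hg0 : g ≠ 0 := by rintro rfl; apply hf0; rw [hsg]; ring
  have hsdeg : 1 ≤ s.natDegree := by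
    by_contra h
    have h1 : s = C (s.coeff 0) := eq_C_of_natDegree_eq_zero (by omega)
    exact hf (s.coeff 0) g (by rw [← h1]; exact hsg)
  have hrel : C (d1 * d2 ^ 2) * f = S * G ^ 2 := by
    apply map_inj
    rw [Polynomial.map_mul, Polynomial.map_mul, Polynomial.map_pow, hS, hG, map_C, hsg]
    simp only [eq_intCast, Int.cast_mul, Int.cast_pow, C_mul, C_pow]
    ring
  have hS0 : S ≠ 0 := by
    rintro rfl
    rw [Polynomial.map_zero] at hS
    have : C (d1 : ℚ) * s ≠ 0 := mul_ne_zero (by rw [Ne, C_eq_zero]; exact_mod_cast hd1) hs0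
    exact this hS.symm
  have hG0 : G ≠ 0 := by
    rintro rfl
    rw [Polynomial.map_zero] at hG
    have : C (d2 : ℚ) * g ≠ 0 := mul_ne_zero (by rw [Ne, C_eq_zero]; exact_mod_cast hd2) hg0
    exact this hG.symm
  have hSdeg : 1 ≤ S.natDegree := by
    have h1 : (S.map (Int.castRingHom ℚ)).natDegree = S.natDegree :=
      natDegree_map_eq_of_injective (RingHom.injective_int _) S
    rw [← h1, hS, natDegree_C_mul (by exact_mod_cast hd1)]
    exact hsdeg
  -- separability over the rationals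
  have hsep : (S.map (Int.castRingHom ℚ)).Separable := by
    rw [hS]
    apply Separable.unit_mul
    · rw [isUnit_C, isUnit_iff_ne_zero]; exact_mod_cast hd1
    · exact PerfectField.separable_iff_squarefree.mpr hs
  obtain ⟨u, v, huv⟩ := hsep
  obtain ⟨d3, U, hd3, hU⟩ := exists_int u
  obtain ⟨d4, V, hd4, hV⟩ := exists_int v
  have hbez : C d4 * U * S + C d3 * V * derivative S = C (d3 * d4) := by
    apply map_inj
    have ec : ∀ z : ℤ, (Int.castRingHom ℚ) z = (z : ℚ) := fun z => rfl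
    simp only [Polynomial.map_add, Polynomial.map_mul, map_C, ← derivative_map, hU, hV,
      ec, C_mul]
    linear_combination (C (d3 : ℚ) * C (d4 : ℚ)) * huv
  set N : ℤ := d1 * d2 ^ 2 * S.leadingCoeff * G.leadingCoeff * (d3 * d4) with hN
  have hN0 : N ≠ 0 := by
    rw [hN]
    have := leadingCoeff_ne_zero.mpr hS0
    have := leadingCoeff_ne_zero.mpr hG0
    positivity
  refine ⟨N.natAbs, ?_⟩
  intro p hp hpN c h hch
  have : Fact p.Prime := ⟨hp⟩
  have hNp : ((N : ℤ) : ZMod p) ≠ 0 := by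
    intro h1
    rw [ZMod.intCast_zmod_eq_zero_iff_dvd] at h1
    have h2 := Nat.le_of_dvd (Int.natAbs_pos.mpr hN0) (Int.natCast_dvd.mp h1)
    omega
  rw [hN] at hNp
  push_cast at hNp
  have e1 : ((d3 : ZMod p) * d4) ≠ 0 := right_ne_zero_of_mul hNp
  have hNp2 := left_ne_zero_of_mul hNp
  have e2 : ((G.leadingCoeff : ℤ) : ZMod p) ≠ 0 := right_ne_zero_of_mul hNp2
  have hNp3 := left_ne_zero_of_mul hNp2
  have e3 : ((S.leadingCoeff : ℤ) : ZMod p) ≠ 0 := right_ne_zero_of_mul hNp3
  have e4 : ((d1 : ZMod p) * d2 ^ 2) ≠ 0 := left_ne_zero_of_mul hNp3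
  set φ := Int.castRingHom (ZMod p) with hφ
  set S' := S.map φ with hS'
  set G' := G.map φ with hG'
  have hS'deg : S'.natDegree = S.natDegree :=
    natDegree_map_of_leadingCoeff_ne_zero φ (by rw [hφ, eq_intCast]; exact e3)
  have hG'0 : G' ≠ 0 := by
    intro h1
    have h2 : G'.coeff G.natDegree = 0 := by rw [h1]; simp
    rw [hG', coeff_map, coeff_natDegree, hφ, eq_intCast] at h2
    exact e2 h2
  have hS'0 : S' ≠ 0 := by
    rintro h1
    rw [h1, natDegree_zero] at hS'deg
    omega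
  have hsep' : S'.Separable := by
    have h1 := congrArg (Polynomial.map φ) hbez
    simp only [Polynomial.map_add, Polynomial.map_mul, map_C, ← derivative_map] at h1
    rw [← hS'] at h1
    have h5 : φ (d3 * d4) ≠ 0 := by rw [hφ, eq_intCast]; push_cast; exact e1
    refine ⟨C (φ (d3 * d4))⁻¹ * (C (φ d4) * U.map φ), C (φ (d3 * d4))⁻¹ * (C (φ d3) * V.map φ), ?_⟩
    have h6 : C (φ (d3 * d4))⁻¹ * C (φ (d3 * d4)) = (1 : (ZMod p)[X]) := by
      rw [← C_mul, inv_mul_cancel₀ h5, C_1]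
    calc _ = C (φ (d3 * d4))⁻¹ * (C (φ d4) * U.map φ * S' + C (φ d3) * V.map φ * derivative S') := by
          ring
      _ = 1 := by rw [h1, h6]
  have hrel' : C (φ (d1 * d2 ^ 2)) * (C c * h ^ 2) = S' * G' ^ 2 := by
    have h1 := congrArg (Polynomial.map φ) hrel
    rw [Polynomial.map_mul, map_C, Polynomial.map_mul, Polynomial.map_pow, hch] at h1
    exact h1
  set e : ZMod p := φ (d1 * d2 ^ 2) * c with he
  have hrel2 : C e * h ^ 2 = S' * G' ^ 2 := by
    rw [he, C_mul, ← hrel']; ring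
  have he0 : e ≠ 0 := by
    intro h1
    rw [h1, C_0, zero_mul] at hrel2
    exact (mul_ne_zero hS'0 (pow_ne_zero 2 hG'0)) hrel2.symm
  have hsqq : (C e * h) ^ 2 = (C e * S') * G' ^ 2 := by
    calc (C e * h) ^ 2 = C e * (C e * h ^ 2) := by ring
      _ = _ := by rw [hrel2]; ring
  have hdvd : G' ∣ C e * h := by
    rw [← UniqueFactorizationMonoid.pow_dvd_pow_iff_dvd (two_ne_zero), hsqq]
    exact Dvd.intro_left _ rfl
  obtain ⟨t, ht⟩ := hdvd
  have ht2 : t ^ 2 = C e * S' := by
    have h1 : G' ^ 2 * t ^ 2 = G' ^ 2 * (C e * S') := by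
      rw [← mul_pow, ← ht, hsqq]; ring
    exact mul_left_cancel₀ (pow_ne_zero 2 hG'0) h1
  have hS't : S' = t * t * C e⁻¹ := by
    have h6 : C e * C e⁻¹ = (1 : (ZMod p)[X]) := by
      rw [← C_mul, mul_inv_cancel₀ he0, C_1]
    calc S' = (C e * C e⁻¹) * S' := by rw [h6, one_mul]
      _ = (C e * S') * C e⁻¹ := by ring
      _ = _ := by rw [← ht2]; ring
  have hunit : IsUnit t := hsep'.squarefree t ⟨C e⁻¹, hS't⟩
  have hdeg0 : S'.natDegree = 0 := by
    have h1 : IsUnit S' := by
      rw [hS't]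
      exact (hunit.mul hunit).mul (isUnit_C.mpr (isUnit_iff_ne_zero.mpr (inv_ne_zero he0)))
    exact natDegree_eq_zero_of_isUnit h1
  omega

end Pool.Agent.TH869.EVF
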