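import Pool.Agent.TH869.EVF.Gs

set_option autoImplicit false

/-!
# Witnesses for the strong test from symbols
-/

namespace Pool.Agent.TH869.EVF

open Polynomial Finset Filter Topology

/-- `n` fails the strong test for the base `b` -/
def IsWit (n b : ℕ) : Prop :=
  ∀ j d : ℕ, n - 1 = 2 ^ j * d → Odd d →
    (b : ZMod n) ^ d ≠ 1 ∧ ∀ i : ℕ, i < j → (b : ZMod n) ^ (2 ^ i * d) ≠ -1

theorem leg_pow (p : ℕ) [Fact p.Prime] (b : ℕ) :
    ((jacobiSym b p : ℤ) : ZMod p) = (b : ZMod p) ^ (p / 2) := by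
  rw [← jacobiSym.legendreSym.to_jacobiSym, legendreSym.eq_pow]
  push_cast
  rfl

theorem one_ne_neg (p : ℕ) [Fact p.Prime] (hp2 : p ≠ 2) : (1 : ZMod p) ≠ -1 := by
  have : Fact (2 < p) := ⟨by have := (Fact.out : p.Prime).two_le; omega⟩
  exact (ZMod.neg_one_ne_one (n := p)).symm

theorem pass_one (p : ℕ) [Fact p.Prime] (hp2 : p ≠ 2) (b d : ℕ) (hd : Odd d)
    (h : (b : ZMod p) ^ d = 1) : jacobiSym b p = 1 := by
  have h1 := leg_pow p b
  have h2 : (((jacobiSym b p : ℤ) : ZMod p)) ^ d = 1 := by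
    rw [h1, ← pow_mul, mul_comm, pow_mul, h, one_pow]
  rcases jacobiSym.trichotomy b p with h3 | h3 | h3
  · rw [h3] at h2
    have hd0 : d ≠ 0 := by rintro rfl; exact absurd hd (by decide)
    rw [Int.cast_zero, zero_pow hd0] at h2
    exact absurd h2 zero_ne_one
  · exact h3
  · rw [h3, Int.cast_neg, Int.cast_one, hd.neg_one_pow] at h2
    exact absurd h2.symm (one_ne_neg p hp2)

theorem pass_neg (p : ℕ) [Fact p.Prime] (hp2 : p ≠ 2) (b d i : ℕ) (hd : Odd d)
    (h : (b : ZMod p) ^ (2 ^ i * d) = -1) (e u : ℕ) (hu : Odd u) (he : p - 1 = 2 ^ e * u) :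
    i < e ∧ (i + 1 = e → jacobiSym b p = -1) ∧ (i + 1 ≠ e → jacobiSym b p = 1) := by
  have hd0 : d ≠ 0 := by rintro rfl; exact absurd hd (by decide)
  have hb0 : (b : ZMod p) ≠ 0 := by
    intro h0
    rw [h0, zero_pow (by positivity)] at h
    have : (1 : ZMod p) = 0 := by
      have h2 := congrArg (fun x : ZMod p => -x) h
      simp only [neg_zero, neg_neg] at h2
      exact h2.symm
    exact one_ne_zero this
  have hF : (b : ZMod p) ^ (2 ^ e * u) = 1 := by
    rw [← he]; exact ZMod.pow_card_sub_one_eq_one hb0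
  have hie : i < e := by
    by_contra hlt
    push Not at hlt
    have h1 : ((b : ZMod p) ^ (2 ^ i * d)) ^ u = -1 := by rw [h, hu.neg_one_pow]
    have h2 : ((b : ZMod p) ^ (2 ^ i * d)) ^ u = 1 := by
      have : 2 ^ i * d * u = 2 ^ e * u * (2 ^ (i - e) * d) := by
        have h3 : 2 ^ i = 2 ^ e * 2 ^ (i - e) := by rw [← pow_add]; congr 1; omega
        rw [h3]; ring
      rw [← pow_mul, this, pow_mul, hF, one_pow]
    rw [h2] at h1
    exact one_ne_neg p hp2 h1
  have hhalf : p / 2 = 2 ^ (e - 1) * u := by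
    have h1 : p - 1 = 2 * (2 ^ (e - 1) * u) := by
      rw [he]
      have : 2 ^ e = 2 * 2 ^ (e - 1) := by rw [← pow_succ']; congr 1; omega
      rw [this]; ring
    have := (Fact.out : p.Prime).two_le
    omega
  have h1 := leg_pow p b
  have hpow : (((jacobiSym b p : ℤ) : ZMod p)) ^ d = (-1) ^ (2 ^ (e - 1 - i) * u) := by
    rw [h1, hhalf, ← h, ← pow_mul, ← pow_mul]
    congr 1
    have h3 : 2 ^ (e - 1) = 2 ^ i * 2 ^ (e - 1 - i) := by rw [← pow_add]; congr 1; omega
    rw [h3]; ring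
  have hz : jacobiSym b p ≠ 0 := by
    intro h0
    rw [h0, Int.cast_zero, zero_pow hd0] at hpow
    have h4 : ((-1 : ZMod p)) ^ (2 ^ (e - 1 - i) * u) ≠ 0 := pow_ne_zero _ (by simp)
    exact h4 hpow.symm
  refine ⟨hie, ?_, ?_⟩
  · intro h2
    have h3 : e - 1 - i = 0 := by omega
    rw [h3, pow_zero, one_mul, hu.neg_one_pow] at hpow
    rcases jacobiSym.trichotomy b p with h4 | h4 | h4
    · exact absurd h4 hz
    · rw [h4, Int.cast_one, one_pow] at hpow
      exact absurd hpow (one_ne_neg p hp2)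
    · exact h4
  · intro h2
    have h3 : Even (2 ^ (e - 1 - i) * u) := by
      apply Even.mul_right
      exact (Nat.even_pow' (by omega)).mpr even_two
    rw [h3.neg_one_pow] at hpow
    rcases jacobiSym.trichotomy b p with h4 | h4 | h4
    · exact absurd h4 hz
    · exact h4
    · rw [h4, Int.cast_neg, Int.cast_one, hd.neg_one_pow] at hpow
      exact absurd hpow.symm (one_ne_neg p hp2)

/-- reducing an identity modulo `m` to a divisor -/
theorem redm (m p b k : ℕ) (hp : p ∣ m) (c : ℤ) (h : (b : ZMod m) ^ k = (c : ZMod m)) :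
    (b : ZMod p) ^ k = (c : ZMod p) := by
  have := congrArg (ZMod.castHom hp (ZMod p)) h
  rwa [map_pow, map_natCast, map_intCast] at this

/-- one of three symbols decides -/
theorem wit_of (p q m : ℕ) (hp : p.Prime) (hq : q.Prime) (hp2 : p ≠ 2) (hq2 : q ≠ 2)
    (hpm : p ∣ m) (hqm : q ∣ m) :
    (∀ b : ℕ, jacobiSym b p = -1 → IsWit m b) ∨ (∀ b : ℕ, jacobiSym b q = -1 → IsWit m b) ∨
      (∀ b : ℕ, jacobiSym b (p * q) = -1 → IsWit m b) := by
  have : Fact p.Prime := ⟨hp⟩
  have : Fact q.Prime := ⟨hq⟩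
  obtain ⟨e, u, hu, he⟩ := Nat.exists_eq_two_pow_mul_odd (n := p - 1) (by have := hp.two_le; omega)
  obtain ⟨f, w, hw, hf⟩ := Nat.exists_eq_two_pow_mul_odd (n := q - 1) (by have := hq.two_le; omega)
  have key : ∀ b : ℕ, ¬ IsWit m b → (jacobiSym b p = 1 ∧ jacobiSym b q = 1) ∨
      ∃ i : ℕ, (i < e ∧ (i + 1 = e → jacobiSym b p = -1) ∧ (i + 1 ≠ e → jacobiSym b p = 1)) ∧
        (i < f ∧ (i + 1 = f → jacobiSym b q = -1) ∧ (i + 1 ≠ f → jacobiSym b q = 1)) := by
    intro b hb
    unfold IsWit at hb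
    push Not at hb
    obtain ⟨j, d, hjd, hd, h⟩ := hb
    by_cases h1 : (b : ZMod m) ^ d = 1
    · left
      have h2 := redm m p b d hpm 1 (by rw [Int.cast_one]; exact h1)
      have h3 := redm m q b d hqm 1 (by rw [Int.cast_one]; exact h1)
      rw [Int.cast_one] at h2 h3
      exact ⟨pass_one p hp2 b d hd h2, pass_one q hq2 b d hd h3⟩
    · right
      obtain ⟨i, hi, h2⟩ := h h1
      have h3 := redm m p b _ hpm (-1) (by rw [Int.cast_neg, Int.cast_one]; exact h2)
      have h4 := redm m q b _ hqm (-1) (by rw [Int.cast_neg, Int.cast_one]; exact h2)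
      rw [Int.cast_neg, Int.cast_one] at h3 h4
      exact ⟨i, pass_neg p hp2 b d i hd h3 e u hu he, pass_neg q hq2 b d i hd h4 f w hw hf⟩
  rcases lt_trichotomy f e with hlt | heq | hlt
  · left
    intro b hb
    by_contra hn
    rcases key b hn with ⟨h1, _⟩ | ⟨i, ⟨_, _, h1⟩, ⟨h2, _, _⟩⟩
    · rw [h1] at hb; norm_num at hb
    · rw [h1 (by omega)] at hb; norm_num at hb
  · right; right
    intro b hb
    by_contra hn
    have hmul : jacobiSym b (p * q) = jacobiSym b p * jacobiSym b q := by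
      have : NeZero p := ⟨hp.ne_zero⟩
      have : NeZero q := ⟨hq.ne_zero⟩
      exact jacobiSym.mul_right b p q
    rw [hmul] at hb
    rcases key b hn with ⟨h1, h2⟩ | ⟨i, ⟨_, h1, h2⟩, ⟨_, h3, h4⟩⟩
    · rw [h1, h2] at hb; norm_num at hb
    · by_cases hi : i + 1 = e
      · rw [h1 hi, h3 (by omega)] at hb; norm_num at hb
      · rw [h2 hi, h4 (by omega)] at hb; norm_num at hb
  · right; left
    intro b hb
    by_contra hn
    rcases key b hn with ⟨_, h1⟩ | ⟨i, ⟨h2, _, _⟩, ⟨_, _, h1⟩⟩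
    · rw [h1] at hb; norm_num at hb
    · rw [h1 (by omega)] at hb; norm_num at hb

/-- reciprocity -/
theorem recip (F : ℤ[X]) (n M : ℕ) (hM : Odd M) (hF : F.eval (n : ℤ) = M) :
    ∃ g : ℤ[X], (g = F ∨ g = -F) ∧ ∀ a : ℕ, a.Prime → a ≠ 2 →
      (jacobiSym a M : ℝ) = js g a n := by
  have hMmod : M % 4 = 1 ∨ M % 4 = 3 := by
    rcases hM with ⟨t, ht⟩; omega
  rcases hMmod with h | h
  · refine ⟨F, Or.inl rfl, ?_⟩
    intro a ha ha2
    have haodd : Odd a := ha.odd_of_ne_two ha2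
    unfold js
    rw [hF, jacobiSym.quadratic_reciprocity_one_mod_four' haodd h]
  · refine ⟨-F, Or.inr rfl, ?_⟩
    intro a ha ha2
    have haodd : Odd a := ha.odd_of_ne_two ha2
    unfold js
    rw [eval_neg, hF, jacobiSym.neg _ haodd]
    have h44 : a % 4 = 1 ∨ a % 4 = 3 := by
      rcases haodd with ⟨t, ht⟩; omega
    rcases h44 with h4 | h4
    · rw [jacobiSym.quadratic_reciprocity_one_mod_four h4 hM, ZMod.χ₄_nat_one_mod_four h4]
      simp
    · rw [jacobiSym.quadratic_reciprocity_three_mod_four h4 h, ZMod.χ₄_nat_three_mod_four h4]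
      simp

/-- many primes with symbol `-1` -/
theorem count_neg (g : ℤ[X]) (n M y : ℕ) (k : ℕ) (hk : M.primeFactors.card ≤ k) (hM0 : M ≠ 0)
    (hg : ∀ a : ℕ, a.Prime → a ≠ 2 → (jacobiSym a M : ℝ) = js g a n) :
    ((PR y).card : ℝ) / 2 - |∑ a ∈ PR y, js g a n| / 2 - 1 - k / 2 ≤
      ((PR y).filter (fun a : ℕ => jacobiSym a M = -1)).card := by
  classical
  have h1 : ∀ a ∈ PR y, (1 : ℝ) / 2 - js g a n / 2 - (if a = 2 then (1 : ℝ) else 0) -
      (if a ∣ M then (1 : ℝ) else 0) / 2 ≤ (if jacobiSym a M = -1 then (1 : ℝ) else 0) := by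
    intro a ha
    rw [PR, mem_filter] at ha
    have hjs := abs_le.mp (js_abs g a n)
    by_cases ha2 : a = 2
    · rw [if_pos ha2]
      have h2 : (0 : ℝ) ≤ (if a ∣ M then (1 : ℝ) else 0) / 2 := by split_ifs <;> norm_num
      have h3 : (0 : ℝ) ≤ (if jacobiSym a M = -1 then (1 : ℝ) else 0) := by
        split_ifs <;> norm_num
      linarith [hjs.1]
    · rw [if_neg ha2]
      have h2 := hg a ha.2 ha2
      rw [← h2]
      rcases jacobiSym.trichotomy (a : ℤ) M with h | h | h
      · have h3 : a ∣ M := by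
          by_contra h4
          have h5 : Int.gcd (a : ℤ) (M : ℤ) = 1 := by
            rw [Int.gcd_natCast_natCast]
            exact (Nat.Prime.coprime_iff_not_dvd ha.2).mpr h4
          exact jacobiSym.ne_zero h5 h
        rw [h, if_pos h3]
        norm_num
      · rw [h]
        have h3 : (0 : ℝ) ≤ (if a ∣ M then (1 : ℝ) else 0) / 2 := by split_ifs <;> norm_num
        norm_num
        split_ifs <;> norm_num
      · rw [h, if_pos rfl]
        have h3 : (0 : ℝ) ≤ (if a ∣ M then (1 : ℝ) else 0) / 2 := by split_ifs <;> norm_num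
        push_cast
        linarith
  have h2 := sum_le_sum h1
  rw [sum_sub_distrib, sum_sub_distrib, sum_sub_distrib, sum_const, nsmul_eq_mul, ← sum_div,
    ← sum_div, ← sum_filter, ← sum_filter, ← sum_filter, sum_const, sum_const, sum_const,
    nsmul_eq_mul, nsmul_eq_mul, nsmul_eq_mul, mul_one, mul_one, mul_one] at h2
  have h3 : (((PR y).filter (fun a => a = 2)).card : ℝ) ≤ 1 := by
    have h6 : (PR y).filter (fun a => a = 2) ⊆ {2} := by
      intro a ha
      rw [mem_filter] at ha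
      exact mem_singleton.mpr ha.2
    have := card_le_card h6
    rw [card_singleton] at this
    exact_mod_cast this
  have h4 : (((PR y).filter (fun a => a ∣ M)).card : ℝ) ≤ k := by
    have h6 : (PR y).filter (fun a => a ∣ M) ⊆ M.primeFactors := by
      intro a ha
      rw [mem_filter, PR, mem_filter] at ha
      exact Nat.mem_primeFactors.mpr ⟨ha.1.2, ha.2, hM0⟩
    exact_mod_cast (card_le_card h6).trans hk
  have h5 := le_abs_self (∑ a ∈ PR y, js g a n)
  linarith

end Pool.Agent.TH869.EVF
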