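import Pool.Agent.TH869.EVF.Wit
import Pool.Agent.TH869.EVF.Core

set_option autoImplicit false

/-!
# Witnesses for the strong test in polynomial families
-/

namespace Pool.Agent.TH869.EVF

open Polynomial Finset Filter Topology

/-- `f` is not a constant times a square -/
def NSq (f : ℤ[X]) : Prop :=
  ∀ (c : ℚ) (g : ℚ[X]), f.map (Int.castRingHom ℚ) ≠ C c * g ^ 2

theorem NSq.neg {f : ℤ[X]} (h : NSq f) : NSq (-f) := by
  intro c g hg
  apply h (-c) g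
  rw [Polynomial.map_neg] at hg
  rw [C_neg, neg_mul, ← hg, neg_neg]

theorem good_many (A : ℝ) (hA : 1 < A) (γ : ℝ) (hγ : 1 / A = 1 - 2 * γ) (ε : ℝ) (hε : 0 < ε)
    (S : List ℤ[X]) (hS : ∀ f ∈ S, NSq f) :
    ∃ κ C : ℝ, 0 < κ ∧ κ ≤ 1 / 8 ∧ 0 < C ∧ ∀ N : ℕ, 1 ≤ N → ∃ E : Finset ℕ,
      (E.card : ℝ) ≤ C * (N : ℝ) ^ (1 - κ) ∧ ∀ n : ℕ, n ≤ N → n ∉ E → ∀ f ∈ S,
      ∀ y : ℕ, (y : ℝ) ≤ (N : ℝ) ^ κ → |∑ p ∈ PR y, js f p n| ≤
        ε * (PR y).card + ((Nat.log 2 y : ℝ) + 1) * (y : ℝ) ^ (1 - γ) + Real.log N ^ A := by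
  classical
  induction S with
  | nil =>
    refine ⟨1 / 8, 1, by norm_num, le_rfl, one_pos, fun N hN => ⟨∅, ?_, ?_⟩⟩
    · rw [card_empty, Nat.cast_zero, one_mul]
      exact Real.rpow_nonneg (Nat.cast_nonneg _) _
    · intro n _ _ f hf
      exact absurd hf (List.not_mem_nil)
  | cons g S ih =>
    obtain ⟨κ1, C1, hκ1, hκ18, hC1, h1⟩ := ih (fun f hf => hS f (List.mem_cons_of_mem _ hf))
    obtain ⟨κ2, C2, hκ2, hκ28, hC2, h2⟩ := good_z g (hS g List.mem_cons_self) A hA γ hγ ε hε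
    refine ⟨min κ1 κ2, C1 + C2, lt_min hκ1 hκ2, (min_le_left _ _).trans hκ18, by positivity, ?_⟩
    intro N hN
    obtain ⟨E1, hE1, hE1'⟩ := h1 N hN
    obtain ⟨E2, hE2, hE2'⟩ := h2 N hN
    have hNr1 : (1 : ℝ) ≤ N := by exact_mod_cast hN
    refine ⟨E1 ∪ E2, ?_, ?_⟩
    · have h3 : ((E1 ∪ E2).card : ℝ) ≤ E1.card + E2.card := by exact_mod_cast card_union_le E1 E2
      have h4 : (N : ℝ) ^ (1 - κ1) ≤ (N : ℝ) ^ (1 - min κ1 κ2) :=
        Real.rpow_le_rpow_of_exponent_le hNr1 (by have := min_le_left κ1 κ2; linarith)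
      have h5 : (N : ℝ) ^ (1 - κ2) ≤ (N : ℝ) ^ (1 - min κ1 κ2) :=
        Real.rpow_le_rpow_of_exponent_le hNr1 (by have := min_le_right κ1 κ2; linarith)
      calc ((E1 ∪ E2).card : ℝ) ≤ C1 * (N : ℝ) ^ (1 - κ1) + C2 * (N : ℝ) ^ (1 - κ2) := by linarith
        _ ≤ C1 * (N : ℝ) ^ (1 - min κ1 κ2) + C2 * (N : ℝ) ^ (1 - min κ1 κ2) :=
            add_le_add (mul_le_mul_of_nonneg_left h4 hC1.le) (mul_le_mul_of_nonneg_left h5 hC2.le)
        _ = _ := by ring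
    · intro n hn hnE f hf y hy
      rw [mem_union] at hnE
      push Not at hnE
      rcases List.mem_cons.mp hf with rfl | hf'
      · exact hE2' n hn hnE.2 y (hy.trans (Real.rpow_le_rpow_of_exponent_le hNr1 (min_le_right _ _)))
      · exact hE1' n hn hnE.1 f hf' y
          (hy.trans (Real.rpow_le_rpow_of_exponent_le hNr1 (min_le_left _ _)))

theorem wit_core (f1 f2 : ℤ[X]) (hf1 : NSq f1) (hf2 : NSq f2) (hf12 : NSq (f1 * f2))
    (A : ℝ) (hA : 1 < A) (ε : ℝ) (hε : 0 < ε) :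
    ∃ c C N1 : ℝ, 0 < c ∧ 0 < C ∧ ∀ N : ℕ, 1 ≤ N → N1 ≤ N → ∃ E : Finset ℕ,
      (E.card : ℝ) ≤ C * (N : ℝ) ^ (1 - c) ∧ ∀ n : ℕ, 1 ≤ n → n ≤ N → n ∉ E →
      ∀ p q : ℕ, p.Prime → q.Prime → p ≠ q → f1.eval (n : ℤ) = p → f2.eval (n : ℤ) = q →
        (N : ℝ) ^ (1 / 16 : ℝ) < p ∧ ∀ m : ℕ, p * q ∣ m →
        ∀ y : ℕ, Real.log p ^ A ≤ y → (y : ℝ) ≤ (N : ℝ) ^ c →
          (1 / 2 - ε) * (PR y).card ≤ (Set.ncard {b : ℕ | b.Prime ∧ b ≤ y ∧ IsWit m b} : ℝ) := by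
  have hA0 : 0 < A := by linarith
  set A1 : ℝ := (1 + A) / 2 with hA1
  have hA11 : 1 < A1 := by rw [hA1]; linarith
  have hA1A : A1 < A := by rw [hA1]; linarith
  have hA10 : 0 < A1 := by linarith
  set γ : ℝ := (1 - 1 / A1) / 2 with hγdef
  have hγ : 1 / A1 = 1 - 2 * γ := by rw [hγdef]; ring
  have hiA1 : 1 / A1 < 1 := by rw [div_lt_one hA10]; exact hA11
  have hiA0 : 0 < 1 / A1 := by positivity
  have hγ0 : 0 < γ := by linarith
  set θ : ℝ := A1 / A with hθ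
  have hθ1 : θ < 1 := by rw [hθ, div_lt_one hA0]; exact hA1A
  have hiAp : 0 < 1 / A := by positivity
  have hθA : 1 / A ≤ θ := by rw [hθ]; gcongr
  set ρ : ℝ := max θ (1 - γ) with hρ
  have hρ1 : ρ < 1 := max_lt hθ1 (by linarith)
  have hρθ : θ ≤ ρ := le_max_left _ _
  have hργ : 1 - γ ≤ ρ := le_max_right _ _
  have hρ0 : 0 < ρ := by linarith
  obtain ⟨κ, C1, hκ0, hκ8, hC1, h1⟩ := good_many A1 hA11 γ hγ ε hε
    [f1, -f1, f2, -f2, f1 * f2, -(f1 * f2)] (by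
      intro f hf
      simp only [List.mem_cons, List.not_mem_nil, or_false] at hf
      rcases hf with rfl | rfl | rfl | rfl | rfl | rfl
      · exact hf1
      · exact hf1.neg
      · exact hf2
      · exact hf2.neg
      · exact hf12
      · exact hf12.neg)
  obtain ⟨C2, hC2, h2⟩ := small_disc f1 hf1
  obtain ⟨C2', hC2', h2'⟩ := small_disc f2 hf2
  set C3 : ℝ := 3 + 16 ^ A1 with hC3
  have h16 : (0 : ℝ) < 16 ^ A1 := Real.rpow_pos_of_pos (by norm_num) _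
  obtain ⟨Y1, hY11, hY1⟩ := err_small ρ hρ0 hρ1 C3 (ε / 2) (by positivity)
  have hev : ∀ᶠ t : ℝ in atTop, Y1 ≤ (Real.log t / 16) ^ A ∧ 2 ≤ t ^ (1 / 16 : ℝ) := by
    have t1 : Tendsto (fun t : ℝ => Real.log t / 16) atTop atTop :=
      Real.tendsto_log_atTop.atTop_div_const (by norm_num)
    have t2 := (tendsto_rpow_atTop hA0).comp t1
    filter_upwards [t2.eventually_ge_atTop Y1,
      (tendsto_rpow_atTop (show (0 : ℝ) < 1 / 16 by norm_num)).eventually_ge_atTop 2] with t h1 h2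
    exact ⟨h1, h2⟩
  obtain ⟨N1, hN1⟩ := eventually_atTop.mp hev
  refine ⟨κ, C1 + C2 + C2', N1, hκ0, by linarith, ?_⟩
  intro N hN hNN
  obtain ⟨g1, g2⟩ := hN1 N hNN
  have hNr1 : (1 : ℝ) ≤ N := by exact_mod_cast hN
  have hN0 : (0 : ℝ) < N := by linarith
  obtain ⟨E1, hE1, hE1'⟩ := h1 N hN
  obtain ⟨E2, hE2, hE2'⟩ := h2 N hN
  obtain ⟨E3, hE3, hE3'⟩ := h2' N hN
  refine ⟨E1 ∪ (E2 ∪ E3), ?_, ?_⟩
  · have h3 : ((E1 ∪ (E2 ∪ E3)).card : ℝ) ≤ E1.card + (E2.card + E3.card) := by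
      exact_mod_cast (card_union_le E1 (E2 ∪ E3)).trans
        (Nat.add_le_add_left (card_union_le E2 E3) _)
    have h5 : (N : ℝ) ^ (7 / 8 : ℝ) ≤ (N : ℝ) ^ (1 - κ) :=
      Real.rpow_le_rpow_of_exponent_le hNr1 (by linarith)
    have h6 := mul_le_mul_of_nonneg_left h5 hC2.le
    have h7 := mul_le_mul_of_nonneg_left h5 hC2'.le
    calc ((E1 ∪ (E2 ∪ E3)).card : ℝ) ≤ C1 * (N : ℝ) ^ (1 - κ) + (C2 * (N : ℝ) ^ (1 - κ) +
          C2' * (N : ℝ) ^ (1 - κ)) := by linarith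
      _ = _ := by ring
  · intro n hn1 hnN hnE p q hp hq hpq hf1p hf2q
    rw [mem_union, mem_union] at hnE
    push Not at hnE
    obtain ⟨hnE1, hnE2, hnE3⟩ := hnE
    have hbig : ∀ (f : ℤ[X]) (r : ℕ), f.eval (n : ℤ) = r → r.Prime →
        (∀ d : ℤ, d ≠ 0 → |(d : ℝ)| ≤ (N : ℝ) ^ (1 / 16 : ℝ) → ∀ y : ℤ,
          f.eval (n : ℤ) * d ≠ y * y) → (N : ℝ) ^ (1 / 16 : ℝ) < r := by
      intro f r hr hrp h
      by_contra hle
      push Not at hle
      refine h (r : ℤ) (by exact_mod_cast hrp.ne_zero) ?_ r (by rw [hr])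
      rw [Int.cast_natCast, Nat.abs_cast]
      exact hle
    have hp16 := hbig f1 p hf1p hp (hE2' n hn1 hnN hnE2).2
    have hq16 := hbig f2 q hf2q hq (hE3' n hn1 hnN hnE3).2
    refine ⟨hp16, ?_⟩
    intro m hm y hy1 hy2
    have hp2 : p ≠ 2 := by
      rintro rfl
      push_cast at hp16
      linarith
    have hq2 : q ≠ 2 := by
      rintro rfl
      push_cast at hq16
      linarith
    -- the symbol
    obtain ⟨M, g, hgS, hM0, hMk, hsym, hwit⟩ : ∃ (M : ℕ) (g : ℤ[X]),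
        g ∈ [f1, -f1, f2, -f2, f1 * f2, -(f1 * f2)] ∧ M ≠ 0 ∧ M.primeFactors.card ≤ 2 ∧
        (∀ a : ℕ, a.Prime → a ≠ 2 → (jacobiSym a M : ℝ) = js g a n) ∧
        (∀ b : ℕ, jacobiSym b M = -1 → IsWit m b) := by
      have hpo : Odd p := hp.odd_of_ne_two hp2
      have hqo : Odd q := hq.odd_of_ne_two hq2
      rcases wit_of p q m hp hq hp2 hq2 ((dvd_mul_right p q).trans hm) ((dvd_mul_left q p).trans hm)
        with h | h | h
      · obtain ⟨g, hg, hs⟩ := recip f1 n p hpo hf1p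
        refine ⟨p, g, ?_, hp.ne_zero, ?_, hs, h⟩
        · rcases hg with rfl | rfl <;> simp
        · rw [Nat.Prime.primeFactors hp, card_singleton]; norm_num
      · obtain ⟨g, hg, hs⟩ := recip f2 n q hqo hf2q
        refine ⟨q, g, ?_, hq.ne_zero, ?_, hs, h⟩
        · rcases hg with rfl | rfl <;> simp
        · rw [Nat.Prime.primeFactors hq, card_singleton]; norm_num
      · obtain ⟨g, hg, hs⟩ := recip (f1 * f2) n (p * q) (hpo.mul hqo) (by
          rw [eval_mul, hf1p, hf2q]; push_cast; ring)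
        refine ⟨p * q, g, ?_, mul_ne_zero hp.ne_zero hq.ne_zero, ?_, hs, h⟩
        · rcases hg with rfl | rfl <;> simp
        · rw [Nat.primeFactors_mul hp.ne_zero hq.ne_zero, Nat.Prime.primeFactors hp,
            Nat.Prime.primeFactors hq]
          exact (card_union_le _ _).trans (by simp)
    have hcount := count_neg g n M y 2 hMk hM0 hsym
    have hsub : ((((PR y).filter (fun a : ℕ => jacobiSym a M = -1)).card : ℕ) : ℝ) ≤
        (Set.ncard {b : ℕ | b.Prime ∧ b ≤ y ∧ IsWit m b} : ℝ) := by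
      have h3 : (((PR y).filter (fun a : ℕ => jacobiSym a M = -1) : Finset ℕ) : Set ℕ) ⊆
          {b : ℕ | b.Prime ∧ b ≤ y ∧ IsWit m b} := by
        intro b hb
        rw [Finset.mem_coe, mem_filter, PR, mem_filter, mem_range] at hb
        exact ⟨hb.1.2, by omega, hwit b hb.2⟩
      have hfin : {b : ℕ | b.Prime ∧ b ≤ y ∧ IsWit m b}.Finite :=
        (Set.finite_Iic y).subset (fun b hb => hb.2.1)
      have h4 := Set.ncard_le_ncard h3 hfin
      rw [Set.ncard_coe_finset] at h4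
      exact_mod_cast h4
    -- sizes
    have hlogN0 : 0 ≤ Real.log N := Real.log_nonneg hNr1
    have hlp : Real.log N / 16 ≤ Real.log p := by
      have := Real.log_le_log (by linarith) hp16.le
      rw [Real.log_rpow hN0] at this
      linarith
    have hlp0 : 0 ≤ Real.log p := by linarith
    have hyY1 : Y1 ≤ y := by
      refine g1.trans (le_trans ?_ hy1)
      exact Real.rpow_le_rpow (by positivity) hlp hA0.le
    have hyr1 : (1 : ℝ) ≤ y := hY11.trans hyY1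
    have hy0 : (0 : ℝ) < y := by linarith
    have hy1n : 1 ≤ y := by exact_mod_cast hyr1
    have hlogpy : Real.log p ≤ (y : ℝ) ^ (1 / A) := by
      have h3 := Real.rpow_le_rpow (Real.rpow_nonneg hlp0 _) hy1 hiAp.le
      rwa [← Real.rpow_mul hlp0, mul_one_div_cancel hA0.ne', Real.rpow_one] at h3
    have hlogNy : Real.log N ≤ 16 * (y : ℝ) ^ (1 / A) := by linarith
    have hL0 : Real.log N ^ A1 ≤ 16 ^ A1 * (y : ℝ) ^ ρ := by
      calc Real.log N ^ A1 ≤ (16 * (y : ℝ) ^ (1 / A)) ^ A1 :=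
            Real.rpow_le_rpow hlogN0 hlogNy hA10.le
        _ = 16 ^ A1 * (y : ℝ) ^ θ := by
            rw [Real.mul_rpow (by norm_num) (by positivity), ← Real.rpow_mul hy0.le]
            congr 2
            rw [hθ]; ring
        _ ≤ 16 ^ A1 * (y : ℝ) ^ ρ := by
            have := Real.rpow_le_rpow_of_exponent_le hyr1 hρθ
            gcongr
    have hone : 1 ≤ (y : ℝ) ^ ρ := Real.one_le_rpow hyr1 hρ0.le
    have hbal := hE1' n hnN hnE1 g hgS y hy2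
    have hnl := natlog_le y hy1n
    have hly0 : 0 ≤ Real.log y := Real.log_nonneg hyr1
    have hyγ : (y : ℝ) ^ (1 - γ) ≤ (y : ℝ) ^ ρ := Real.rpow_le_rpow_of_exponent_le hyr1 hργ
    have hyγ0 : 0 ≤ (y : ℝ) ^ (1 - γ) := Real.rpow_nonneg hy0.le _
    have hterm : ((Nat.log 2 y : ℝ) + 1) * (y : ℝ) ^ (1 - γ) ≤
        (2 * Real.log y + 1) * (y : ℝ) ^ ρ :=
      mul_le_mul (by linarith) hyγ hyγ0 (by linarith)
    have herr := hY1 y hyY1
    have hπ0 : (0 : ℝ) ≤ (PR y).card := Nat.cast_nonneg _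
    have h16y : 0 ≤ (16 : ℝ) ^ A1 * (y : ℝ) ^ ρ := by positivity
    have hexp : (C3 + Real.log y) * (y : ℝ) ^ ρ = 3 * (y : ℝ) ^ ρ + 16 ^ A1 * (y : ℝ) ^ ρ +
        Real.log y * (y : ℝ) ^ ρ := by rw [hC3]; ring
    have hexp2 : (2 * Real.log y + 1) * (y : ℝ) ^ ρ =
        2 * (Real.log y * (y : ℝ) ^ ρ) + (y : ℝ) ^ ρ := by ring
    rw [hexp] at herr
    rw [hexp2] at hterm
    refine le_trans ?_ hsub
    refine le_trans ?_ hcount
    push_cast
    have h4 : (1 / 2 - ε) * ((PR y).card : ℝ) = (PR y).card / 2 - ε * (PR y).card := by ring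
    rw [h4]
    linarith

end Pool.Agent.TH869.EVF
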