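import Pool.Agent.TH869.EVF.WitF

set_option autoImplicit false

/-!
# Witnesses for the strong test in polynomial families: final form
-/

namespace Pool.Agent.TH869.EVF

open Polynomial Finset Filter Topology

theorem wit_family (f1 f2 : ℤ[X]) (hf1 : NSq f1) (hf2 : NSq f2) (hf12 : NSq (f1 * f2))
    (A : ℝ) (hA : 1 < A) (ε : ℝ) (hε : 0 < ε) :
    ∃ c C : ℝ, 0 < c ∧ 0 < C ∧ ∀ N : ℕ, 1 ≤ N → ∃ E : Finset ℕ,
      (E.card : ℝ) ≤ C * (N : ℝ) ^ (1 - c) ∧ ∀ n : ℕ, 1 ≤ n → n ≤ N → n ∉ E →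
      ∀ p q : ℕ, p.Prime → q.Prime → p ≠ q → f1.eval (n : ℤ) = p → f2.eval (n : ℤ) = q →
        ∀ m : ℕ, p * q ∣ m →
        (∀ y : ℕ, Real.log p ^ A ≤ y → (y : ℝ) ≤ (N : ℝ) ^ c →
          (1 / 2 - ε) * (Nat.primeCounting y : ℝ) ≤
            (Set.ncard {b : ℕ | b.Prime ∧ b ≤ y ∧ IsWit m b} : ℝ)) ∧
        ∃ b : ℕ, b.Prime ∧ (b : ℝ) ≤ 2 * Real.log p ^ A ∧ IsWit m b := by
  have hA0 : 0 < A := by linarith
  set ε' : ℝ := min ε (1 / 4) with hε'
  have hε'0 : 0 < ε' := lt_min hε (by norm_num)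
  have hε'ε : ε' ≤ ε := min_le_left _ _
  have hε'4 : ε' ≤ 1 / 4 := min_le_right _ _
  obtain ⟨c, C, N1, hc, hC, hcore⟩ := wit_core f1 f2 hf1 hf2 hf12 A hA ε' hε'0
  obtain ⟨Cf, hCf1, hCf⟩ := poly_bound f1
  set d0 : ℕ := f1.natDegree + 1 with hd0
  have hd0r : (1 : ℝ) ≤ d0 := by exact_mod_cast (by omega : 1 ≤ d0)
  have hev : ∀ᶠ t : ℝ in atTop, N1 ≤ t ∧ 1 ≤ Real.log t / 16 ∧ Cf ≤ t ∧
      2 * (d0 * Real.log t) ^ A ≤ t ^ c := by
    have t1 : Tendsto (fun t : ℝ => Real.log t / 16) atTop atTop :=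
      Real.tendsto_log_atTop.atTop_div_const (by norm_num)
    have t2 := (isLittleO_log_rpow_atTop (show 0 < c / A by positivity)).def
      (show 0 < 1 / (2 ^ (1 / A) * (d0 : ℝ)) by positivity)
    filter_upwards [eventually_ge_atTop N1, t1.eventually_ge_atTop 1, eventually_ge_atTop Cf, t2,
      eventually_ge_atTop (1 : ℝ)] with t h1 h2 h3 h4 h5
    refine ⟨h1, h2, h3, ?_⟩
    have hl0 : 0 ≤ Real.log t := Real.log_nonneg h5
    rw [Real.norm_of_nonneg hl0, Real.norm_of_nonneg (Real.rpow_nonneg (by linarith) _)] at h4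
    have h6 : 2 ^ (1 / A) * (d0 * Real.log t) ≤ t ^ (c / A) := by
      calc 2 ^ (1 / A) * (d0 * Real.log t) = (2 ^ (1 / A) * d0) * Real.log t := by ring
        _ ≤ (2 ^ (1 / A) * d0) * (1 / (2 ^ (1 / A) * (d0 : ℝ)) * t ^ (c / A)) :=
            mul_le_mul_of_nonneg_left h4 (by positivity)
        _ = t ^ (c / A) := by field_simp
    have h7 := Real.rpow_le_rpow (by positivity) h6 hA0.le
    rw [Real.mul_rpow (by positivity) (by positivity), ← Real.rpow_mul (by norm_num),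
      ← Real.rpow_mul (by linarith), one_div_mul_cancel hA0.ne', Real.rpow_one,
      div_mul_cancel₀ _ hA0.ne'] at h7
    exact h7
  obtain ⟨N2, hN2⟩ := eventually_atTop.mp hev
  have hM1 : (1 : ℝ) ≤ max N2 1 := le_max_right _ _
  set c' : ℝ := min c (1 / 2) with hc'
  have hc'0 : 0 < c' := lt_min hc (by norm_num)
  have hc'c : c' ≤ c := min_le_left _ _
  refine ⟨c', C + max N2 1, hc'0, by linarith, ?_⟩
  intro N hN
  have hNr1 : (1 : ℝ) ≤ N := by exact_mod_cast hN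
  have hN0 : (0 : ℝ) < N := by linarith
  have hNp : 0 ≤ (N : ℝ) ^ (1 - c') := Real.rpow_nonneg hN0.le _
  rcases lt_or_ge (N : ℝ) N2 with hsmall | hlarge
  · refine ⟨Icc 1 N, ?_, ?_⟩
    · rw [Nat.card_Icc, Nat.add_sub_cancel]
      have h1 : (N : ℝ) = (N : ℝ) ^ c' * (N : ℝ) ^ (1 - c') := by
        rw [← Real.rpow_add hN0]; simp
      have h2 : (N : ℝ) ^ c' ≤ max N2 1 := by
        calc (N : ℝ) ^ c' ≤ (N : ℝ) ^ (1 : ℝ) :=
              Real.rpow_le_rpow_of_exponent_le hNr1 ((min_le_right _ _).trans (by norm_num))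
          _ = N := Real.rpow_one _
          _ ≤ N2 := hsmall.le
          _ ≤ _ := le_max_left _ _
      calc (N : ℝ) = (N : ℝ) ^ c' * (N : ℝ) ^ (1 - c') := h1
        _ ≤ (C + max N2 1) * (N : ℝ) ^ (1 - c') :=
          mul_le_mul_of_nonneg_right (by linarith) hNp
    · intro n h1 h2 h3
      exact absurd (mem_Icc.mpr ⟨h1, h2⟩) h3
  obtain ⟨g1, g2, g3, g4⟩ := hN2 N hlarge
  obtain ⟨E, hE, hE'⟩ := hcore N hN g1
  refine ⟨E, ?_, ?_⟩
  · calc (E.card : ℝ) ≤ C * (N : ℝ) ^ (1 - c) := hE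
      _ ≤ C * (N : ℝ) ^ (1 - c') :=
          mul_le_mul_of_nonneg_left
            (Real.rpow_le_rpow_of_exponent_le hNr1 (by linarith)) hC.le
      _ ≤ (C + max N2 1) * (N : ℝ) ^ (1 - c') :=
          mul_le_mul_of_nonneg_right (by linarith) hNp
  · intro n hn1 hnN hnE p q hp hq hpq hf1p hf2q m hm
    obtain ⟨hp16, hmain⟩ := hE' n hn1 hnN hnE p q hp hq hpq hf1p hf2q
    have hlp : Real.log N / 16 ≤ Real.log p := by
      have := Real.log_le_log (Real.rpow_pos_of_pos hN0 _) hp16.le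
      rw [Real.log_rpow hN0] at this
      linarith
    have hlp1 : 1 ≤ Real.log p := g2.trans hlp
    refine ⟨?_, ?_⟩
    · intro y hy1 hy2
      rw [← PR_card]
      have h1 := hmain m hm y hy1
        (hy2.trans (Real.rpow_le_rpow_of_exponent_le hNr1 hc'c))
      refine le_trans ?_ h1
      exact mul_le_mul_of_nonneg_right (by linarith) (Nat.cast_nonneg _)
    · set Z : ℝ := Real.log p ^ A with hZ
      have hZ1 : 1 ≤ Z := Real.one_le_rpow hlp1 hA0.le
      set y : ℕ := ⌊2 * Z⌋₊ with hy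
      have hy2Z : (y : ℝ) ≤ 2 * Z := Nat.floor_le (by linarith)
      have hyZ : Z ≤ y := by
        have := Nat.lt_floor_add_one (2 * Z)
        linarith
      have hy2 : 2 ≤ y := Nat.le_floor (by push_cast; linarith)
      have hpN : (p : ℝ) ≤ (N : ℝ) ^ d0 := by
        have h1 := hCf n hn1
        rw [hf1p, Int.cast_natCast, Nat.abs_cast] at h1
        have hnr : (1 : ℝ) ≤ n := by exact_mod_cast hn1
        have hnNr : (n : ℝ) ≤ N := by exact_mod_cast hnN
        have h4 : (n : ℝ) ^ f1.natDegree ≤ (N : ℝ) ^ f1.natDegree :=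
          pow_le_pow_left₀ (by linarith) hnNr _
        calc (p : ℝ) ≤ Cf * (n : ℝ) ^ f1.natDegree := h1
          _ ≤ N * (N : ℝ) ^ f1.natDegree := mul_le_mul g3 h4 (by positivity) hN0.le
          _ = (N : ℝ) ^ d0 := by rw [hd0, pow_succ]; ring
      have hlpN : Real.log p ≤ d0 * Real.log N := by
        have h0 : (0 : ℝ) < p := by exact_mod_cast hp.pos
        have := Real.log_le_log h0 hpN
        rwa [Real.log_pow] at this
      have hyN : (y : ℝ) ≤ (N : ℝ) ^ c := by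
        refine hy2Z.trans (le_trans ?_ g4)
        have := Real.rpow_le_rpow (by linarith) hlpN hA0.le
        rw [hZ]
        linarith
      have h1 := hmain m hm y hyZ hyN
      have hPR : (1 : ℝ) ≤ (PR y).card := by
        have : 2 ∈ PR y := by
          rw [PR, mem_filter, mem_range]
          exact ⟨by omega, Nat.prime_two⟩
        exact_mod_cast Finset.card_pos.mpr ⟨2, this⟩
      have h2 : 0 < (1 / 2 - ε') * ((PR y).card : ℝ) := by
        apply mul_pos <;> linarith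
      have h3 : 0 < Set.ncard {b : ℕ | b.Prime ∧ b ≤ y ∧ IsWit m b} := by
        have : (0 : ℝ) < (Set.ncard {b : ℕ | b.Prime ∧ b ≤ y ∧ IsWit m b} : ℝ) := by linarith
        exact_mod_cast this
      obtain ⟨b, hb⟩ := Set.nonempty_of_ncard_ne_zero h3.ne'
      refine ⟨b, hb.1, ?_, hb.2.2⟩
      have : (b : ℝ) ≤ y := by exact_mod_cast hb.2.1
      linarith

end Pool.Agent.TH869.EVF
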