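import Pool.Agent.TH869.EVF.Mom
import Pool.Agent.TH869.EVF.Dy
import Pool.Agent.TH869.EVF.Quad

set_option autoImplicit false

/-!
# The bad arguments for one dyadic block of primes
-/

namespace Pool.Agent.TH869.EVF

open Polynomial Finset Filter Topology

/-- the arguments for which the symbol sum over the block is large -/
noncomputable def Bz (f : ℤ[X]) (ε : ℝ) (N z : ℕ) : Finset ℕ :=
  (range (N + 1)).filter (fun n => ε * (Qz z).card < |∑ p ∈ Qz z, js f p n|)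

theorem zbad (f : ℤ[X]) (K0 : ℝ) (p0 : ℕ) (hK0 : 0 ≤ K0)
    (hW : ∀ p : ℕ, p.Prime → p0 < p →
      |∑ x ∈ range p, (jacobiSym (f.eval (x : ℤ)) p : ℝ)| ≤ K0 * √p)
    (A : ℝ) (hA : 1 < A) (γ : ℝ) (hγ : 1 / A = 1 - 2 * γ) (ε : ℝ) (hε : 0 < ε) :
    ∃ Z0 : ℝ, 2 ≤ Z0 ∧ ∀ N z : ℕ, 1 ≤ N → Z0 ≤ z → Real.log N ^ A ≤ z →
      (z : ℝ) ≤ (N : ℝ) ^ (1 / 8 : ℝ) → (z : ℝ) ^ (1 - γ) ≤ (Qz z).card →
      ((Bz f ε N z).card : ℝ) ≤ 3 * (N : ℝ) ^ (1 - γ / 16) := by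
  have hA0 : 0 < A := by linarith
  have hiA0 : 0 < 1 / A := by positivity
  have hiA1 : 1 / A < 1 := by rw [div_lt_one hA0]; exact hA
  have hγ0 : 0 < γ := by linarith
  have hγ1 : γ < 1 / 2 := by linarith
  set q0 : ℕ := ⌈4 / ε⌉₊ with hq0
  have hq0ε : 4 / ε ≤ q0 := Nat.le_ceil _
  have hq01 : 1 ≤ q0 := Nat.one_le_ceil_iff.mpr (by positivity)
  have hq0r : (1 : ℝ) ≤ q0 := by exact_mod_cast hq01
  set B1 : ℝ := 2 ^ q0 * (8 * (1 + 4 * K0 ^ 2) * q0 / ε ^ 2) with hB1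
  set B2 : ℝ := 2 ^ q0 * (4 / ε) ^ 2 with hB2
  have hB10 : 0 < B1 := by positivity
  have hB20 : 0 < B2 := by positivity
  have hev : ∀ᶠ t : ℝ in atTop, B1 ≤ t ^ (γ / 2) ∧ B2 ≤ t ^ (1 / 2 : ℝ) ∧ (q0 : ℝ) ≤ t ^ γ ∧
      2 * ((p0 : ℝ) + 1) ≤ t ∧ 2 ≤ t := by
    filter_upwards [(tendsto_rpow_atTop (show 0 < γ / 2 by positivity)).eventually_ge_atTop B1,
      (tendsto_rpow_atTop (show (0 : ℝ) < 1 / 2 by norm_num)).eventually_ge_atTop B2,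
      (tendsto_rpow_atTop hγ0).eventually_ge_atTop (q0 : ℝ),
      eventually_ge_atTop (2 * ((p0 : ℝ) + 1)), eventually_ge_atTop (2 : ℝ)]
      with t h1 h2 h3 h4 h5
    exact ⟨h1, h2, h3, h4, h5⟩
  obtain ⟨Z1, hZ1⟩ := eventually_atTop.mp hev
  refine ⟨max Z1 2, le_max_right _ _, ?_⟩
  intro N z hN hz hLz hzN hs
  obtain ⟨g1, g2, g3, g4, g5⟩ := hZ1 z ((le_max_left _ _).trans hz)
  have hz0 : (0 : ℝ) < z := by linarith
  have hz1 : (1 : ℝ) < z := by linarith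
  have hNr1 : (1 : ℝ) ≤ N := by exact_mod_cast hN
  have hN0 : (0 : ℝ) < N := by linarith
  set L : ℝ := Real.log N with hL
  set lz : ℝ := Real.log z with hlz
  have hL0 : 0 ≤ L := Real.log_nonneg hNr1
  have hlz2 : 1 / 2 ≤ lz := by
    have h1 : Real.log 2 ≤ lz := Real.log_le_log (by norm_num) g5
    have := Real.log_two_gt_d9
    linarith
  have hlz0 : 0 < lz := by linarith
  have hlzL : 8 * lz ≤ L := by
    have h1 : lz ≤ Real.log ((N : ℝ) ^ (1 / 8 : ℝ)) := Real.log_le_log hz0 hzN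
    rw [Real.log_rpow hN0] at h1
    linarith
  set m : ℕ := ⌊L / (4 * lz)⌋₊ with hm
  have hm1 : (m : ℝ) ≤ L / (4 * lz) := Nat.floor_le (by positivity)
  have hm2 : L / (8 * lz) ≤ m := by
    have h1 : L / (4 * lz) < m + 1 := Nat.lt_floor_add_one _
    have h2 : 1 ≤ L / (8 * lz) := by rw [le_div_iff₀ (by positivity)]; linarith
    have h3 : L / (4 * lz) = L / (8 * lz) + L / (8 * lz) := by field_simp; ring
    linarith
  have hm0 : 1 ≤ m := by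
    have h2 : 1 ≤ L / (8 * lz) := by rw [le_div_iff₀ (by positivity)]; linarith
    have : (1 : ℝ) ≤ m := h2.trans hm2
    exact_mod_cast this
  have hLz' : L ≤ (z : ℝ) ^ (1 - 2 * γ) := by
    rw [← hγ]
    have h1 : (L ^ A) ^ (1 / A) ≤ (z : ℝ) ^ (1 / A) := Real.rpow_le_rpow (by positivity) hLz hiA0.le
    rwa [← Real.rpow_mul hL0, mul_one_div_cancel hA0.ne', Real.rpow_one] at h1
  have hmz : (m : ℝ) ≤ (z : ℝ) ^ (1 - 2 * γ) := by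
    refine hm1.trans (le_trans ?_ hLz')
    apply div_le_self hL0
    linarith
  set k : ℕ := q0 * m with hk
  have hk1 : 1 ≤ k := Nat.one_le_iff_ne_zero.mpr (by positivity)
  have hkr : (k : ℝ) = q0 * m := by rw [hk]; push_cast; ring
  have hkz : (k : ℝ) ≤ q0 * (z : ℝ) ^ (1 - 2 * γ) := by rw [hkr]; gcongr
  have hksr : (k : ℝ) ≤ (Qz z).card := by
    refine le_trans (hkz.trans ?_) hs
    calc (q0 : ℝ) * (z : ℝ) ^ (1 - 2 * γ) ≤ (z : ℝ) ^ γ * (z : ℝ) ^ (1 - 2 * γ) := by gcongr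
      _ = (z : ℝ) ^ (1 - γ) := by rw [← Real.rpow_add hz0]; congr 1; ring
  have hks : k ≤ (Qz z).card := by exact_mod_cast hksr
  have hmk : 4 * (m : ℝ) ≤ ε * k := by
    rw [hkr]
    have h1 : 4 ≤ q0 * ε := by rwa [div_le_iff₀ hε] at hq0ε
    calc 4 * (m : ℝ) ≤ (q0 * ε) * m := by gcongr
      _ = _ := by ring
  have hmom := moment_bad (js f) K0 ((z : ℝ) / 2) z hK0 (by positivity)
    (by exact_mod_cast hz1.le) (Qz z) (fun p hp => mem_Qz hp) (fun p _ => js_per f p) (js_abs f) (by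
      intro p hp
      obtain ⟨a1, a2, a3⟩ := mem_Qz hp
      apply hW p a1
      have : (p0 : ℝ) < p := by linarith
      exact_mod_cast this) (N + 1) m k hk1 hks ε hε hmk (card_Qz z)
  have hs0 : (0 : ℝ) < (Qz z).card := lt_of_lt_of_le (Real.rpow_pos_of_pos hz0 _) hs
  have hX : 2 ^ q0 * (8 * (1 + 4 * K0 ^ 2) * k / (ε ^ 2 * (Qz z).card)) ≤ (z : ℝ) ^ (-(γ / 2)) := by
    have h1 : 8 * (1 + 4 * K0 ^ 2) * k / (ε ^ 2 * (Qz z).card) ≤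
        8 * (1 + 4 * K0 ^ 2) * (q0 * (z : ℝ) ^ (1 - 2 * γ)) / (ε ^ 2 * (z : ℝ) ^ (1 - γ)) := by
      have := Real.rpow_pos_of_pos hz0 (1 - γ)
      gcongr
    have h2 : (z : ℝ) ^ (1 - 2 * γ) / (z : ℝ) ^ (1 - γ) = (z : ℝ) ^ (-γ) := by
      rw [← Real.rpow_sub hz0]; congr 1; ring
    have h3 : (z : ℝ) ^ (γ / 2) * (z : ℝ) ^ (-γ) = (z : ℝ) ^ (-(γ / 2)) := by
      rw [← Real.rpow_add hz0]; congr 1; ring
    calc 2 ^ q0 * (8 * (1 + 4 * K0 ^ 2) * k / (ε ^ 2 * (Qz z).card))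
        ≤ 2 ^ q0 * (8 * (1 + 4 * K0 ^ 2) * (q0 * (z : ℝ) ^ (1 - 2 * γ)) /
            (ε ^ 2 * (z : ℝ) ^ (1 - γ))) := by gcongr
      _ = B1 * ((z : ℝ) ^ (1 - 2 * γ) / (z : ℝ) ^ (1 - γ)) := by rw [hB1]; ring
      _ = B1 * (z : ℝ) ^ (-γ) := by rw [h2]
      _ ≤ (z : ℝ) ^ (γ / 2) * (z : ℝ) ^ (-γ) := by
          have := Real.rpow_pos_of_pos hz0 (-γ)
          gcongr
      _ = _ := h3
  have hY : 2 ^ q0 * (4 * z / ε) ^ 2 ≤ (z : ℝ) ^ (5 / 2 : ℝ) := by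
    calc 2 ^ q0 * (4 * z / ε) ^ 2 = B2 * (z : ℝ) ^ 2 := by rw [hB2]; ring
      _ ≤ (z : ℝ) ^ (1 / 2 : ℝ) * (z : ℝ) ^ 2 := by gcongr
      _ = (z : ℝ) ^ (5 / 2 : ℝ) := by
          rw [← Real.rpow_natCast, ← Real.rpow_add hz0]; norm_num
  have hpow : ∀ a : ℝ, ((z : ℝ) ^ a) ^ m = Real.exp (a * (lz * m)) := by
    intro a
    rw [← Real.rpow_natCast, ← Real.rpow_mul hz0.le, Real.rpow_def_of_pos hz0]
    congr 1
    rw [hlz]; ring
  have hNpow : ∀ a : ℝ, (N : ℝ) ^ a = Real.exp (a * L) := by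
    intro a
    rw [Real.rpow_def_of_pos hN0]
    congr 1
    rw [hL]; ring
  have hlm1 : lz * m ≤ L / 4 := by
    calc lz * m ≤ lz * (L / (4 * lz)) := by gcongr
      _ = L / 4 := by field_simp
  have hlm2 : L / 8 ≤ lz * m := by
    calc L / 8 = lz * (L / (8 * lz)) := by field_simp
      _ ≤ lz * m := by gcongr
  have hXm : (2 ^ q0 * (8 * (1 + 4 * K0 ^ 2) * k / (ε ^ 2 * (Qz z).card))) ^ m ≤
      (N : ℝ) ^ (-(γ / 16)) := by
    calc _ ≤ ((z : ℝ) ^ (-(γ / 2))) ^ m := pow_le_pow_left₀ (by positivity) hX m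
      _ = Real.exp (-(γ / 2) * (lz * m)) := hpow _
      _ ≤ Real.exp (-(γ / 16) * L) := by
          apply Real.exp_le_exp.mpr
          have : γ / 2 * (L / 8) ≤ γ / 2 * (lz * m) := mul_le_mul_of_nonneg_left hlm2 (by linarith)
          linarith
      _ = _ := (hNpow _).symm
  have hYm : (2 ^ q0 * (4 * z / ε) ^ 2) ^ m ≤ (N : ℝ) ^ (1 - γ / 16) := by
    calc _ ≤ ((z : ℝ) ^ (5 / 2 : ℝ)) ^ m := pow_le_pow_left₀ (by positivity) hY m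
      _ = Real.exp (5 / 2 * (lz * m)) := hpow _
      _ ≤ Real.exp ((1 - γ / 16) * L) := by
          apply Real.exp_le_exp.mpr
          have h1 : γ / 16 * L ≤ 1 / 32 * L := mul_le_mul_of_nonneg_right (by linarith) hL0
          linarith
      _ = _ := (hNpow _).symm
  have h2k : (2 : ℝ) ^ k = (2 ^ q0) ^ m := by rw [hk, pow_mul]
  have hNγ : (N : ℝ) * (N : ℝ) ^ (-(γ / 16)) = (N : ℝ) ^ (1 - γ / 16) := by
    rw [← Real.rpow_one_add' hN0.le (by linarith)]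
    congr 1
  have hmain : 2 ^ k * (((N + 1 : ℕ) : ℝ) * (8 * (1 + 4 * K0 ^ 2) * k / (ε ^ 2 * (Qz z).card)) ^ m +
      ((4 * z / ε) ^ 2) ^ m) ≤ 3 * (N : ℝ) ^ (1 - γ / 16) := by
    calc 2 ^ k * (((N + 1 : ℕ) : ℝ) * (8 * (1 + 4 * K0 ^ 2) * k / (ε ^ 2 * (Qz z).card)) ^ m +
          ((4 * z / ε) ^ 2) ^ m)
        = ((N + 1 : ℕ) : ℝ) * (2 ^ q0 * (8 * (1 + 4 * K0 ^ 2) * k / (ε ^ 2 * (Qz z).card))) ^ m +
          (2 ^ q0 * (4 * z / ε) ^ 2) ^ m := by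
          rw [h2k, mul_pow (2 ^ q0), mul_pow (2 ^ q0)]; ring
      _ ≤ (2 * N) * (N : ℝ) ^ (-(γ / 16)) + (N : ℝ) ^ (1 - γ / 16) := by
          have h1 : ((N + 1 : ℕ) : ℝ) ≤ 2 * N := by push_cast; linarith
          exact add_le_add (mul_le_mul h1 hXm (by positivity) (by positivity)) hYm
      _ = 3 * (N : ℝ) ^ (1 - γ / 16) := by rw [mul_assoc, hNγ]; ring
  exact hmom.trans hmain

end Pool.Agent.TH869.EVF
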